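import Pool.Agent.H68.OF.XX

/-!
Module LOGA: elementary facts about averages.
`log_le`: with `A(Z) = ∑_{n≤Z} F(n)`, `∑_{n≤X} F(n)/n = ∑_{Z<X} A(Z) (1/Z - 1/(Z+1)) + A(X)/X`.
`gap`: `A(Z) = A(X) - ∑_{Z<n≤X} F(n)`.
`cor_shift`: `cor G h Z` and `corN G h' Z` with `h i = h' i + t` differ by at most `2|t|/Z`.
-/

set_option autoImplicit false

open Filter Topology

namespace Pool.Agent.H68.OF

lemma logA_norm_sum_le (F : ℕ → ℂ) (hF : ∀ n, ‖F n‖ ≤ 1) (s : Finset ℕ) :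
    ‖∑ n ∈ s, F n‖ ≤ s.card := by
  refine (norm_sum_le _ _).trans ?_
  calc ∑ n ∈ s, ‖F n‖ ≤ ∑ n ∈ s, (1 : ℝ) := Finset.sum_le_sum (fun n _ => hF n)
    _ = s.card := by simp

lemma logA_norm_avg (F : ℕ → ℂ) (hF : ∀ n, ‖F n‖ ≤ 1) (Z : ℕ) :
    ‖(1 / (Z : ℂ)) * ∑ n ∈ Finset.Icc 1 Z, F n‖ ≤ 1 := by
  rcases Nat.eq_zero_or_pos Z with rfl | hZ
  · simp
  rw [norm_mul, norm_div, norm_one, Complex.norm_natCast]
  have h1 := logA_norm_sum_le F hF (Finset.Icc 1 Z)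
  rw [Nat.card_Icc, Nat.add_sub_cancel] at h1
  have hZ' : (0 : ℝ) < Z := by exact_mod_cast hZ
  calc 1 / (Z : ℝ) * ‖∑ n ∈ Finset.Icc 1 Z, F n‖ ≤ 1 / (Z : ℝ) * Z := by gcongr
    _ = 1 := by field_simp

theorem log_le (F : ℕ → ℂ) (hF : ∀ n, ‖F n‖ ≤ 1) (X : ℕ) :
    ‖∑ n ∈ Finset.Icc 1 X, F n / n‖
      ≤ ∑ Z ∈ Finset.Icc 1 X, ‖(1 / (Z : ℂ)) * ∑ n ∈ Finset.Icc 1 Z, F n‖ / Z + 1 := by
  have key : ∀ X : ℕ, ‖∑ n ∈ Finset.Icc 1 X, F n / n - (1 / (X : ℂ)) * ∑ n ∈ Finset.Icc 1 X, F n‖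
      ≤ ∑ Z ∈ Finset.Ico 1 X, ‖(1 / (Z : ℂ)) * ∑ n ∈ Finset.Icc 1 Z, F n‖ / Z := by
    intro X
    induction X with
    | zero => simp
    | succ N ih =>
      rcases Nat.eq_zero_or_pos N with h0 | hN
      · subst h0
        simp
      rw [Finset.sum_Ico_succ_top hN]
      rw [Finset.sum_Icc_succ_top (by omega), Finset.sum_Icc_succ_top (by omega : 1 ≤ N + 1)]
      set A : ℂ := ∑ n ∈ Finset.Icc 1 N, F n with hA
      set B : ℂ := ∑ n ∈ Finset.Icc 1 N, F n / n with hB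
      have hN1 : (N : ℂ) ≠ 0 := by exact_mod_cast hN.ne'
      have hN2 : ((N : ℂ) + 1) ≠ 0 := by exact_mod_cast (Nat.succ_ne_zero N)
      have h1 : B + F (N + 1) / ((N + 1 : ℕ) : ℂ) - 1 / ((N + 1 : ℕ) : ℂ) * (A + F (N + 1))
          = (B - 1 / (N : ℂ) * A) + (1 / (N : ℂ) * A) * (1 / ((N : ℂ) + 1)) := by
        push_cast
        field_simp
        ring
      rw [h1]
      have hNr : (0 : ℝ) < N := by exact_mod_cast hN
      have h2 : ‖(1 / (N : ℂ) * A) * (1 / ((N : ℂ) + 1))‖ ≤ ‖1 / (N : ℂ) * A‖ / N := by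
        rw [norm_mul, norm_div (1 : ℂ) ((N : ℂ) + 1), norm_one]
        have : ‖(N : ℂ) + 1‖ = (N : ℝ) + 1 := by
          have := Complex.norm_natCast (N + 1)
          push_cast at this
          exact this
        rw [this, mul_one_div]
        apply div_le_div_of_nonneg_left (norm_nonneg _) hNr
        linarith
      exact (norm_add_le _ _).trans (add_le_add ih h2)
  have h1 := key X
  have h2 := logA_norm_avg F hF X
  have h3 : ∑ Z ∈ Finset.Ico 1 X, ‖(1 / (Z : ℂ)) * ∑ n ∈ Finset.Icc 1 Z, F n‖ / (Z : ℝ)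
      ≤ ∑ Z ∈ Finset.Icc 1 X, ‖(1 / (Z : ℂ)) * ∑ n ∈ Finset.Icc 1 Z, F n‖ / (Z : ℝ) :=
    Finset.sum_le_sum_of_subset_of_nonneg Finset.Ico_subset_Icc_self (fun _ _ _ => by positivity)
  have h4 := norm_add_le (∑ n ∈ Finset.Icc 1 X, F n / n - (1 / (X : ℂ)) * ∑ n ∈ Finset.Icc 1 X, F n)
    ((1 / (X : ℂ)) * ∑ n ∈ Finset.Icc 1 X, F n)
  rw [sub_add_cancel] at h4
  linarith

theorem gap (F : ℕ → ℂ) (hF : ∀ n, ‖F n‖ ≤ 1) (X Z : ℕ) (hZ : 0 < Z) (hZX : Z ≤ X) (d : ℝ)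
    (hd : 1 - d ≤ ‖(1 / (X : ℂ)) * ∑ n ∈ Finset.Icc 1 X, F n‖) :
    1 - d * X / Z ≤ ‖(1 / (Z : ℂ)) * ∑ n ∈ Finset.Icc 1 Z, F n‖ := by
  have hZr : (0 : ℝ) < Z := by exact_mod_cast hZ
  have hX : 0 < X := lt_of_lt_of_le hZ hZX
  have hXr : (0 : ℝ) < X := by exact_mod_cast hX
  have hsplit : ∑ n ∈ Finset.Icc 1 X, F n = ∑ n ∈ Finset.Icc 1 Z, F n + ∑ n ∈ Finset.Ioc Z X, F n := by
    rw [← Finset.sum_union]
    · congr 1
      ext n
      simp only [Finset.mem_Icc, Finset.mem_union, Finset.mem_Ioc]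
      omega
    · rw [Finset.disjoint_left]
      intro n hn hn'
      simp only [Finset.mem_Icc, Finset.mem_Ioc] at hn hn'
      omega
  have h1 := logA_norm_sum_le F hF (Finset.Ioc Z X)
  rw [Nat.card_Ioc, Nat.cast_sub hZX] at h1
  rw [norm_mul, norm_div, norm_one, Complex.norm_natCast, hsplit] at hd
  rw [norm_mul, norm_div, norm_one, Complex.norm_natCast]
  have h2 := norm_add_le (∑ n ∈ Finset.Icc 1 Z, F n) (∑ n ∈ Finset.Ioc Z X, F n)
  rw [one_div, inv_mul_eq_div, le_div_iff₀ hXr] at hd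
  rw [one_div, inv_mul_eq_div, le_div_iff₀ hZr]
  have h3 : (1 - d * X / Z) * Z = Z - d * X := by field_simp
  rw [h3]
  linarith

theorem cor_shift {k : ℕ} (G : Fin k → ArithmeticFunction ℂ) (hbd : ∀ i n, ‖G i n‖ ≤ 1)
    (h : Fin k → ℤ) (h' : Fin k → ℕ) (t : ℤ) (ht : ∀ i, h i = h' i + t) (Z : ℕ) (hZ : 0 < Z) :
    ‖cor G h Z - corN G h' Z‖ ≤ 2 * |(t : ℝ)| / Z := by
  have hZr : (0 : ℝ) < Z := by exact_mod_cast hZ
  set F : ℤ → ℂ := fun n => ∏ i, G i (n + h' i).toNat with hF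
  have hFb : ∀ n, ‖F n‖ ≤ 1 := by
    intro n
    rw [hF]
    simp only [norm_prod]
    exact Finset.prod_le_one (fun _ _ => norm_nonneg _) (fun i _ => hbd i _)
  have h1 : ∑ n ∈ Finset.Icc 1 Z, ∏ i, G i ((n : ℤ) + h i).toNat
      = ∑ m ∈ Finset.Icc (1 + t) (Z + t), F m := by
    refine Finset.sum_bij' (fun (n : ℕ) _ => (n : ℤ) + t) (fun (m : ℤ) _ => (m - t).toNat) ?_ ?_ ?_ ?_ ?_
    · intro n hn
      rw [Finset.mem_Icc] at hn ⊢
      omega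
    · intro m hm
      rw [Finset.mem_Icc] at hm ⊢
      omega
    · intro n _
      simp
    · intro m hm
      rw [Finset.mem_Icc] at hm
      rw [Int.toNat_of_nonneg (by omega)]
      ring
    · intro n _
      simp only [hF]
      apply Finset.prod_congr rfl
      intro i _
      rw [ht i]
      congr 2
      ring
  have h2 : ∑ n ∈ Finset.Icc 1 Z, ∏ i, G i (n + h' i) = ∑ m ∈ Finset.Icc (1 : ℤ) Z, F m := by
    refine Finset.sum_bij' (fun (n : ℕ) _ => (n : ℤ)) (fun (m : ℤ) _ => m.toNat) ?_ ?_ ?_ ?_ ?_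
    · intro n hn
      rw [Finset.mem_Icc] at hn ⊢
      omega
    · intro m hm
      rw [Finset.mem_Icc] at hm ⊢
      omega
    · intro n _
      simp
    · intro m hm
      rw [Finset.mem_Icc] at hm
      rw [Int.toNat_of_nonneg (by omega)]
    · intro n _
      simp only [hF]
      apply Finset.prod_congr rfl
      intro i _
      congr 1
  have h3 : ‖∑ m ∈ Finset.Icc (1 + t) (Z + t), F m - ∑ m ∈ Finset.Icc (1 : ℤ) Z, F m‖ ≤ 2 * |(t : ℝ)| := by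
    have hd := Finset.sum_sdiff_sub_sum_sdiff (s₂ := Finset.Icc (1 + t) (Z + t))
      (s₁ := Finset.Icc (1 : ℤ) Z) (f := F)
    rw [← hd]
    have hb : ∀ s : Finset ℤ, ‖∑ m ∈ s, F m‖ ≤ s.card := by
      intro s
      refine (norm_sum_le _ _).trans ?_
      calc ∑ n ∈ s, ‖F n‖ ≤ ∑ n ∈ s, (1 : ℝ) := Finset.sum_le_sum (fun n _ => hFb n)
        _ = s.card := by simp
    have hc1 : ((Finset.Icc (1 + t) (Z + t) \ Finset.Icc (1 : ℤ) Z).card : ℝ) ≤ |(t : ℝ)| := by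
      have hsub : Finset.Icc (1 + t) (Z + t) \ Finset.Icc (1 : ℤ) Z
          ⊆ Finset.Icc (1 + t) 0 ∪ Finset.Icc (Z + 1 : ℤ) (Z + t) := by
        intro m hm
        simp only [Finset.mem_sdiff, Finset.mem_Icc, Finset.mem_union] at hm ⊢
        omega
      have hcard : (Finset.Icc (1 + t) 0 ∪ Finset.Icc (Z + 1 : ℤ) (Z + t)).card ≤ t.natAbs := by
        refine (Finset.card_union_le _ _).trans ?_
        rw [Int.card_Icc, Int.card_Icc]
        omega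
      have : ((Finset.Icc (1 + t) (Z + t) \ Finset.Icc (1 : ℤ) Z).card : ℝ) ≤ (t.natAbs : ℝ) := by
        exact_mod_cast (Finset.card_le_card hsub).trans hcard
      rwa [Nat.cast_natAbs, Int.cast_abs] at this
    have hc2 : ((Finset.Icc (1 : ℤ) Z \ Finset.Icc (1 + t) (Z + t)).card : ℝ) ≤ |(t : ℝ)| := by
      have hsub : Finset.Icc (1 : ℤ) Z \ Finset.Icc (1 + t) (Z + t)
          ⊆ Finset.Icc 1 t ∪ Finset.Icc (Z + t + 1 : ℤ) Z := by
        intro m hm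
        simp only [Finset.mem_sdiff, Finset.mem_Icc, Finset.mem_union] at hm ⊢
        omega
      have hcard : (Finset.Icc 1 t ∪ Finset.Icc (Z + t + 1 : ℤ) Z).card ≤ t.natAbs := by
        refine (Finset.card_union_le _ _).trans ?_
        rw [Int.card_Icc, Int.card_Icc]
        omega
      have : ((Finset.Icc (1 : ℤ) Z \ Finset.Icc (1 + t) (Z + t)).card : ℝ) ≤ (t.natAbs : ℝ) := by
        exact_mod_cast (Finset.card_le_card hsub).trans hcard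
      rwa [Nat.cast_natAbs, Int.cast_abs] at this
    have h4 := norm_sub_le (∑ m ∈ Finset.Icc (1 + t) (Z + t) \ Finset.Icc (1 : ℤ) Z, F m)
      (∑ m ∈ Finset.Icc (1 : ℤ) Z \ Finset.Icc (1 + t) (Z + t), F m)
    have h5 := hb (Finset.Icc (1 + t) (Z + t) \ Finset.Icc (1 : ℤ) Z)
    have h6 := hb (Finset.Icc (1 : ℤ) Z \ Finset.Icc (1 + t) (Z + t))
    linarith
  unfold cor corN
  rw [h1, h2, ← mul_sub, norm_mul, norm_div, norm_one, Complex.norm_natCast, one_div,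
    inv_mul_eq_div]
  gcongr

end Pool.Agent.H68.OF
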