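import Mathlib

/-!
Module WIN: averaging over scales. `b : ℕ → [0,1]`, weights `ω` on a finite set `P` of positive integers
of total mass `1`, and `∑_p ω_p b(⌊X/p⌋) ≤ δ` for all `X ≥ X₀`. Then for `X₀ ≤ Y ≤ X`, `1 ≤ Y`:
`∑_{Y<Z≤X} b(Z)/Z ≤ δ log(X/Y) + C`.

Sum the hypothesis over `Y < X' ≤ X` with weights `1/X'` (`∑ 1/X' ≤ log(X/Y)`). For fixed `p`:
`∑_{Y<X'≤X} b(⌊X'/p⌋)/X' ≥ ∑_{Y<Z, p(Z+1) ≤ X} b(Z) ∑_{X'=pZ}^{pZ+p-1} 1/X' ≥ ∑ b(Z)/(Z+1)` and
`∑_{Y<Z≤X} b(Z)/Z - ∑_{Y<Z, p(Z+1)≤X} b(Z)/(Z+1) ≤ ∑ (1/Z-1/(Z+1)) + ∑_{X/p-1<Z≤X} 1/Z`.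
-/

set_option autoImplicit false

namespace Pool.Agent.H68.OF

lemma win_harm (Y X : ℕ) (hY : 1 ≤ Y) (hYX : Y ≤ X) :
    ∑ Z ∈ Finset.Ioc Y X, (1 : ℝ) / Z ≤ Real.log (X / Y) := by
  induction X, hYX using Nat.le_induction with
  | base =>
    have : (0 : ℝ) < Y := by exact_mod_cast hY
    simp [div_self this.ne']
  | succ n hn ih =>
    rw [Finset.sum_Ioc_succ_top hn]
    have hn0 : (0 : ℝ) < n := by exact_mod_cast hY.trans hn
    have hY0 : (0 : ℝ) < Y := by exact_mod_cast hY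
    have h1 : (1 : ℝ) / ((n + 1 : ℕ) : ℝ) ≤ Real.log (((n + 1 : ℕ) : ℝ) / n) := by
      have h2 := Real.one_sub_inv_le_log_of_pos (x := ((n + 1 : ℕ) : ℝ) / n) (by positivity)
      have h3 : 1 - (((n + 1 : ℕ) : ℝ) / n)⁻¹ = 1 / ((n + 1 : ℕ) : ℝ) := by
        push_cast
        field_simp
        ring
      linarith
    have h4 : Real.log (((n + 1 : ℕ) : ℝ) / Y) = Real.log (n / Y) + Real.log (((n + 1 : ℕ) : ℝ) / n) := by
      rw [← Real.log_mul (by positivity) (by positivity)]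
      congr 1
      field_simp
    rw [h4]
    linarith

lemma win_tele (Y X : ℕ) (hY : 1 ≤ Y) :
    ∑ Z ∈ Finset.Ioc Y X, ((1 : ℝ) / Z - 1 / (Z + 1)) ≤ 1 := by
  have key : ∀ X : ℕ, Y ≤ X → ∑ Z ∈ Finset.Ioc Y X, ((1 : ℝ) / Z - 1 / (Z + 1)) ≤ 1 - 1 / (X + 1) := by
    intro X hX
    induction X, hX using Nat.le_induction with
    | base =>
      have : (0 : ℝ) < Y + 1 := by positivity
      simp only [Finset.Ioc_self, Finset.sum_empty, sub_nonneg]
      rw [div_le_one this]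
      have : (0 : ℝ) ≤ Y := by positivity
      linarith
    | succ n hn ih =>
      rw [Finset.sum_Ioc_succ_top hn]
      push_cast
      linarith
  rcases le_or_gt Y X with h | h
  · have h1 := key X h
    have h3 : (0 : ℝ) ≤ 1 / ((X : ℝ) + 1) := by positivity
    linarith
  · rw [Finset.Ioc_eq_empty (by omega)]
    simp

/-- the lower bound for one `p` -/
lemma win_one (p : ℕ) (hp : 0 < p) (b : ℕ → ℝ) (hb0 : ∀ n, 0 ≤ b n) (hb1 : ∀ n, b n ≤ 1) (Y X : ℕ)
    (hY : 1 ≤ Y) (hYX : Y ≤ X) :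
    ∑ Z ∈ Finset.Ioc Y X, b Z / Z ≤ ∑ X' ∈ Finset.Ioc Y X, b (X' / p) / X' + (4 + Real.log (2 * p)) := by
  classical
  have hpr : (1 : ℝ) ≤ p := by exact_mod_cast hp
  set V : ℕ := X / p - 1 with hV
  -- good Z
  have hgood : ∑ Z ∈ Finset.Ioc Y V, b Z / (Z + 1) ≤ ∑ X' ∈ Finset.Ioc Y X, b (X' / p) / X' := by
    have h1 : ∀ Z ∈ Finset.Ioc Y V, b Z / (Z + 1) ≤
        ∑ X' ∈ (Finset.Ioc Y X).filter (fun X' => X' / p = Z), b (X' / p) / X' := by
      intro Z hZ
      rw [Finset.mem_Ioc] at hZ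
      have hZ1 : p * (Z + 1) ≤ X := by
        have h2 : Z + 1 ≤ X / p := by omega
        calc p * (Z + 1) ≤ p * (X / p) := Nat.mul_le_mul_left _ h2
          _ ≤ X := Nat.mul_div_le _ _
      have hsub : Finset.Ico (p * Z) (p * Z + p) ⊆ (Finset.Ioc Y X).filter (fun X' => X' / p = Z) := by
        intro x hx
        rw [Finset.mem_Ico] at hx
        rw [Finset.mem_filter, Finset.mem_Ioc]
        have h3 : Z ≤ p * Z := Nat.le_mul_of_pos_left Z hp
        refine ⟨⟨by omega, ?_⟩, ?_⟩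
        · have : p * (Z + 1) = p * Z + p := by ring
          omega
        · rw [Nat.div_eq_iff hp]
          constructor
          · rw [mul_comm]; exact hx.1
          · rw [mul_comm]; omega
      calc b Z / (Z + 1) = ∑ x ∈ Finset.Ico (p * Z) (p * Z + p), b Z / (p * (Z + 1)) := by
            rw [Finset.sum_const, Nat.card_Ico, nsmul_eq_mul]
            have h4 : p * Z + p - p * Z = p := by omega
            rw [h4]
            have : (0 : ℝ) < p := by linarith
            field_simp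
        _ ≤ ∑ x ∈ Finset.Ico (p * Z) (p * Z + p), b (x / p) / x := by
            apply Finset.sum_le_sum
            intro x hx
            rw [Finset.mem_Ico] at hx
            have h3 : Z ≤ p * Z := Nat.le_mul_of_pos_left Z hp
            have hx0 : 0 < x := by omega
            have hxr : (0 : ℝ) < x := by exact_mod_cast hx0
            have h5 : x / p = Z := by
              rw [Nat.div_eq_iff hp]
              constructor
              · rw [mul_comm]; exact hx.1
              · rw [mul_comm]; omega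
            rw [h5]
            apply div_le_div_of_nonneg_left (hb0 Z) hxr
            have : x ≤ p * (Z + 1) := by
              have : p * (Z + 1) = p * Z + p := by ring
              omega
            exact_mod_cast this
        _ ≤ _ := Finset.sum_le_sum_of_subset_of_nonneg hsub (fun x _ _ => by
            have := hb0 (x / p)
            positivity)
    calc ∑ Z ∈ Finset.Ioc Y V, b Z / (Z + 1)
        ≤ ∑ Z ∈ Finset.Ioc Y V, ∑ X' ∈ (Finset.Ioc Y X).filter (fun X' => X' / p = Z),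
            b (X' / p) / X' := Finset.sum_le_sum h1
      _ ≤ ∑ X' ∈ Finset.Ioc Y X, b (X' / p) / X' := by
          rw [← Finset.sum_biUnion]
          · apply Finset.sum_le_sum_of_subset_of_nonneg
            · intro x hx
              rw [Finset.mem_biUnion] at hx
              obtain ⟨Z, _, hx⟩ := hx
              exact (Finset.mem_filter.1 hx).1
            · intro x _ _
              have := hb0 (x / p)
              positivity
          · intro Z _ Z' _ hZZ
            rw [Function.onFun, Finset.disjoint_left]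
            intro x hx hx'
            rw [Finset.mem_filter] at hx hx'
            exact hZZ (hx.2.symm.trans hx'.2)
  -- comparison of b Z / Z and b Z / (Z+1)
  have hcomp : ∑ Z ∈ Finset.Ioc Y V, b Z / Z ≤ ∑ Z ∈ Finset.Ioc Y V, b Z / (Z + 1) + 1 := by
    have h1 : ∑ Z ∈ Finset.Ioc Y V, b Z / Z ≤ ∑ Z ∈ Finset.Ioc Y V, (b Z / (Z + 1)
        + ((1 : ℝ) / Z - 1 / (Z + 1))) := by
      apply Finset.sum_le_sum
      intro Z hZ
      rw [Finset.mem_Ioc] at hZ
      have hZr : (0 : ℝ) < Z := by exact_mod_cast (by omega : 0 < Z)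
      have h2 : (0 : ℝ) ≤ 1 / Z - 1 / (Z + 1) := by
        rw [sub_nonneg]
        apply one_div_le_one_div_of_le hZr
        linarith
      have h3 : b Z / Z = b Z / (Z + 1) + b Z * (1 / Z - 1 / (Z + 1)) := by
        field_simp
        ring
      rw [h3]
      nlinarith [hb0 Z, hb1 Z]
    rw [Finset.sum_add_distrib] at h1
    have := win_tele Y V hY
    linarith
  -- the tail
  set V' : ℕ := max Y V with hV'
  have hV'Y : Y ≤ V' := le_max_left _ _
  have hVX : V ≤ X := (Nat.sub_le _ _).trans (Nat.div_le_self _ _)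
  have hV'X : V' ≤ X := max_le hYX hVX
  have hsplit : ∑ Z ∈ Finset.Ioc Y X, b Z / Z
      = ∑ Z ∈ Finset.Ioc Y V', b Z / Z + ∑ Z ∈ Finset.Ioc V' X, b Z / Z := by
    rw [← Finset.sum_union]
    · congr 1
      ext Z
      simp only [Finset.mem_Ioc, Finset.mem_union]
      omega
    · rw [Finset.disjoint_left]
      intro Z hZ hZ'
      simp only [Finset.mem_Ioc] at hZ hZ'
      omega
  have hfirst : ∑ Z ∈ Finset.Ioc Y V', b Z / Z = ∑ Z ∈ Finset.Ioc Y V, b Z / Z := by
    rcases le_total Y V with h | h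
    · rw [hV', max_eq_right h]
    · rw [hV', max_eq_left h, Finset.Ioc_self, Finset.Ioc_eq_empty (by omega)]
  have htail : ∑ Z ∈ Finset.Ioc V' X, b Z / Z ≤ 2 + Real.log (2 * p) := by
    have h1 : ∑ Z ∈ Finset.Ioc V' X, b Z / Z ≤ ∑ Z ∈ Finset.Ioc V' X, (1 : ℝ) / Z := by
      apply Finset.sum_le_sum
      intro Z hZ
      rw [Finset.mem_Ioc] at hZ
      have hZr : (0 : ℝ) < Z := by exact_mod_cast (by omega : 0 < Z)
      gcongr
      exact hb1 Z
    have hV'1 : 1 ≤ V' := hY.trans hV'Y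
    have h2 := win_harm V' X hV'1 hV'X
    have hV'r : (0 : ℝ) < V' := by exact_mod_cast hV'1
    have h3 : (X : ℝ) / V' ≤ 3 * p := by
      rw [div_le_iff₀ hV'r]
      have h4 : X < p * (X / p) + p := by
        have := Nat.div_add_mod X p
        have := Nat.mod_lt X hp
        omega
      have h5 : X / p ≤ V' + 1 := by
        have : V ≤ V' := le_max_right _ _
        omega
      have h6 : X ≤ 3 * p * V' := by
        have h7 : p * (X / p) ≤ p * (V' + 1) := Nat.mul_le_mul_left _ h5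
        have h8 : p ≤ p * V' := Nat.le_mul_of_pos_right p hV'1
        nlinarith
      exact_mod_cast h6
    have hXr : (0 : ℝ) < X := by
      have : 1 ≤ X := hY.trans hYX
      exact_mod_cast this
    have h9 : Real.log ((X : ℝ) / V') ≤ Real.log (2 * p) + 2 := by
      calc Real.log ((X : ℝ) / V') ≤ Real.log (3 * p) := Real.log_le_log (by positivity) h3
        _ = Real.log ((3 / 2) * (2 * p)) := by ring_nf
        _ = Real.log (3 / 2) + Real.log (2 * p) := Real.log_mul (by norm_num) (by positivity)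
        _ ≤ Real.log (2 * p) + 2 := by
          have : Real.log (3 / 2) ≤ 3 / 2 - 1 := Real.log_le_sub_one_of_pos (by norm_num)
          linarith
    linarith
  rw [hsplit, hfirst]
  linarith

theorem window (P : Finset ℕ) (hP : ∀ p ∈ P, 0 < p) (ω : ℕ → ℝ) (hω : ∀ p, 0 ≤ ω p)
    (hω1 : ∑ p ∈ P, ω p = 1) : ∃ C : ℝ, 0 ≤ C ∧ ∀ (b : ℕ → ℝ), (∀ n, 0 ≤ b n) → (∀ n, b n ≤ 1) →
    ∀ (δ : ℝ), 0 ≤ δ → ∀ X₀ : ℕ, (∀ X, X₀ ≤ X → ∑ p ∈ P, ω p * b (X / p) ≤ δ) →
    ∀ Y X : ℕ, 1 ≤ Y → X₀ ≤ Y → Y ≤ X →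
    ∑ Z ∈ Finset.Ioc Y X, b Z / Z ≤ δ * Real.log (X / Y) + C := by
  refine ⟨∑ p ∈ P, ω p * (4 + Real.log (2 * p)), ?_, ?_⟩
  · apply Finset.sum_nonneg
    intro p hp
    have h1 : (1 : ℝ) ≤ p := by exact_mod_cast hP p hp
    have h2 : 0 ≤ Real.log (2 * p) := Real.log_nonneg (by linarith)
    have := hω p
    positivity
  · intro b hb0 hb1 δ hδ X₀ hX₀ Y X hY1 hY0 hYX
    have h1 : ∑ Z ∈ Finset.Ioc Y X, b Z / Z
        ≤ ∑ p ∈ P, ω p * (∑ X' ∈ Finset.Ioc Y X, b (X' / p) / X' + (4 + Real.log (2 * p))) := by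
      calc ∑ Z ∈ Finset.Ioc Y X, b Z / Z = ∑ p ∈ P, ω p * ∑ Z ∈ Finset.Ioc Y X, b Z / Z := by
            rw [← Finset.sum_mul, hω1, one_mul]
        _ ≤ _ := by
            apply Finset.sum_le_sum
            intro p hp
            exact mul_le_mul_of_nonneg_left (win_one p (hP p hp) b hb0 hb1 Y X hY1 hYX) (hω p)
    have h2 : ∑ p ∈ P, ω p * (∑ X' ∈ Finset.Ioc Y X, b (X' / p) / X' + (4 + Real.log (2 * p)))
        = ∑ X' ∈ Finset.Ioc Y X, (∑ p ∈ P, ω p * b (X' / p)) / X'
          + ∑ p ∈ P, ω p * (4 + Real.log (2 * p)) := by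
      simp only [mul_add, Finset.sum_add_distrib, Finset.mul_sum, Finset.sum_div]
      rw [Finset.sum_comm]
      simp only [mul_div_assoc]
    have h3 : ∑ X' ∈ Finset.Ioc Y X, (∑ p ∈ P, ω p * b (X' / p)) / (X' : ℝ)
        ≤ δ * Real.log (X / Y) := by
      calc ∑ X' ∈ Finset.Ioc Y X, (∑ p ∈ P, ω p * b (X' / p)) / (X' : ℝ)
          ≤ ∑ X' ∈ Finset.Ioc Y X, δ * (1 / (X' : ℝ)) := by
            apply Finset.sum_le_sum
            intro X' hX'
            rw [Finset.mem_Ioc] at hX'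
            have h4 := hX₀ X' (by omega)
            rw [mul_one_div]
            gcongr
        _ = δ * ∑ X' ∈ Finset.Ioc Y X, (1 / (X' : ℝ)) := by rw [Finset.mul_sum]
        _ ≤ δ * Real.log (X / Y) := mul_le_mul_of_nonneg_left (win_harm Y X hY1 hYX) hδ
    linarith

end Pool.Agent.H68.OF
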