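import Pool.Agent.H68.OF.PropA
import Pool.Agent.H68.OF.Win
import Pool.Agent.H68.OF.LogA

/-!
Module MAIN: the three conclusions for every self-uncorrelated `g`.
-/

set_option autoImplicit false

open Filter Topology

namespace Pool.Agent.H68.OF

section
variable {k : ℕ}

lemma main_pairwise (m₁ M' : ℕ) :
    (↑(Finset.Ico m₁ M') : Set ℕ).PairwiseDisjoint PP := by
  intro a _ b _ hab
  rw [Function.onFun, Finset.disjoint_left]
  intro p hpa hpb
  simp only [PP, Finset.mem_filter, Finset.mem_Ioc] at hpa hpb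
  rcases lt_or_gt_of_ne hab with h | h
  · have : 2 ^ (a + 1) ≤ 2 ^ b := Nat.pow_le_pow_right (by norm_num) h
    omega
  · have : 2 ^ (b + 1) ≤ 2 ^ a := Nat.pow_le_pow_right (by norm_num) h
    omega

lemma main_mem_PP {m p : ℕ} (h : p ∈ PP m) : 0 < p ∧ p ≤ 2 ^ (m + 1) := by
  simp only [PP, Finset.mem_filter, Finset.mem_Ioc] at h
  exact ⟨h.2.pos, h.1.2⟩

/-- weights -/
noncomputable def mw (m₁ M' : ℕ) (p : ℕ) : ℝ :=
  (∑ m ∈ Finset.Ico m₁ M', if p ∈ PP m then (1 / (m : ℝ)) * (1 / ((PP m).card : ℝ)) else 0)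
    / ∑ m ∈ Finset.Ico m₁ M', (1 / (m : ℝ))

lemma mw_nonneg (m₁ M' p : ℕ) : 0 ≤ mw m₁ M' p := by
  unfold mw
  apply div_nonneg
  · apply Finset.sum_nonneg
    intro m _
    split_ifs
    · positivity
    · exact le_refl _
  · apply Finset.sum_nonneg
    intro m _
    positivity

lemma mw_sum (m₁ M' : ℕ) (b : ℕ → ℝ) :
    ∑ p ∈ (Finset.Ico m₁ M').biUnion PP, mw m₁ M' p * b p
      = (∑ m ∈ Finset.Ico m₁ M', (1 / (m : ℝ)) * ((1 / ((PP m).card : ℝ)) * ∑ p ∈ PP m, b p))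
        / ∑ m ∈ Finset.Ico m₁ M', (1 / (m : ℝ)) := by
  have h1 : ∀ p, mw m₁ M' p * b p = (∑ m ∈ Finset.Ico m₁ M',
      if p ∈ PP m then (1 / (m : ℝ)) * (1 / ((PP m).card : ℝ)) * b p else 0)
        / ∑ m ∈ Finset.Ico m₁ M', (1 / (m : ℝ)) := by
    intro p
    unfold mw
    rw [div_mul_eq_mul_div, Finset.sum_mul]
    congr 1
    apply Finset.sum_congr rfl
    intro m _
    split_ifs <;> simp
  rw [Finset.sum_congr rfl (fun p _ => h1 p), ← Finset.sum_div, Finset.sum_comm]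
  congr 1
  apply Finset.sum_congr rfl
  intro m hm
  rw [← Finset.sum_filter]
  have : ((Finset.Ico m₁ M').biUnion PP).filter (fun p => p ∈ PP m) = PP m := by
    ext p
    simp only [Finset.mem_filter, Finset.mem_biUnion]
    constructor
    · exact fun h => h.2
    · exact fun h => ⟨⟨m, hm, h⟩, h⟩
  rw [this, Finset.mul_sum, Finset.mul_sum]
  apply Finset.sum_congr rfl
  intro p _
  ring

lemma main_norm_corN_le (G : Fin k → ArithmeticFunction ℂ) (hG : ∀ i n, ‖G i n‖ ≤ 1)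
    (h : Fin k → ℕ) (Z : ℕ) : ‖corN G h Z‖ ≤ 1 := by
  unfold corN
  rcases Nat.eq_zero_or_pos Z with rfl | hZ
  · simp
  rw [norm_mul, norm_div, norm_one, Complex.norm_natCast]
  have h1 : ‖∑ n ∈ Finset.Icc 1 Z, ∏ i, G i (n + h i)‖ ≤ Z := by
    refine (norm_sum_le _ _).trans ?_
    calc ∑ n ∈ Finset.Icc 1 Z, ‖∏ i, G i (n + h i)‖ ≤ ∑ n ∈ Finset.Icc 1 Z, (1 : ℝ) := by
          apply Finset.sum_le_sum
          intro n _
          rw [norm_prod]
          exact Finset.prod_le_one (fun _ _ => norm_nonneg _) (fun i _ => hG i _)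
      _ = Z := by simp
  have hZ' : (0 : ℝ) < Z := by exact_mod_cast hZ
  calc 1 / (Z : ℝ) * ‖∑ n ∈ Finset.Icc 1 Z, ∏ i, G i (n + h i)‖ ≤ 1 / (Z : ℝ) * Z := by gcongr
    _ = 1 := by field_simp

lemma main_sum_sq (Y X : ℕ) (hY : 1 ≤ Y) :
    ∑ Z ∈ Finset.Ioc Y X, (1 : ℝ) / ((Z : ℝ) * Z) ≤ 1 := by
  have key : ∀ X : ℕ, Y ≤ X → ∑ Z ∈ Finset.Ioc Y X, (1 : ℝ) / ((Z : ℝ) * Z) ≤ 1 / Y - 1 / X := by
    intro X hX
    induction X, hX using Nat.le_induction with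
    | base => simp
    | succ n hn ih =>
      rw [Finset.sum_Ioc_succ_top hn]
      have hn0 : (0 : ℝ) < n := by exact_mod_cast (lt_of_lt_of_le (Nat.pos_of_ne_zero (by omega)) hn)
      have h1 : (1 : ℝ) / (((n + 1 : ℕ) : ℝ) * ((n + 1 : ℕ) : ℝ)) ≤ 1 / n - 1 / ((n + 1 : ℕ) : ℝ) := by
        push_cast
        rw [div_sub_div _ _ hn0.ne' (by positivity), div_le_div_iff₀ (by positivity) (by positivity)]
        nlinarith
      linarith
  rcases le_or_gt Y X with h | h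
  · have h1 := key X h
    have h2 : (1 : ℝ) / Y ≤ 1 := by
      rw [div_le_one (by exact_mod_cast hY)]
      exact_mod_cast hY
    have h3 : (0 : ℝ) ≤ 1 / X := by positivity
    linarith
  · rw [Finset.Ioc_eq_empty (by omega)]
    simp

/-- shifts -/
lemma main_shift (h : Fin (k + 1) → ℤ) : ∃ (t : ℤ) (h' : Fin (k + 1) → ℕ), ∀ i, h i = h' i + t := by
  refine ⟨-∑ i, |h i|, fun i => (h i + ∑ i, |h i|).toNat, fun i => ?_⟩
  have h1 : |h i| ≤ ∑ i, |h i| := Finset.single_le_sum (f := fun i => |h i|)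
    (fun _ _ => abs_nonneg _) (Finset.mem_univ i)
  have h2 := neg_abs_le (h i)
  rw [Int.toNat_of_nonneg (by linarith)]
  ring

theorem main_win (g : ArithmeticFunction ℂ) (hbd : ∀ n, ‖g n‖ ≤ 1) (hSU : SU g)
    (h : Fin (k + 1) → ℤ) (hne : ∀ j, j ≠ 0 → h j ≠ h 0) (δ : ℝ) (hδ : 0 < δ) :
    ∃ (C : ℝ) (X₀ : ℕ), 0 ≤ C ∧ 1 ≤ X₀ ∧ ∀ G : Fin (k + 1) → ArithmeticFunction ℂ, G 0 = g →
      (∀ i, (G i).IsMultiplicative) → (∀ i n, ‖G i n‖ ≤ 1) → ∀ Y X : ℕ, X₀ ≤ Y → Y ≤ X →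
      ∑ Z ∈ Finset.Ioc Y X, ‖cor G h Z‖ / Z ≤ δ * Real.log (X / Y) + C := by
  obtain ⟨t, h', ht⟩ := main_shift h
  have hne' : ∀ j, j ≠ 0 → h' j ≠ h' 0 := by
    intro j hj he
    apply hne j hj
    rw [ht, ht, he]
  obtain ⟨m₁, M', X₀, hm1, hmM, hA⟩ := propA k h' hne' g hbd hSU δ hδ
  set L : ℝ := ∑ m ∈ Finset.Ico m₁ M', (1 / (m : ℝ)) with hL
  have hLpos : 0 < L := by
    rw [hL]
    apply Finset.sum_pos
    · intro m hm
      rw [Finset.mem_Ico] at hm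
      have : (0 : ℝ) < m := by exact_mod_cast (by omega : 0 < m)
      positivity
    · exact ⟨m₁, by simp [hmM]⟩
  have hPpos : ∀ p ∈ (Finset.Ico m₁ M').biUnion PP, 0 < p := by
    intro p hp
    rw [Finset.mem_biUnion] at hp
    obtain ⟨m, _, hp⟩ := hp
    exact (main_mem_PP hp).1
  have hcard : ∀ m ∈ Finset.Ico m₁ M', ((PP m).card : ℝ) ≠ 0 := by
    intro m hm
    have := card_PP_pos m
    positivity
  have hω1 : ∑ p ∈ (Finset.Ico m₁ M').biUnion PP, mw m₁ M' p = 1 := by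
    have := mw_sum m₁ M' (fun _ => 1)
    simp only [mul_one, Finset.sum_const, nsmul_eq_mul] at this
    rw [this, ← hL]
    have h2 : ∑ m ∈ Finset.Ico m₁ M', (1 / (m : ℝ)) * (1 / ((PP m).card : ℝ) * ((PP m).card : ℝ)) = L := by
      rw [hL]
      apply Finset.sum_congr rfl
      intro m hm
      have := hcard m hm
      field_simp
    rw [h2]
    exact div_self hLpos.ne'
  obtain ⟨C, hC, hW⟩ := window ((Finset.Ico m₁ M').biUnion PP) hPpos (mw m₁ M')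
    (mw_nonneg m₁ M') hω1
  refine ⟨C + 2 * |(t : ℝ)|, max X₀ 1, by positivity, le_max_right _ _, ?_⟩
  intro G hG0 hGm hGb Y X hY hYX
  have hY1 : 1 ≤ Y := (le_max_right _ _).trans hY
  have hY0 : X₀ ≤ Y := (le_max_left _ _).trans hY
  have hb := hW (fun Z => ‖corN G h' Z‖) (fun _ => norm_nonneg _)
    (fun Z => main_norm_corN_le G hGb h' Z) δ hδ.le X₀ (by
      intro X hX
      have h1 := hA X hX G hG0 hGm hGb
      rw [mw_sum m₁ M' (fun p => ‖corN G h' (X / p)‖), ← hL, div_le_iff₀ hLpos]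
      exact h1) Y X hY1 hY0 hYX
  calc ∑ Z ∈ Finset.Ioc Y X, ‖cor G h Z‖ / Z
      ≤ ∑ Z ∈ Finset.Ioc Y X, (‖corN G h' Z‖ / Z + 2 * |(t : ℝ)| * (1 / ((Z : ℝ) * Z))) := by
        apply Finset.sum_le_sum
        intro Z hZ
        rw [Finset.mem_Ioc] at hZ
        have hZ0 : 0 < Z := by omega
        have hZr : (0 : ℝ) < Z := by exact_mod_cast hZ0
        have h1 := cor_shift G hGb h h' t ht Z hZ0
        have h2 : ‖cor G h Z‖ ≤ ‖corN G h' Z‖ + 2 * |(t : ℝ)| / Z := by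
          have := norm_sub_norm_le (cor G h Z) (corN G h' Z)
          linarith
        calc ‖cor G h Z‖ / Z ≤ (‖corN G h' Z‖ + 2 * |(t : ℝ)| / Z) / Z := by gcongr
          _ = _ := by field_simp
    _ = ∑ Z ∈ Finset.Ioc Y X, ‖corN G h' Z‖ / Z
          + 2 * |(t : ℝ)| * ∑ Z ∈ Finset.Ioc Y X, (1 / ((Z : ℝ) * Z)) := by
        rw [Finset.sum_add_distrib, Finset.mul_sum]
    _ ≤ (δ * Real.log (X / Y) + C) + 2 * |(t : ℝ)| * 1 := by
        gcongr
        exact main_sum_sq Y X hY1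
    _ = _ := by ring

end

theorem main (g : ArithmeticFunction ℂ) (hbd : ∀ n, ‖g n‖ ≤ 1) (hSU : SU g)
    (k : ℕ) (h : Fin (k + 1) → ℤ) (hne : ∀ j, j ≠ 0 → h j ≠ h 0) :
    (∀ ε : ℝ, 0 < ε → ∃ K₀ : ℝ, ∀ K : ℝ, K₀ ≤ K → ∃ X₀ : ℕ, ∀ X : ℕ, X₀ ≤ X →
      ∀ G : Fin (k + 1) → ArithmeticFunction ℂ, G 0 = g → (∀ i, (G i).IsMultiplicative) →
      (∀ i n, ‖G i n‖ ≤ 1) →
      ∑ Z ∈ (Finset.Icc 1 X).filter (fun Z : ℕ => (X : ℝ) / K < Z), ‖cor G h Z‖ / Z
        ≤ ε * Real.log K) ∧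
    (∀ ε : ℝ, 0 < ε → ∃ X₀ : ℕ, ∀ X : ℕ, X₀ ≤ X →
      ∀ G : Fin (k + 1) → ArithmeticFunction ℂ, G 0 = g → (∀ i, (G i).IsMultiplicative) →
      (∀ i n, ‖G i n‖ ≤ 1) →
      ‖∑ n ∈ Finset.Icc 1 X, (∏ i, G i ((n : ℤ) + h i).toNat) / (n : ℂ)‖ ≤ ε * Real.log X) ∧
    (∃ δ : ℝ, 0 < δ ∧ ∃ X₀ : ℕ, ∀ X : ℕ, X₀ ≤ X →
      ∀ G : Fin (k + 1) → ArithmeticFunction ℂ, G 0 = g → (∀ i, (G i).IsMultiplicative) →
      (∀ i n, ‖G i n‖ ≤ 1) → ‖cor G h X‖ ≤ 1 - δ) := by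
  refine ⟨?_, ?_, ?_⟩
  · intro ε hε
    obtain ⟨C, X₀, hC, hX₀, hW⟩ := main_win g hbd hSU h hne (ε / 2) (by positivity)
    refine ⟨max 1 (Real.exp (2 * (C + ε) / ε)), fun K hK => ?_⟩
    have hK1 : 1 ≤ K := (le_max_left _ _).trans hK
    have hK0 : 0 < K := by linarith
    have hKe : Real.exp (2 * (C + ε) / ε) ≤ K := (le_max_right _ _).trans hK
    have hlogK : 2 * (C + ε) / ε ≤ Real.log K := by
      rw [Real.le_log_iff_exp_le hK0]; exact hKe
    refine ⟨⌈2 * K * X₀⌉₊ + ⌈2 * K⌉₊, fun X hX G hG0 hGm hGb => ?_⟩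
    have hX1 : 2 * K * X₀ ≤ X := by
      have h1 := Nat.le_ceil (2 * K * (X₀ : ℝ))
      have h2 : ((⌈2 * K * (X₀ : ℝ)⌉₊ + ⌈2 * K⌉₊ : ℕ) : ℝ) ≤ X := by exact_mod_cast hX
      push_cast at h2
      have h3 : (0 : ℝ) ≤ (⌈2 * K⌉₊ : ℝ) := by positivity
      linarith
    have hX2 : 2 * K ≤ X := by
      have h1 := Nat.le_ceil (2 * K)
      have h2 : ((⌈2 * K * (X₀ : ℝ)⌉₊ + ⌈2 * K⌉₊ : ℕ) : ℝ) ≤ X := by exact_mod_cast hX
      push_cast at h2
      have h3 : (0 : ℝ) ≤ (⌈2 * K * (X₀ : ℝ)⌉₊ : ℝ) := by positivity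
      linarith
    set Y : ℕ := ⌊(X : ℝ) / K⌋₊ with hY
    have hXK : 0 ≤ (X : ℝ) / K := by positivity
    have hY1 : (Y : ℝ) ≤ X / K := Nat.floor_le hXK
    have hY2 : (X : ℝ) / K < Y + 1 := Nat.lt_floor_add_one _
    have hXK2 : 2 * (X₀ : ℝ) ≤ X / K := by rw [le_div_iff₀ hK0]; linarith
    have hX0r : (1 : ℝ) ≤ X₀ := by exact_mod_cast hX₀
    have hYX0 : X₀ ≤ Y := by
      have : (X₀ : ℝ) < Y + 1 := by linarith
      have : X₀ < Y + 1 := by exact_mod_cast this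
      omega
    have hYhalf : (X : ℝ) / K ≤ 2 * Y := by
      have : (1 : ℝ) ≤ Y := by exact_mod_cast hX₀.trans hYX0
      linarith
    have hYle : Y ≤ X := by
      have : (Y : ℝ) ≤ X := hY1.trans (div_le_self (by positivity) hK1)
      exact_mod_cast this
    have hYpos : (0 : ℝ) < Y := by
      have : (1 : ℝ) ≤ Y := by exact_mod_cast hX₀.trans hYX0
      linarith
    have hb := hW G hG0 hGm hGb Y X hYX0 hYle
    have hsub : (Finset.Icc 1 X).filter (fun Z : ℕ => (X : ℝ) / K < Z) ⊆ Finset.Ioc Y X := by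
      intro Z hZ
      simp only [Finset.mem_filter, Finset.mem_Icc] at hZ
      rw [Finset.mem_Ioc]
      refine ⟨?_, hZ.1.2⟩
      have : (Y : ℝ) < Z := lt_of_le_of_lt hY1 hZ.2
      exact_mod_cast this
    have hXpos : (0 : ℝ) < X := by linarith
    have hlog : Real.log (X / Y) ≤ Real.log K + 1 := by
      have h1 : (X : ℝ) / Y ≤ 2 * K := by
        rw [div_le_iff₀ hYpos]
        rw [div_le_iff₀ hK0] at hYhalf
        linarith
      calc Real.log (X / Y) ≤ Real.log (2 * K) := Real.log_le_log (by positivity) h1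
        _ = Real.log 2 + Real.log K := Real.log_mul (by norm_num) hK0.ne'
        _ ≤ Real.log K + 1 := by
          have := Real.log_two_lt_d9
          linarith
    calc ∑ Z ∈ (Finset.Icc 1 X).filter (fun Z : ℕ => (X : ℝ) / K < Z), ‖cor G h Z‖ / Z
        ≤ ∑ Z ∈ Finset.Ioc Y X, ‖cor G h Z‖ / Z :=
          Finset.sum_le_sum_of_subset_of_nonneg hsub (fun _ _ _ => by positivity)
      _ ≤ ε / 2 * Real.log (X / Y) + C := hb
      _ ≤ ε / 2 * (Real.log K + 1) + C := by gcongr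
      _ ≤ ε * Real.log K := by
          have h3 : 2 * (C + ε) ≤ Real.log K * ε := by
            rwa [div_le_iff₀ hε] at hlogK
          nlinarith
  · intro ε hε
    obtain ⟨C, X₀, hC, hX₀, hW⟩ := main_win g hbd hSU h hne (ε / 2) (by positivity)
    refine ⟨max X₀ ⌈Real.exp (2 * (C + X₀ + 1) / ε)⌉₊, fun X hX G hG0 hGm hGb => ?_⟩
    have hXX0 : X₀ ≤ X := (le_max_left _ _).trans hX
    have hXe : Real.exp (2 * (C + X₀ + 1) / ε) ≤ X := by
      have h1 : ⌈Real.exp (2 * (C + X₀ + 1) / ε)⌉₊ ≤ X := (le_max_right _ _).trans hX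
      exact (Nat.le_ceil _).trans (by exact_mod_cast h1)
    have hX0r : (1 : ℝ) ≤ X₀ := by exact_mod_cast hX₀
    have hXr : (X₀ : ℝ) ≤ X := by exact_mod_cast hXX0
    have hXpos : (0 : ℝ) < X := by linarith
    have hlogX : 2 * (C + X₀ + 1) / ε ≤ Real.log X := by
      rw [Real.le_log_iff_exp_le hXpos]; exact hXe
    have hF : ∀ n : ℕ, ‖∏ i, G i ((n : ℤ) + h i).toNat‖ ≤ 1 := by
      intro n
      rw [norm_prod]
      exact Finset.prod_le_one (fun _ _ => norm_nonneg _) (fun i _ => hGb i _)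
    have h1 := log_le (fun n => ∏ i, G i ((n : ℤ) + h i).toNat) hF X
    have h2 := hW G hG0 hGm hGb X₀ X le_rfl hXX0
    have hcor : ∀ Z : ℕ, ‖cor G h Z‖ ≤ 1 := by
      intro Z
      unfold cor
      rcases Nat.eq_zero_or_pos Z with rfl | hZ
      · simp
      rw [norm_mul, norm_div, norm_one, Complex.norm_natCast]
      have h1 : ‖∑ n ∈ Finset.Icc 1 Z, ∏ i, G i ((n : ℤ) + h i).toNat‖ ≤ Z := by
        refine (norm_sum_le _ _).trans ?_
        calc ∑ n ∈ Finset.Icc 1 Z, ‖∏ i, G i ((n : ℤ) + h i).toNat‖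
            ≤ ∑ n ∈ Finset.Icc 1 Z, (1 : ℝ) := Finset.sum_le_sum (fun n _ => hF n)
          _ = Z := by simp
      have hZ' : (0 : ℝ) < Z := by exact_mod_cast hZ
      calc 1 / (Z : ℝ) * ‖∑ n ∈ Finset.Icc 1 Z, ∏ i, G i ((n : ℤ) + h i).toNat‖
          ≤ 1 / (Z : ℝ) * Z := by gcongr
        _ = 1 := by field_simp
    have hsplit : ∑ Z ∈ Finset.Icc 1 X, ‖cor G h Z‖ / Z
        = ∑ Z ∈ Finset.Icc 1 X₀, ‖cor G h Z‖ / Z + ∑ Z ∈ Finset.Ioc X₀ X, ‖cor G h Z‖ / Z := by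
      rw [← Finset.sum_union]
      · congr 1
        ext Z
        simp only [Finset.mem_Icc, Finset.mem_union, Finset.mem_Ioc]
        omega
      · rw [Finset.disjoint_left]
        intro Z hZ hZ'
        simp only [Finset.mem_Icc, Finset.mem_Ioc] at hZ hZ'
        omega
    have h3 : ∑ Z ∈ Finset.Icc 1 X₀, ‖cor G h Z‖ / Z ≤ X₀ := by
      calc ∑ Z ∈ Finset.Icc 1 X₀, ‖cor G h Z‖ / Z ≤ ∑ Z ∈ Finset.Icc 1 X₀, (1 : ℝ) := by
            apply Finset.sum_le_sum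
            intro Z hZ
            rw [Finset.mem_Icc] at hZ
            have hZr : (1 : ℝ) ≤ Z := by exact_mod_cast hZ.1
            rw [div_le_one (by linarith)]
            exact (hcor Z).trans hZr
        _ = X₀ := by simp
    have hlog : Real.log ((X : ℝ) / X₀) ≤ Real.log X := by
      apply Real.log_le_log (by positivity)
      exact div_le_self (by positivity) hX0r
    have h1' : ‖∑ n ∈ Finset.Icc 1 X, (∏ i, G i ((n : ℤ) + h i).toNat) / (n : ℂ)‖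
        ≤ ∑ Z ∈ Finset.Icc 1 X, ‖cor G h Z‖ / Z + 1 := h1
    calc ‖∑ n ∈ Finset.Icc 1 X, (∏ i, G i ((n : ℤ) + h i).toNat) / (n : ℂ)‖
        ≤ ∑ Z ∈ Finset.Icc 1 X, ‖cor G h Z‖ / Z + 1 := h1'
      _ ≤ X₀ + (ε / 2 * Real.log (X / X₀) + C) + 1 := by
          rw [hsplit]; linarith
      _ ≤ X₀ + (ε / 2 * Real.log X + C) + 1 := by gcongr
      _ ≤ ε * Real.log X := by
          have h4 : 2 * (C + X₀ + 1) ≤ Real.log X * ε := by
            rwa [div_le_iff₀ hε] at hlogX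
          nlinarith
  · obtain ⟨t, h', ht⟩ := main_shift h
    have hne' : ∀ j, j ≠ 0 → h' j ≠ h' 0 := by
      intro j hj he
      apply hne j hj
      rw [ht, ht, he]
    obtain ⟨m₁, M', X₀, hm1, hmM, hA⟩ := propA k h' hne' g hbd hSU (1 / 2) (by norm_num)
    set L : ℝ := ∑ m ∈ Finset.Ico m₁ M', (1 / (m : ℝ)) with hL
    have hLpos : 0 < L := by
      rw [hL]
      apply Finset.sum_pos
      · intro m hm
        rw [Finset.mem_Ico] at hm
        have : (0 : ℝ) < m := by exact_mod_cast (by omega : 0 < m)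
        positivity
      · exact ⟨m₁, by simp [hmM]⟩
    have hB : (0 : ℝ) < 2 ^ M' := by positivity
    refine ⟨1 / (16 * 2 ^ M'), by positivity,
      max X₀ (max (2 ^ (M' + 1)) ⌈2 * |(t : ℝ)| * (16 * 2 ^ M')⌉₊), fun X hX G hG0 hGm hGb => ?_⟩
    have hXX0 : X₀ ≤ X := (le_max_left _ _).trans hX
    have hX2 : 2 ^ (M' + 1) ≤ X := (le_max_left _ _).trans ((le_max_right _ _).trans hX)
    have hX3 : 2 * |(t : ℝ)| * (16 * 2 ^ M') ≤ X := by
      have h1 : ⌈2 * |(t : ℝ)| * (16 * 2 ^ M')⌉₊ ≤ X :=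
        (le_max_right _ _).trans ((le_max_right _ _).trans hX)
      exact (Nat.le_ceil _).trans (by exact_mod_cast h1)
    have hXpos : 0 < X := lt_of_lt_of_le (by positivity) hX2
    have hXr : (0 : ℝ) < X := by exact_mod_cast hXpos
    by_contra hcon
    push Not at hcon
    have h1 := cor_shift G hGb h h' t ht X hXpos
    have h2 : ‖cor G h X‖ - 2 * |(t : ℝ)| / X ≤ ‖corN G h' X‖ := by
      have := norm_sub_norm_le (cor G h X) (corN G h' X)
      linarith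
    have h3 : 2 * |(t : ℝ)| / X ≤ 1 / (16 * 2 ^ M') := by
      rw [div_le_div_iff₀ hXr (by positivity)]
      linarith
    have h4 : 1 - 1 / (8 * 2 ^ M') ≤ ‖corN G h' X‖ := by
      have : (1 : ℝ) / (8 * 2 ^ M') = 1 / (16 * 2 ^ M') + 1 / (16 * 2 ^ M') := by
        field_simp; norm_num
      linarith
    have hF : ∀ n : ℕ, ‖∏ i, G i (n + h' i)‖ ≤ 1 := by
      intro n
      rw [norm_prod]
      exact Finset.prod_le_one (fun _ _ => norm_nonneg _) (fun i _ => hGb i _)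
    have hbig : ∀ m ∈ Finset.Ico m₁ M', ∀ p ∈ PP m, (3 : ℝ) / 4 ≤ ‖corN G h' (X / p)‖ := by
      intro m hm p hp
      rw [Finset.mem_Ico] at hm
      obtain ⟨hp0, hp1⟩ := main_mem_PP hp
      have hpM : p ≤ 2 ^ M' := hp1.trans (Nat.pow_le_pow_right (by norm_num) hm.2)
      have h2p : 2 * p ≤ X := by
        calc 2 * p ≤ 2 * 2 ^ M' := by omega
          _ = 2 ^ (M' + 1) := by ring
          _ ≤ X := hX2
      have hZpos : 0 < X / p := Nat.div_pos (by omega) hp0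
      have hZle : X / p ≤ X := Nat.div_le_self _ _
      have h5 := gap (fun n => ∏ i, G i (n + h' i)) hF X (X / p) hZpos hZle (1 / (8 * 2 ^ M')) h4
      have h6 : 1 - 1 / (8 * 2 ^ M') * X / ((X / p : ℕ) : ℝ) ≤ ‖corN G h' (X / p)‖ := h5
      have h7 : (X : ℝ) ≤ 2 * p * ((X / p : ℕ) : ℝ) := by
        have : X ≤ 2 * p * (X / p) := by
          have h8 := Nat.div_add_mod X p
          have h9 := Nat.mod_lt X hp0
          have h10 : p ≤ p * (X / p) := Nat.le_mul_of_pos_right p hZpos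
          nlinarith
        exact_mod_cast this
      have hZr : (0 : ℝ) < ((X / p : ℕ) : ℝ) := by exact_mod_cast hZpos
      have hpr : (p : ℝ) ≤ 2 ^ M' := by exact_mod_cast hpM
      have h8 : 1 / (8 * 2 ^ M') * X / ((X / p : ℕ) : ℝ) ≤ 1 / 4 := by
        rw [div_le_iff₀ hZr, one_div, inv_mul_le_iff₀ (by positivity)]
        calc (X : ℝ) ≤ 2 * p * ((X / p : ℕ) : ℝ) := h7
          _ ≤ 2 * 2 ^ M' * ((X / p : ℕ) : ℝ) := by gcongr
          _ = _ := by ring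
      linarith
    have hA' := hA X hXX0 G hG0 hGm hGb
    have hlow : 3 / 4 * L ≤ ∑ m ∈ Finset.Ico m₁ M', (1 / (m : ℝ)) * ((1 / ((PP m).card : ℝ)) *
        ∑ p ∈ PP m, ‖corN G h' (X / p)‖) := by
      rw [hL, Finset.mul_sum]
      apply Finset.sum_le_sum
      intro m hm
      have hc : (0 : ℝ) < (PP m).card := by exact_mod_cast card_PP_pos m
      have h9 : (PP m).card * (3 / 4 : ℝ) ≤ ∑ p ∈ PP m, ‖corN G h' (X / p)‖ := by
        have := Finset.card_nsmul_le_sum (PP m) (fun p => ‖corN G h' (X / p)‖) (3 / 4)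
          (fun p hp => hbig m hm p hp)
        simpa [nsmul_eq_mul] using this
      have h10 : (3 / 4 : ℝ) ≤ (1 / ((PP m).card : ℝ)) * ∑ p ∈ PP m, ‖corN G h' (X / p)‖ := by
        rw [one_div, inv_mul_eq_div, le_div_iff₀ hc]
        linarith
      calc 3 / 4 * (1 / (m : ℝ)) = 1 / (m : ℝ) * (3 / 4) := by ring
        _ ≤ _ := by gcongr
    linarith

end Pool.Agent.H68.OF
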