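import Mathlib

/-!
Module CRT: averages of products of functions with coprime periods factor. Induction on the finset;
use `Nat.chineseRemainder` or `ZMod.chineseRemainder` for the step `Q = P * p`.
-/

set_option autoImplicit false

namespace Pool.Agent.H68.OF

theorem crt_per (P : ℕ) (F : ℤ → ℝ) (hF : ∀ n, F (n + P) = F n) (n : ℤ) (k : ℕ) :
    F (n + (k : ℤ) * P) = F n := by
  induction k with
  | zero => simp
  | succ k ih =>
    rw [← ih, ← hF (n + (k : ℤ) * P)]
    congr 1
    push_cast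
    ring

theorem crt_mod (P : ℕ) (F : ℤ → ℝ) (hF : ∀ n, F (n + P) = F n) (n : ℕ) :
    F ((n % P : ℕ) : ℤ) = F n := by
  rw [← crt_per P F hF ((n % P : ℕ) : ℤ) (n / P)]
  congr 1
  have h := Nat.mod_add_div n P
  have h' : ((n % P : ℕ) : ℤ) + (P : ℤ) * ((n / P : ℕ) : ℤ) = n := by exact_mod_cast h
  rw [← h']
  ring

theorem crt_two (P Q : ℕ) (hP : 0 < P) (hQ : 0 < Q) (h : Nat.Coprime P Q) (F G : ℤ → ℝ)
    (hF : ∀ n, F (n + P) = F n) (hG : ∀ n, G (n + Q) = G n) :
    ∑ n ∈ Finset.range (P * Q), F n * G n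
      = (∑ n ∈ Finset.range P, F n) * ∑ n ∈ Finset.range Q, G n := by
  rw [Finset.sum_mul_sum, ← Finset.sum_product']
  have hinj : Set.InjOn (fun n : ℕ => (n % P, n % Q)) (Finset.range (P * Q) : Set ℕ) := by
    intro a ha b hb hab
    simp only [Finset.coe_range, Set.mem_Iio] at ha hb
    simp only [Prod.mk.injEq] at hab
    have h1 : a ≡ b [MOD P * Q] := (Nat.modEq_and_modEq_iff_modEq_mul h).1 ⟨hab.1, hab.2⟩
    exact Nat.ModEq.eq_of_lt_of_lt h1 ha hb
  have himg : (Finset.range (P * Q)).image (fun n : ℕ => (n % P, n % Q))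
      = Finset.range P ×ˢ Finset.range Q := by
    apply Finset.eq_of_subset_of_card_le
    · intro x hx
      obtain ⟨n, -, rfl⟩ := Finset.mem_image.1 hx
      rw [Finset.mem_product, Finset.mem_range, Finset.mem_range]
      exact ⟨Nat.mod_lt _ hP, Nat.mod_lt _ hQ⟩
    · rw [Finset.card_image_of_injOn hinj, Finset.card_product, Finset.card_range,
        Finset.card_range, Finset.card_range]
  rw [← himg, Finset.sum_image hinj]
  refine Finset.sum_congr rfl (fun n _ => ?_)
  rw [crt_mod P F hF, crt_mod Q G hG]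

theorem crt_prod (s : Finset ℕ) (hs : ∀ p ∈ s, p.Prime) (F : ℕ → ℤ → ℝ)
    (hF : ∀ p ∈ s, ∀ n, F p (n + p) = F p n) :
    ∑ n ∈ Finset.range (∏ p ∈ s, p), ∏ p ∈ s, F p n
      = ∏ p ∈ s, ∑ n ∈ Finset.range p, F p n := by
  classical
  induction s using Finset.induction_on with
  | empty => simp
  | insert a s ha ih =>
    have hs' : ∀ p ∈ s, p.Prime := fun p hp => hs p (Finset.mem_insert_of_mem hp)
    have hF' : ∀ p ∈ s, ∀ n, F p (n + p) = F p n :=
      fun p hp => hF p (Finset.mem_insert_of_mem hp)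
    have hap := hs a (Finset.mem_insert_self _ _)
    rw [Finset.prod_insert ha, Finset.prod_insert ha, ← ih hs' hF']
    have hcop : Nat.Coprime a (∏ p ∈ s, p) := by
      apply Nat.Coprime.prod_right
      intro p hp
      rw [Nat.coprime_primes hap (hs' p hp)]
      rintro rfl
      exact ha hp
    have hpos : 0 < ∏ p ∈ s, p := Finset.prod_pos (fun p hp => (hs' p hp).pos)
    rw [← crt_two a (∏ p ∈ s, p) hap.pos hpos hcop (F a) (fun n => ∏ p ∈ s, F p n)
      (hF a (Finset.mem_insert_self _ _)) ?_]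
    · refine Finset.sum_congr rfl (fun n _ => ?_)
      rw [Finset.prod_insert ha]
    · intro n
      refine Finset.prod_congr rfl (fun p hp => ?_)
      obtain ⟨k, hk⟩ := Finset.dvd_prod_of_mem (fun p => p) hp
      rw [hk, Nat.cast_mul, mul_comm ((p : ℕ) : ℤ)]
      exact crt_per p (F p) (hF' p hp) n k

end Pool.Agent.H68.OF
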