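import Pool.Agent.H68.OF.Pr

/-!
Module PER: means of periodic functions of the position; laws of residues.

`E_per`: by invariance, `E f(n) = E f(n+i)` for all `i`; average over `0 ≤ i < Q`; the average
`(1/Q) ∑_{i<Q} f(n+i)` is constant by periodicity.
-/

set_option autoImplicit false

open Filter Topology

namespace Pool.Agent.H68.OF

variable (M : Mn)

lemma per_sum (Q : ℕ) (f : ℤ → ℝ) (hf : ∀ n, f (n + Q) = f n) (n : ℤ) :
    ∑ i ∈ Finset.range Q, f (n + i) = ∑ i ∈ Finset.range Q, f i := by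
  have h1 : ∀ n : ℤ, ∑ i ∈ Finset.range Q, f (n + 1 + i) = ∑ i ∈ Finset.range Q, f (n + i) := by
    intro n
    have h2 := Finset.sum_range_succ (fun i : ℕ => f (n + i)) Q
    have h3 := Finset.sum_range_succ' (fun i : ℕ => f (n + i)) Q
    have h4 : ∑ i ∈ Finset.range Q, f (n + 1 + i) =
        ∑ i ∈ Finset.range Q, f (n + ((i + 1 : ℕ) : ℤ)) := by
      refine Finset.sum_congr rfl fun i _ => ?_
      congr 1
      push_cast
      ring
    rw [h4]
    have h5 : f (n + (Q : ℤ)) = f (n + ((0 : ℕ) : ℤ)) := by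
      rw [hf]
      simp
    linarith
  have h2 : ∀ n : ℤ, ∑ i ∈ Finset.range Q, f (n + i) = ∑ i ∈ Finset.range Q, f (0 + i) := by
    intro n
    induction n using Int.induction_on with
    | zero => rfl
    | succ i ih => rw [h1, ih]
    | pred i ih => 
      rw [← ih, ← h1 (-(i : ℤ) - 1)]
      refine Finset.sum_congr rfl fun j _ => ?_
      congr 1
      ring
  rw [h2 n]
  simp

lemma per_bdd (Q : ℕ) (hQ : 0 < Q) (f : ℤ → ℝ) (hf : ∀ n, f (n + Q) = f n) :
    Bdd (fun w => f w.2) := by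
  refine ⟨∑ i ∈ Finset.range Q, |f i|, fun w => ?_⟩
  have hper : Function.Periodic f (Q : ℤ) := hf
  have hmod : f w.2 = f (((w.2 % (Q : ℤ)).toNat : ℕ) : ℤ) := by
    have h0 : (0 : ℤ) ≤ w.2 % (Q : ℤ) := Int.emod_nonneg _ (by omega)
    rw [Int.toNat_of_nonneg h0]
    have h1 := hper.int_mul (w.2 / (Q : ℤ)) (w.2 % (Q : ℤ))
    rw [← h1]
    congr 1
    have := Int.emod_add_mul_ediv w.2 (Q : ℤ)
    simp only [Int.cast_id]
    linarith
  show |f w.2| ≤ _
  rw [hmod]
  refine Finset.single_le_sum (f := fun i : ℕ => |f i|) (fun i _ => abs_nonneg _) ?_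
  rw [Finset.mem_range]
  have h0 : (0 : ℤ) ≤ w.2 % (Q : ℤ) := Int.emod_nonneg _ (by omega)
  have h1 : w.2 % (Q : ℤ) < Q := Int.emod_lt_of_pos _ (by omega)
  omega

lemma E_per (Q : ℕ) (hQ : 0 < Q) (f : ℤ → ℝ) (hf : ∀ n, f (n + Q) = f n) :
    M.E (fun w => f w.2) = (1 / (Q : ℝ)) * ∑ n ∈ Finset.range Q, f n := by
  have hb := per_bdd Q hQ f hf
  have h1 : M.E (fun w => ∑ i ∈ Finset.range Q, f (w.2 + i)) =
      ∑ i ∈ Finset.range Q, M.E (fun w => f (w.2 + i)) :=
    E_sum M (Finset.range Q) (f := fun (i : ℕ) (w : Om) => f (w.2 + i))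
      (fun i _ => Bdd.tr hb (i : ℤ))
  have h2 : ∀ i : ℕ, M.E (fun w => f (w.2 + i)) = M.E (fun w => f w.2) := fun i =>
    E_tr M hb (i : ℤ)
  have h3 : (fun w : Om => ∑ i ∈ Finset.range Q, f (w.2 + i)) =
      fun _ => ∑ i ∈ Finset.range Q, f i := by
    funext w
    exact per_sum Q f hf w.2
  rw [h3, E_const] at h1
  rw [h1]
  simp only [h2, Finset.sum_const, Finset.card_range, nsmul_eq_mul]
  have hQ' : (Q : ℝ) ≠ 0 := by positivity
  field_simp

/-- the residue modulo `Q` is uniformly distributed -/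
lemma pr_res (Q : ℕ) [NeZero Q] (b : ZMod Q) : pr M (res Q) b = 1 / (Q : ℝ) := by
  classical
  have hQ : 0 < Q := Nat.pos_of_ne_zero (NeZero.ne Q)
  have h := E_per M Q hQ (fun n : ℤ => if (n : ZMod Q) = b then (1 : ℝ) else 0) (by
    intro n
    simp)
  have h1 : pr M (res Q) b = M.E (fun w => if (w.2 : ZMod Q) = b then (1 : ℝ) else 0) := by
    unfold pr res
    congr 1
    funext w
    by_cases hw : (w.2 : ZMod Q) = b
    · rw [if_pos hw, if_pos hw]
    · rw [if_neg hw, if_neg hw]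
  rw [h1, h]
  have h2 : ∑ n ∈ Finset.range Q, (if (((n : ℕ) : ℤ) : ZMod Q) = b then (1 : ℝ) else 0) = 1 := by
    rw [Finset.sum_eq_single b.val]
    · rw [if_pos]
      simp
    · intro n hn hne
      rw [if_neg]
      intro hc
      apply hne
      rw [Int.cast_natCast] at hc
      rw [← hc, ZMod.val_natCast_of_lt (Finset.mem_range.mp hn)]
    · intro hn
      exact absurd (Finset.mem_range.mpr (ZMod.val_lt b)) hn
  rw [h2, mul_one]

/-- residues modulo coprime numbers are independent -/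
lemma pr_res_ind (Q Q' : ℕ) [NeZero Q] [NeZero Q'] (h : Nat.Coprime Q Q') (b : ZMod Q) (c : ZMod Q') :
    pr M (fun w => (res Q w, res Q' w)) (b, c) = pr M (res Q) b * pr M (res Q') c := by
  classical
  haveI : NeZero (Q * Q') := ⟨Nat.mul_ne_zero (NeZero.ne Q) (NeZero.ne Q')⟩
  have h1 : pr M (fun w => (res Q w, res Q' w)) (b, c) =
      pr M (res (Q * Q')) ((ZMod.chineseRemainder h).symm (b, c)) := by
    unfold pr
    congr 1
    funext w
    have hiff : ((res Q w, res Q' w) = (b, c)) ↔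
        (res (Q * Q') w = (ZMod.chineseRemainder h).symm (b, c)) := by
      have h2 : (ZMod.chineseRemainder h) (res (Q * Q') w) = (res Q w, res Q' w) := by
        unfold res
        rw [map_intCast]
        rfl
      rw [← h2]
      constructor
      · intro h3
        rw [← h3, RingEquiv.symm_apply_apply]
      · intro h3
        rw [h3, RingEquiv.apply_symm_apply]
    by_cases hw : (res Q w, res Q' w) = (b, c)
    · rw [if_pos hw, if_pos (hiff.mp hw)]
    · rw [if_neg hw, if_neg (fun h3 => hw (hiff.mpr h3))]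
  rw [h1, pr_res, pr_res, pr_res]
  push_cast
  have hQ : (Q : ℝ) ≠ 0 := by exact_mod_cast NeZero.ne Q
  have hQ' : (Q' : ℝ) ≠ 0 := by exact_mod_cast NeZero.ne Q'
  field_simp

end Pool.Agent.H68.OF
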