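import Pool.Agent.H68.OF.MeanA

/-!
Module LIM: construction of an invariant mean as an ultrafilter limit of averages over `1 ≤ n ≤ X i`.
`E f = limUnder U (fun i => (1/X i) ∑_{n ≤ X i} f (i, n))` for bounded `f` (bounded sequences converge
along an ultrafilter: `IsCompact.ultrafilter_le_nhds`), and for unbounded `f` anything (e.g. the same
formula). Invariance: the two averages differ by at most `2C / X i → 0`.
-/

set_option autoImplicit false

open Filter Topology

namespace Pool.Agent.H68.OF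

/-- the average at index `i` -/
noncomputable def limAvg (X : ℕ → ℕ) (f : Om → ℝ) (i : ℕ) : ℝ :=
  (1 / (X i : ℝ)) * ∑ n ∈ Finset.Icc 1 (X i), f (i, (n : ℤ))

lemma lim_abs_le (X : ℕ → ℕ) {f : Om → ℝ} {C : ℝ} (hC : ∀ w, |f w| ≤ C) (i : ℕ) :
    |limAvg X f i| ≤ C := by
  have hC0 : 0 ≤ C := (abs_nonneg _).trans (hC (0, 0))
  unfold limAvg
  have h1 : |∑ n ∈ Finset.Icc 1 (X i), f (i, (n : ℤ))| ≤ X i * C := by
    refine (Finset.abs_sum_le_sum_abs _ _).trans ?_
    have h2 : ∑ n ∈ Finset.Icc 1 (X i), |f (i, (n : ℤ))| ≤ ∑ _n ∈ Finset.Icc 1 (X i), C :=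
      Finset.sum_le_sum fun n _ => hC _
    refine h2.trans ?_
    simp
  rw [abs_mul]
  rcases Nat.eq_zero_or_pos (X i) with h0 | h0
  · rw [h0]
    simpa using hC0
  · have h2 : (0 : ℝ) < X i := by exact_mod_cast h0
    rw [abs_of_pos (by positivity : (0 : ℝ) < 1 / (X i : ℝ))]
    calc 1 / (X i : ℝ) * |∑ n ∈ Finset.Icc 1 (X i), f (i, (n : ℤ))|
        ≤ 1 / (X i : ℝ) * (X i * C) := by gcongr
      _ = C := by field_simp

lemma lim_exists (X : ℕ → ℕ) (U : Ultrafilter ℕ) {f : Om → ℝ} (hf : Bdd f) :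
    Tendsto (limAvg X f) U (𝓝 (limUnder (U : Filter ℕ) (limAvg X f))) := by
  obtain ⟨C, hC⟩ := hf
  have hc : IsCompact (Set.Icc (-C) C) := isCompact_Icc
  obtain ⟨x, _, hx⟩ := hc.ultrafilter_le_nhds (U.map (limAvg X f)) (by
    rw [le_principal_iff]
    show (limAvg X f) ⁻¹' (Set.Icc (-C) C) ∈ (U : Filter ℕ)
    have : (limAvg X f) ⁻¹' (Set.Icc (-C) C) = Set.univ := by
      ext i
      simp only [Set.mem_preimage, Set.mem_Icc, Set.mem_univ, iff_true]
      exact abs_le.mp (lim_abs_le X hC i)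
    rw [this]
    exact Filter.univ_mem)
  exact tendsto_nhds_limUnder ⟨x, hx⟩

lemma lim_shift (g : ℤ → ℝ) (N : ℕ) :
    ∑ n ∈ Finset.Icc 1 N, g ((n : ℤ) + 1) - ∑ n ∈ Finset.Icc 1 N, g (n : ℤ) =
      g ((N : ℤ) + 1) - g 1 := by
  induction N with
  | zero => simp
  | succ N ih =>
    rw [Finset.sum_Icc_succ_top (by omega), Finset.sum_Icc_succ_top (by omega)]
    push_cast
    linarith

lemma lim_inv (X : ℕ → ℕ) (hX : Tendsto X atTop atTop) {f : Om → ℝ} {C : ℝ}
    (hC : ∀ w, |f w| ≤ C) :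
    Tendsto (fun i => limAvg X (fun w => f (tr 1 w)) i - limAvg X f i) atTop (𝓝 0) := by
  have h1 : ∀ i, |limAvg X (fun w => f (tr 1 w)) i - limAvg X f i| ≤ (2 * C) / (X i : ℝ) := by
    intro i
    have h2 : limAvg X (fun w => f (tr 1 w)) i - limAvg X f i =
        (1 / (X i : ℝ)) * (f (i, ((X i : ℕ) : ℤ) + 1) - f (i, 1)) := by
      unfold limAvg
      rw [← mul_sub]
      congr 1
      exact lim_shift (fun n => f (i, n)) (X i)
    rw [h2, abs_mul, abs_of_nonneg (by positivity : (0 : ℝ) ≤ 1 / (X i : ℝ))]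
    have h3 : |f (i, ((X i : ℕ) : ℤ) + 1) - f (i, 1)| ≤ 2 * C := by
      have h4 := abs_le.mp (hC (i, ((X i : ℕ) : ℤ) + 1))
      have h5 := abs_le.mp (hC (i, 1))
      rw [abs_le]
      constructor <;> linarith [h4.1, h4.2, h5.1, h5.2]
    calc 1 / (X i : ℝ) * |f (i, ((X i : ℕ) : ℤ) + 1) - f (i, 1)|
        ≤ 1 / (X i : ℝ) * (2 * C) := by gcongr
      _ = (2 * C) / (X i : ℝ) := by ring
  refine squeeze_zero_norm (a := fun i => (2 * C) / (X i : ℝ)) (fun i => ?_) ?_
  · rw [Real.norm_eq_abs]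
    exact h1 i
  · exact Tendsto.div_atTop tendsto_const_nhds (tendsto_natCast_atTop_atTop.comp hX)

theorem exists_mn (X : ℕ → ℕ) (hX : Tendsto X atTop atTop) :
    ∃ (U : Ultrafilter ℕ) (M : Mn), (U : Filter ℕ) ≤ atTop ∧
      ∀ f : Om → ℝ, Bdd f →
        Tendsto (fun i => (1 / (X i : ℝ)) * ∑ n ∈ Finset.Icc 1 (X i), f (i, (n : ℤ))) U (𝓝 (M.E f)) := by
  obtain ⟨U, hU⟩ : ∃ U : Ultrafilter ℕ, (U : Filter ℕ) ≤ atTop :=
    ⟨Ultrafilter.of atTop, Ultrafilter.of_le atTop⟩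
  have hlim := fun (f : Om → ℝ) (hf : Bdd f) => lim_exists X U hf
  have huniq : ∀ (f : Om → ℝ) (x : ℝ), Tendsto (limAvg X f) U (𝓝 x) →
      limUnder (U : Filter ℕ) (limAvg X f) = x := fun f x h => h.limUnder_eq
  refine ⟨U, ⟨fun f => limUnder (U : Filter ℕ) (limAvg X f), ?_, ?_, ?_, ?_, ?_⟩, hU, ?_⟩
  · intro f g hf hg
    refine huniq _ _ ?_
    have h1 := (hlim f hf).add (hlim g hg)
    refine h1.congr fun i => ?_
    unfold limAvg
    rw [Finset.sum_add_distrib, mul_add]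
  · intro c f hf
    refine huniq _ _ ?_
    have h1 := (hlim f hf).const_mul c
    refine h1.congr fun i => ?_
    unfold limAvg
    rw [← Finset.mul_sum]
    ring
  · intro f hf hpos
    refine ge_of_tendsto' (hlim f hf) fun i => ?_
    unfold limAvg
    exact mul_nonneg (by positivity) (Finset.sum_nonneg fun n _ => hpos _)
  · refine huniq _ _ ?_
    have h1 : ∀ᶠ i in (U : Filter ℕ), limAvg X (fun _ => 1) i = 1 := by
      have h2 : ∀ᶠ i in atTop, 1 ≤ X i := hX.eventually_ge_atTop 1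
      filter_upwards [hU h2] with i hi
      unfold limAvg
      have h3 : (0 : ℝ) < X i := by exact_mod_cast hi
      simp only [Finset.sum_const, Nat.card_Icc, nsmul_eq_mul, mul_one, Nat.add_sub_cancel]
      field_simp
    exact (tendsto_congr' h1).mpr tendsto_const_nhds
  · intro f hf
    obtain ⟨C, hC⟩ := hf
    refine huniq _ _ ?_
    have h1 := (lim_inv X hX hC).mono_left hU
    have h2 := h1.add (hlim f ⟨C, hC⟩)
    rw [zero_add] at h2
    refine h2.congr fun i => ?_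
    ring
  · intro f hf
    exact hlim f hf

end Pool.Agent.H68.OF
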