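import Pool.Agent.H68.OF.MeanA

/-!
Module MEANC: complex valued means. `norm_Ec_le`: multiply by the unimodular constant `conj(Ec f)/|Ec f|`
and take real parts. `Ec_cs` (Cauchy-Schwarz): for unimodular-bounded `φ`, `‖Ec (φ ψ)‖² ≤ E ‖ψ‖²`
(e.g. from `norm_Ec_le`-type bound `‖Ec (φψ)‖ ≤ E‖ψ‖` and `(E‖ψ‖)² ≤ E‖ψ‖²`, which is
`E (‖ψ‖ - E‖ψ‖)² ≥ 0`). `E_normSq_sum` expands the square.
-/

set_option autoImplicit false

open Filter Topology

namespace Pool.Agent.H68.OF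

lemma BddC.re {f : Om → ℂ} (hf : BddC f) : Bdd (fun w => (f w).re) := by
  obtain ⟨C, hC⟩ := hf
  exact ⟨C, fun w => (Complex.abs_re_le_norm _).trans (hC w)⟩

lemma BddC.im {f : Om → ℂ} (hf : BddC f) : Bdd (fun w => (f w).im) := by
  obtain ⟨C, hC⟩ := hf
  exact ⟨C, fun w => (Complex.abs_im_le_norm _).trans (hC w)⟩

lemma BddC.norm {f : Om → ℂ} (hf : BddC f) : Bdd (fun w => ‖f w‖) := by
  obtain ⟨C, hC⟩ := hf
  exact ⟨C, fun w => by rw [abs_norm]; exact hC w⟩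

lemma BddC.add {f g : Om → ℂ} (hf : BddC f) (hg : BddC g) : BddC (fun w => f w + g w) := by
  obtain ⟨C, hC⟩ := hf
  obtain ⟨D, hD⟩ := hg
  exact ⟨C + D, fun w => (norm_add_le _ _).trans (add_le_add (hC w) (hD w))⟩

lemma BddC.sub {f g : Om → ℂ} (hf : BddC f) (hg : BddC g) : BddC (fun w => f w - g w) := by
  obtain ⟨C, hC⟩ := hf
  obtain ⟨D, hD⟩ := hg
  exact ⟨C + D, fun w => (norm_sub_le _ _).trans (add_le_add (hC w) (hD w))⟩

lemma BddC.mul {f g : Om → ℂ} (hf : BddC f) (hg : BddC g) : BddC (fun w => f w * g w) := by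
  obtain ⟨C, hC⟩ := hf
  obtain ⟨D, hD⟩ := hg
  refine ⟨C * D, fun w => ?_⟩
  rw [norm_mul]
  exact mul_le_mul (hC w) (hD w) (norm_nonneg _) ((norm_nonneg _).trans (hC w))

lemma BddC.const (c : ℂ) : BddC (fun _ => c) := ⟨‖c‖, fun _ => le_rfl⟩

lemma BddC.sum {ι : Type} (s : Finset ι) {f : ι → Om → ℂ} (hf : ∀ i ∈ s, BddC (f i)) :
    BddC (fun w => ∑ i ∈ s, f i w) := by
  classical
  induction s using Finset.induction_on with
  | empty =>
    simp only [Finset.sum_empty]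
    exact BddC.const 0
  | insert a s ha ih =>
    simp only [Finset.sum_insert ha]
    exact (hf a (Finset.mem_insert_self _ _)).add
      (ih (fun i hi => hf i (Finset.mem_insert_of_mem hi)))

lemma BddC.prod {ι : Type} (s : Finset ι) {f : ι → Om → ℂ} (hf : ∀ i ∈ s, BddC (f i)) :
    BddC (fun w => ∏ i ∈ s, f i w) := by
  classical
  induction s using Finset.induction_on with
  | empty =>
    simp only [Finset.prod_empty]
    exact BddC.const 1
  | insert a s ha ih =>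
    simp only [Finset.prod_insert ha]
    exact (hf a (Finset.mem_insert_self _ _)).mul
      (ih (fun i hi => hf i (Finset.mem_insert_of_mem hi)))

lemma BddC.conj {f : Om → ℂ} (hf : BddC f) : BddC (fun w => (starRingEnd ℂ) (f w)) := by
  obtain ⟨C, hC⟩ := hf
  exact ⟨C, fun w => by rw [RCLike.norm_conj]; exact hC w⟩

lemma BddC.tr {f : Om → ℂ} (hf : BddC f) (a : ℤ) : BddC (fun w => f (tr a w)) := by
  obtain ⟨C, hC⟩ := hf
  exact ⟨C, fun w => hC _⟩

variable (M : Mn)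

lemma Ec_add {f g : Om → ℂ} (hf : BddC f) (hg : BddC g) :
    M.Ec (fun w => f w + g w) = M.Ec f + M.Ec g := by
  apply Complex.ext
  · exact M.add' _ _ hf.re hg.re
  · exact M.add' _ _ hf.im hg.im

lemma Ec_sub {f g : Om → ℂ} (hf : BddC f) (hg : BddC g) :
    M.Ec (fun w => f w - g w) = M.Ec f - M.Ec g := by
  apply Complex.ext
  · exact E_sub M hf.re hg.re
  · exact E_sub M hf.im hg.im

lemma Ec_smul (c : ℂ) {f : Om → ℂ} (hf : BddC f) : M.Ec (fun w => c * f w) = c * M.Ec f := by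
  apply Complex.ext
  · change M.E (fun w => (c * f w).re) = (c * M.Ec f).re
    have h1 := E_sub M (f := fun w => c.re * (f w).re) (g := fun w => c.im * (f w).im)
      ((Bdd.const c.re).mul hf.re) ((Bdd.const c.im).mul hf.im)
    rw [M.smul' _ _ hf.re, M.smul' _ _ hf.im] at h1
    simp only [Complex.mul_re]
    exact h1
  · change M.E (fun w => (c * f w).im) = (c * M.Ec f).im
    have h1 := M.add' (fun w => c.re * (f w).im) (fun w => c.im * (f w).re)
      ((Bdd.const c.re).mul hf.im) ((Bdd.const c.im).mul hf.re)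
    rw [M.smul' _ _ hf.re, M.smul' _ _ hf.im] at h1
    simp only [Complex.mul_im]
    exact h1

lemma Ec_const_MEANC (c : ℂ) : M.Ec (fun _ => c) = c := by
  apply Complex.ext
  · exact E_const M c.re
  · exact E_const M c.im

lemma Ec_sum {ι : Type} (s : Finset ι) {f : ι → Om → ℂ} (hf : ∀ i ∈ s, BddC (f i)) :
    M.Ec (fun w => ∑ i ∈ s, f i w) = ∑ i ∈ s, M.Ec (f i) := by
  classical
  induction s using Finset.induction_on with
  | empty =>
    simp only [Finset.sum_empty]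
    exact Ec_const_MEANC M 0
  | insert a s ha ih =>
    simp only [Finset.sum_insert ha]
    rw [← ih (fun i hi => hf i (Finset.mem_insert_of_mem hi))]
    exact Ec_add M (hf a (Finset.mem_insert_self _ _))
      (BddC.sum s (fun i hi => hf i (Finset.mem_insert_of_mem hi)))

lemma Ec_conj (f : Om → ℂ) (hf : BddC f) :
    M.Ec (fun w => (starRingEnd ℂ) (f w)) = (starRingEnd ℂ) (M.Ec f) := by
  apply Complex.ext
  · rfl
  · exact E_neg M hf.im

lemma Ec_tr {f : Om → ℂ} (hf : BddC f) (a : ℤ) : M.Ec (fun w => f (tr a w)) = M.Ec f := by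
  apply Complex.ext
  · exact E_tr M hf.re a
  · exact E_tr M hf.im a

lemma norm_Ec_le_E {f : Om → ℂ} (hf : BddC f) : ‖M.Ec f‖ ≤ M.E (fun w => ‖f w‖) := by
  by_cases hz : M.Ec f = 0
  · rw [hz, norm_zero]
    exact M.nonneg' _ hf.norm (fun w => norm_nonneg _)
  · have hn : (‖M.Ec f‖ : ℂ) ≠ 0 := by
      simpa using hz
    set c : ℂ := (starRingEnd ℂ) (M.Ec f) / (‖M.Ec f‖ : ℂ) with hc
    have hc1 : ‖c‖ = 1 := by
      rw [hc, norm_div, RCLike.norm_conj, Complex.norm_real, norm_norm]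
      exact div_self (norm_ne_zero_iff.2 hz)
    have h1 : c * M.Ec f = (‖M.Ec f‖ : ℂ) := by
      rw [hc, div_mul_eq_mul_div, mul_comm, Complex.mul_conj, Complex.normSq_eq_norm_sq]
      push_cast
      field_simp
    have h2 : ‖M.Ec f‖ = M.E (fun w => (c * f w).re) := by
      have h3 := congrArg Complex.re (Ec_smul M c hf)
      rw [h1, Complex.ofReal_re] at h3
      exact h3.symm
    rw [h2]
    refine E_mono M ((BddC.const c).mul hf).re hf.norm (fun w => ?_)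
    calc (c * f w).re ≤ ‖c * f w‖ := Complex.re_le_norm _
      _ = ‖f w‖ := by rw [norm_mul, hc1, one_mul]

lemma norm_Ec_le {f : Om → ℂ} {C : ℝ} (h : ∀ w, ‖f w‖ ≤ C) : ‖M.Ec f‖ ≤ C := by
  have hf : BddC f := ⟨C, h⟩
  refine (norm_Ec_le_E M hf).trans ?_
  have h1 := E_mono M hf.norm (Bdd.const C) h
  rwa [E_const] at h1

lemma re_Ec (f : Om → ℂ) : (M.Ec f).re = M.E (fun w => (f w).re) := rfl

lemma E_sq_le_MEANC {u : Om → ℝ} (hu : Bdd u) : (M.E u) ^ 2 ≤ M.E (fun w => u w ^ 2) := by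
  have hu2 : Bdd (fun w => u w ^ 2) := by
    have := hu.mul hu
    simpa [sq] using this
  have hmu : Bdd (fun w => (2 * M.E u) * u w) := (Bdd.const _).mul hu
  have h0 := M.nonneg' (fun w => u w ^ 2 - (2 * M.E u) * u w + (M.E u) ^ 2)
    ((hu2.sub hmu).add (Bdd.const _)) (fun w => by nlinarith [sq_nonneg (u w - M.E u)])
  rw [M.add' _ _ (hu2.sub hmu) (Bdd.const _), E_sub M hu2 hmu, M.smul' _ _ hu, E_const] at h0
  nlinarith

/-- Cauchy-Schwarz -/
lemma Ec_cs {φ ψ : Om → ℂ} (hφ : ∀ w, ‖φ w‖ ≤ 1) (hψ : BddC ψ) :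
    ‖M.Ec (fun w => φ w * ψ w)‖ ^ 2 ≤ M.E (fun w => ‖ψ w‖ ^ 2) := by
  have hφ' : BddC φ := ⟨1, hφ⟩
  have h1 : ‖M.Ec (fun w => φ w * ψ w)‖ ≤ M.E (fun w => ‖ψ w‖) := by
    refine (norm_Ec_le_E M (hφ'.mul hψ)).trans ?_
    refine E_mono M (hφ'.mul hψ).norm hψ.norm (fun w => ?_)
    rw [norm_mul]
    exact mul_le_of_le_one_left (norm_nonneg _) (hφ w)
  calc ‖M.Ec (fun w => φ w * ψ w)‖ ^ 2 ≤ (M.E (fun w => ‖ψ w‖)) ^ 2 := by
        gcongr
    _ ≤ M.E (fun w => ‖ψ w‖ ^ 2) := E_sq_le_MEANC M hψ.norm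

lemma Ec_ofReal_MEANC (g : Om → ℝ) : M.Ec (fun w => ((g w : ℝ) : ℂ)) = (M.E g : ℂ) := by
  apply Complex.ext
  · simp [Mn.Ec]
  · simp only [Mn.Ec, Complex.ofReal_im]
    exact E_const M 0

/-- expansion of the square -/
lemma E_normSq_sum {ι : Type} (s : Finset ι) {f : ι → Om → ℂ} (hf : ∀ i ∈ s, BddC (f i)) :
    (M.E (fun w => ‖∑ i ∈ s, f i w‖ ^ 2) : ℂ)
      = ∑ i ∈ s, ∑ j ∈ s, M.Ec (fun w => f i w * (starRingEnd ℂ) (f j w)) := by
  have h1 : M.Ec (fun w => ∑ i ∈ s, ∑ j ∈ s, f i w * (starRingEnd ℂ) (f j w))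
      = ∑ i ∈ s, ∑ j ∈ s, M.Ec (fun w => f i w * (starRingEnd ℂ) (f j w)) := by
    rw [Ec_sum M s (f := fun i w => ∑ j ∈ s, f i w * (starRingEnd ℂ) (f j w))
      (fun i hi => BddC.sum s (fun j hj => (hf i hi).mul (hf j hj).conj))]
    refine Finset.sum_congr rfl (fun i hi => ?_)
    exact Ec_sum M s (f := fun j w => f i w * (starRingEnd ℂ) (f j w))
      (fun j hj => (hf i hi).mul (hf j hj).conj)
  rw [← h1, ← Ec_ofReal_MEANC]
  congr 1
  funext w
  rw [Complex.ofReal_pow, ← Complex.mul_conj', map_sum, Finset.sum_mul_sum]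

end Pool.Agent.H68.OF
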