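import Mathlib

/-!
Module ROU: rounding of the unit disc to finitely many values (total boundedness of the closed ball).
-/

set_option autoImplicit false

namespace Pool.Agent.H68.OF

theorem exists_round (ε : ℝ) (hε : 0 < ε) : ∃ (n : ℕ) (e : Fin n → ℂ) (r : ℂ → Fin n), 0 < n ∧
    (∀ i, ‖e i‖ ≤ 1) ∧ ∀ z : ℂ, ‖z‖ ≤ 1 → ‖e (r z) - z‖ ≤ ε := by
  classical
  obtain ⟨t, ht1, ht2, ht3⟩ := (isCompact_closedBall (0 : ℂ) 1).finite_cover_balls hε
  lift t to Finset ℂ using ht2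
  have h0 : (0 : ℂ) ∈ Metric.closedBall (0 : ℂ) 1 := by simp
  have hcov : ∀ z : ℂ, ‖z‖ ≤ 1 → ∃ i : Fin t.card, ‖((t.equivFin.symm i : t) : ℂ) - z‖ ≤ ε := by
    intro z hz
    have h1 := ht3 (show z ∈ Metric.closedBall (0 : ℂ) 1 by simpa using hz)
    simp only [Set.mem_iUnion] at h1
    obtain ⟨y, hy, hyz⟩ := h1
    refine ⟨t.equivFin ⟨y, hy⟩, ?_⟩
    rw [Equiv.symm_apply_apply, ← dist_eq_norm, dist_comm]
    exact (Metric.mem_ball.1 hyz).le
  obtain ⟨i0, -⟩ := hcov 0 (by simp)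
  refine ⟨t.card, fun i => ((t.equivFin.symm i : t) : ℂ),
    fun z => if h : ‖z‖ ≤ 1 then (hcov z h).choose else i0, i0.pos, ?_, ?_⟩
  · intro i
    have h1 := ht1 (t.equivFin.symm i).2
    simpa using h1
  · intro z hz
    simp only [hz, dite_true]
    exact (hcov z hz).choose_spec

/-- difference of products -/
lemma norm_prod_sub_prod_le {k : ℕ} (x y : Fin k → ℂ) (hx : ∀ i, ‖x i‖ ≤ 1) (hy : ∀ i, ‖y i‖ ≤ 1)
    (ε : ℝ) (h : ∀ i, ‖x i - y i‖ ≤ ε) : ‖∏ i, x i - ∏ i, y i‖ ≤ k * ε := by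
  induction k with
  | zero => simp
  | succ k ih =>
    have ih' := ih (fun i => x i.succ) (fun i => y i.succ) (fun i => hx _) (fun i => hy _)
      (fun i => h _)
    rw [Fin.prod_univ_succ, Fin.prod_univ_succ]
    have e : x 0 * ∏ i : Fin k, x i.succ - y 0 * ∏ i : Fin k, y i.succ
        = (x 0 - y 0) * ∏ i : Fin k, x i.succ
          + y 0 * (∏ i : Fin k, x i.succ - ∏ i : Fin k, y i.succ) := by ring
    have hX : ‖∏ i : Fin k, x i.succ‖ ≤ 1 := by
      rw [norm_prod]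
      exact Finset.prod_le_one (fun i _ => norm_nonneg _) (fun i _ => hx _)
    have hε : 0 ≤ ε := (norm_nonneg _).trans (h 0)
    rw [e]
    calc ‖(x 0 - y 0) * ∏ i : Fin k, x i.succ
          + y 0 * (∏ i : Fin k, x i.succ - ∏ i : Fin k, y i.succ)‖
        ≤ ‖(x 0 - y 0) * ∏ i : Fin k, x i.succ‖
          + ‖y 0 * (∏ i : Fin k, x i.succ - ∏ i : Fin k, y i.succ)‖ := norm_add_le _ _
      _ ≤ ε * 1 + 1 * (k * ε) := by
        rw [norm_mul, norm_mul]
        exact add_le_add (mul_le_mul (h 0) hX (norm_nonneg _) hε)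
          (mul_le_mul (hy 0) ih' (norm_nonneg _) zero_le_one)
      _ = ((k + 1 : ℕ) : ℝ) * ε := by push_cast; ring

end Pool.Agent.H68.OF
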