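import Pool.Agent.H68.OF.XX

/-!
Module DIL: dilation by a prime. `n = p n'`, `n' ≤ Z = X/p`:
`∑_{n≤X, p∣n} ∏ G_j(n + p h_j) = ∑_{n'≤Z} ∏ G_j(p (n' + h_j))`, and the `n'`-th product is
`∏ G_j(p) ∏ G_j(n'+h_j)` unless `p ∣ n'+h_j` for some `j`; at most `∑_j (Z/p + 1)` exceptional `n'`, each
costs at most `2`. And `|p Z / X - 1| ≤ p/X`. (`dv p n = p` if `p ∣ n`, else `0`.)
-/

set_option autoImplicit false

namespace Pool.Agent.H68.OF

lemma dil_sum (p : ℕ) (hp : 0 < p) (X : ℕ) (f : ℕ → ℂ) :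
    ∑ n ∈ Finset.Icc 1 X, (dv p n : ℂ) * f n = p * ∑ n ∈ Finset.Icc 1 (X / p), f (p * n) := by
  have h1 : ∀ n ∈ Finset.Icc 1 X, (dv p n : ℂ) * f n = if p ∣ n then (p : ℂ) * f n else 0 := by
    intro n _
    unfold dv
    by_cases h : p ∣ n
    · have h' : (p : ℤ) ∣ (n : ℤ) := by exact_mod_cast h
      rw [if_pos h', if_pos h]
      push_cast
      ring
    · have h' : ¬ (p : ℤ) ∣ (n : ℤ) := by exact_mod_cast h
      rw [if_neg h', if_neg h]
      simp
  rw [Finset.sum_congr rfl h1, ← Finset.sum_filter, Finset.mul_sum]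
  have himg : (Finset.Icc 1 X).filter (fun n => p ∣ n)
      = (Finset.Icc 1 (X / p)).image (fun n => p * n) := by
    ext n
    simp only [Finset.mem_filter, Finset.mem_Icc, Finset.mem_image]
    constructor
    · rintro ⟨⟨h1, h2⟩, k, rfl⟩
      refine ⟨k, ⟨?_, ?_⟩, rfl⟩
      · rcases Nat.eq_zero_or_pos k with rfl | hk
        · simp at h1
        · exact hk
      · rw [Nat.le_div_iff_mul_le hp, mul_comm]
        exact h2
    · rintro ⟨k, ⟨h1, h2⟩, rfl⟩
      refine ⟨⟨Nat.mul_pos hp h1, ?_⟩, dvd_mul_right _ _⟩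
      rw [Nat.le_div_iff_mul_le hp, mul_comm] at h2
      exact h2
  rw [himg, Finset.sum_image]
  intro a _ b _ hab
  exact Nat.eq_of_mul_eq_mul_left hp hab

lemma dil_count (p : ℕ) (hp : 0 < p) (Z h : ℕ) :
    (((Finset.Icc 1 Z).filter (fun n => p ∣ n + h)).card : ℝ) ≤ Z / p + 1 := by
  have h1 : ((Finset.Icc 1 Z).filter (fun n => p ∣ n + h)).card
      = ((Finset.Ioc h (h + Z)).filter (fun n => p ∣ n)).card := by
    apply Finset.card_bij (fun n _ => n + h)
    · intro a ha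
      simp only [Finset.mem_filter, Finset.mem_Icc] at ha
      simp only [Finset.mem_filter, Finset.mem_Ioc]
      exact ⟨⟨by omega, by omega⟩, ha.2⟩
    · intro a _ b _ hab
      omega
    · intro b hb
      simp only [Finset.mem_filter, Finset.mem_Ioc] at hb
      refine ⟨b - h, ?_, by omega⟩
      simp only [Finset.mem_filter, Finset.mem_Icc]
      refine ⟨⟨by omega, by omega⟩, ?_⟩
      rw [Nat.sub_add_cancel hb.1.1.le]
      exact hb.2
  have h2 : ((Finset.Ioc 0 (h + Z)).filter (fun n => p ∣ n)).card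
      = ((Finset.Ioc 0 h).filter (fun n => p ∣ n)).card
        + ((Finset.Ioc h (h + Z)).filter (fun n => p ∣ n)).card := by
    rw [← Finset.card_union_of_disjoint, ← Finset.filter_union,
      Finset.Ioc_union_Ioc_eq_Ioc (Nat.zero_le _) (Nat.le_add_right _ _)]
    apply Finset.disjoint_filter_filter
    rw [Finset.disjoint_left]
    intro a ha hb
    simp only [Finset.mem_Ioc] at ha hb
    omega
  rw [Nat.Ioc_filter_dvd_card_eq_div, Nat.Ioc_filter_dvd_card_eq_div, Nat.add_div hp] at h2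
  have h3 : ((Finset.Ioc h (h + Z)).filter (fun n => p ∣ n)).card ≤ Z / p + 1 := by
    split_ifs at h2 <;> omega
  rw [h1]
  calc (((Finset.Ioc h (h + Z)).filter (fun n => p ∣ n)).card : ℝ)
      ≤ ((Z / p + 1 : ℕ) : ℝ) := by exact_mod_cast h3
    _ ≤ Z / p + 1 := by
      rw [Nat.cast_add, Nat.cast_one]
      have := Nat.cast_div_le (α := ℝ) (m := Z) (n := p)
      linarith

lemma dil_norm_prod {k : ℕ} (x : Fin k → ℂ) (hx : ∀ i, ‖x i‖ ≤ 1) : ‖∏ i, x i‖ ≤ 1 := by
  rw [norm_prod]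
  exact Finset.prod_le_one (fun i _ => norm_nonneg _) (fun i _ => hx i)

lemma dil_exc {k : ℕ} (G : Fin k → ArithmeticFunction ℂ) (hmul : ∀ i, (G i).IsMultiplicative)
    (hbd : ∀ i n, ‖G i n‖ ≤ 1) (h : Fin k → ℕ) (p : ℕ) (hp : p.Prime) (Z : ℕ) :
    ‖∑ n ∈ Finset.Icc 1 Z, (∏ j, G j (p * n + p * h j) - (∏ j, G j p) * ∏ j, G j (n + h j))‖
      ≤ 2 * (k * ((Z : ℝ) / p + 1)) := by
  classical
  have h1 : ∀ n ∈ Finset.Icc 1 Z,
      ‖∏ j, G j (p * n + p * h j) - (∏ j, G j p) * ∏ j, G j (n + h j)‖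
      ≤ 2 * ∑ j : Fin k, (if p ∣ n + h j then (1 : ℝ) else 0) := by
    intro n _
    by_cases hex : ∃ j, p ∣ n + h j
    · obtain ⟨j, hj⟩ := hex
      have h2 : (1 : ℝ) ≤ ∑ j : Fin k, (if p ∣ n + h j then (1 : ℝ) else 0) := by
        have h3 := Finset.single_le_sum (f := fun j : Fin k => if p ∣ n + h j then (1 : ℝ) else 0)
          (fun i _ => by split_ifs <;> norm_num) (Finset.mem_univ j)
        simp only [hj, if_true] at h3
        exact h3
      have h4 : ‖∏ j, G j (p * n + p * h j)‖ ≤ 1 := dil_norm_prod _ (fun j => hbd j _)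
      have h5 : ‖(∏ j, G j p) * ∏ j, G j (n + h j)‖ ≤ 1 := by
        rw [norm_mul]
        exact mul_le_one₀ (dil_norm_prod _ (fun j => hbd j _)) (norm_nonneg _)
          (dil_norm_prod _ (fun j => hbd j _))
      calc ‖∏ j, G j (p * n + p * h j) - (∏ j, G j p) * ∏ j, G j (n + h j)‖
          ≤ ‖∏ j, G j (p * n + p * h j)‖ + ‖(∏ j, G j p) * ∏ j, G j (n + h j)‖ :=
            norm_sub_le _ _
        _ ≤ 1 + 1 := add_le_add h4 h5
        _ ≤ 2 * ∑ j : Fin k, (if p ∣ n + h j then (1 : ℝ) else 0) := by linarith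
    · push Not at hex
      have h2 : ∏ j, G j (p * n + p * h j) = (∏ j, G j p) * ∏ j, G j (n + h j) := by
        rw [← Finset.prod_mul_distrib]
        refine Finset.prod_congr rfl (fun j _ => ?_)
        rw [← mul_add]
        exact (hmul j).map_mul_of_coprime ((Nat.Prime.coprime_iff_not_dvd hp).2 (hex j))
      rw [h2, sub_self, norm_zero]
      exact mul_nonneg (by norm_num) (Finset.sum_nonneg
        (fun i _ => by split_ifs <;> norm_num))
  calc ‖∑ n ∈ Finset.Icc 1 Z, (∏ j, G j (p * n + p * h j) - (∏ j, G j p) * ∏ j, G j (n + h j))‖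
      ≤ ∑ n ∈ Finset.Icc 1 Z,
        ‖∏ j, G j (p * n + p * h j) - (∏ j, G j p) * ∏ j, G j (n + h j)‖ := norm_sum_le _ _
    _ ≤ ∑ n ∈ Finset.Icc 1 Z, 2 * ∑ j : Fin k, (if p ∣ n + h j then (1 : ℝ) else 0) :=
        Finset.sum_le_sum h1
    _ = 2 * ∑ j : Fin k, (((Finset.Icc 1 Z).filter (fun n => p ∣ n + h j)).card : ℝ) := by
        rw [← Finset.mul_sum, Finset.sum_comm]
        congr 1
        refine Finset.sum_congr rfl (fun j _ => ?_)
        rw [← Finset.sum_filter, Finset.sum_const, nsmul_eq_mul, mul_one]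
    _ ≤ 2 * ∑ _j : Fin k, ((Z : ℝ) / p + 1) := by
        gcongr with j _
        exact dil_count p hp.pos Z (h j)
    _ = 2 * (k * ((Z : ℝ) / p + 1)) := by
        rw [Finset.sum_const, Finset.card_univ, Fintype.card_fin, nsmul_eq_mul]

theorem dil {k : ℕ} (G : Fin k → ArithmeticFunction ℂ) (hmul : ∀ i, (G i).IsMultiplicative)
    (hbd : ∀ i n, ‖G i n‖ ≤ 1) (h : Fin k → ℕ) (p : ℕ) (hp : p.Prime) (X : ℕ) (hX : 0 < X) :
    ‖(1 / (X : ℂ)) * ∑ n ∈ Finset.Icc 1 X, (dv p n : ℂ) * ∏ j, G j (n + p * h j)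
      - (∏ j, G j p) * corN G h (X / p)‖ ≤ 2 * k / p + (2 * k + 1) * p / X := by
  have hp0 : (0 : ℝ) < p := by exact_mod_cast hp.pos
  have hX0 : (0 : ℝ) < X := by exact_mod_cast hX
  rw [dil_sum p hp.pos X (fun n => ∏ j, G j (n + p * h j))]
  unfold corN
  set Z := X / p with hZ
  rcases Nat.eq_zero_or_pos Z with hZ0 | hZ0
  · rw [hZ0]
    simp only [Finset.Icc_eq_empty (show ¬ (1 ≤ 0) by norm_num), Finset.sum_empty, mul_zero,
      sub_zero, norm_zero]
    positivity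
  · have hZR : (0 : ℝ) < Z := by exact_mod_cast hZ0
    have hXC : (X : ℂ) ≠ 0 := by exact_mod_cast hX.ne'
    have hZC : (Z : ℂ) ≠ 0 := by exact_mod_cast hZ0.ne'
    have hZX : p * Z ≤ X := Nat.mul_div_le X p
    have hZX2 : X < p * Z + p := by
      have := Nat.lt_mul_div_succ X hp.pos
      rw [← hZ] at this
      linarith
    have hZXR : (p : ℝ) * Z ≤ X := by exact_mod_cast hZX
    have hZX2R : (X : ℝ) < p * Z + p := by exact_mod_cast hZX2
    set c : ℂ := ∏ j, G j p with hc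
    have hc1 : ‖c‖ ≤ 1 := dil_norm_prod _ (fun j => hbd j _)
    set T : ℂ := ∑ n ∈ Finset.Icc 1 Z, ∏ i, G i (n + h i) with hT
    have hT1 : ‖T‖ ≤ Z := by
      calc ‖T‖ ≤ ∑ n ∈ Finset.Icc 1 Z, ‖∏ i, G i (n + h i)‖ := norm_sum_le _ _
        _ ≤ ∑ _n ∈ Finset.Icc 1 Z, (1 : ℝ) :=
          Finset.sum_le_sum (fun n _ => dil_norm_prod _ (fun j => hbd j _))
        _ = Z := by simp
    have hexc := dil_exc G hmul hbd h p hp Z
    rw [Finset.sum_sub_distrib, ← Finset.mul_sum] at hexc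
    change ‖_ - c * T‖ ≤ _ at hexc
    set S : ℂ := ∑ n ∈ Finset.Icc 1 Z, ∏ j, G j (p * n + p * h j) with hS
    have hdec : 1 / (X : ℂ) * ((p : ℂ) * S) - c * (1 / (Z : ℂ) * T)
        = ((p : ℂ) / X) * (S - c * T) + c * (((p : ℂ) / X - 1 / Z) * T) := by
      ring
    have h1 : ‖((p : ℂ) / X) * (S - c * T)‖ ≤ (p / X) * (2 * (k * ((Z : ℝ) / p + 1))) := by
      rw [norm_mul, norm_div, Complex.norm_natCast, Complex.norm_natCast]
      exact mul_le_mul_of_nonneg_left hexc (by positivity)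
    have h2 : ‖c * (((p : ℂ) / X - 1 / Z) * T)‖ ≤ p / X := by
      have h3 : ‖(p : ℂ) / X - 1 / Z‖ ≤ p / X / Z := by
        have e : (p : ℂ) / X - 1 / Z = (((p : ℝ) / X - 1 / Z : ℝ) : ℂ) := by push_cast; ring
        rw [e, Complex.norm_real, Real.norm_eq_abs]
        have e2 : (p : ℝ) / X - 1 / Z = -((X - p * Z) / X / Z) := by
          field_simp
          ring
        rw [e2, abs_neg, abs_of_nonneg (by
          apply div_nonneg (div_nonneg (by linarith) hX0.le) hZR.le)]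
        gcongr
        linarith
      calc ‖c * (((p : ℂ) / X - 1 / Z) * T)‖
          = ‖c‖ * (‖(p : ℂ) / X - 1 / Z‖ * ‖T‖) := by rw [norm_mul, norm_mul]
        _ ≤ 1 * ((p / X / Z) * Z) := by
          apply mul_le_mul hc1 _ (by positivity) zero_le_one
          exact mul_le_mul h3 hT1 (norm_nonneg _) (by positivity)
        _ = p / X := by field_simp
    rw [hdec]
    refine (norm_add_le _ _).trans ((add_le_add h1 h2).trans ?_)
    have h4 : (p : ℝ) / X * (2 * (k * ((Z : ℝ) / p + 1))) = 2 * k * (Z / X) + 2 * k * p / X := by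
      field_simp
    have h5 : (Z : ℝ) / X ≤ 1 / p := by
      rw [div_le_div_iff₀ hX0 hp0]
      linarith
    have h6 : 2 * k * ((Z : ℝ) / X) ≤ 2 * k * (1 / p) :=
      mul_le_mul_of_nonneg_left h5 (by positivity)
    rw [h4]
    calc 2 * (k : ℝ) * (Z / X) + 2 * k * p / X + p / X
        ≤ 2 * k * (1 / p) + 2 * k * p / X + p / X := by linarith
      _ = 2 * k / p + (2 * k + 1) * p / X := by ring

end Pool.Agent.H68.OF
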