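import Pool.Agent.H68.OF.Crt

/-!
Module MV: mean value of `|g|` when `∑_{q ≤ w} (1-|g(q)|)/q` is large, uniformly in `g`.

`|g(n)| ≤ ∏_{q ≤ w, q ∥ n} |g(q)|` (`q` exactly divides `n`). So with `t_q = ‖g q‖ ∈ [0,1]` and
`F_q(n) = 1 - (1 - t_q) [q ∣ n, q² ∤ n]` (period `q²`): `‖g(n+h)‖ ≤ ∏_{q≤w} F_q(n+h)`, a function with
period `Q = ∏ q²`; its average over `Z` consecutive integers is within `Q/Z` of its mean over a period,
which is `∏_q (1 - (1-t_q)(1/q)(1-1/q))` (CRT as in `crt_two`, coprime periods `q²`)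
`≤ ∏ exp(-(1-t_q)/(2q)) = exp(-½ ∑ (1-t_q)/q)`. `Z₀ = Q/δ` depends on `w, δ` only.
-/

set_option autoImplicit false

namespace Pool.Agent.H68.OF

/-- products of coprime periods, with general periods -/
theorem mv_crt (s : Finset ℕ) (P : ℕ → ℕ) (F : ℕ → ℤ → ℝ) :
    (∀ p ∈ s, 0 < P p) → (∀ p ∈ s, ∀ q ∈ s, p ≠ q → Nat.Coprime (P p) (P q)) →
    (∀ p ∈ s, ∀ n, F p (n + P p) = F p n) →
    (∀ n : ℤ, ∏ p ∈ s, F p (n + ((∏ p ∈ s, P p : ℕ) : ℤ)) = ∏ p ∈ s, F p n) ∧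
    ∑ n ∈ Finset.range (∏ p ∈ s, P p), ∏ p ∈ s, F p n = ∏ p ∈ s, ∑ n ∈ Finset.range (P p), F p n := by
  classical
  induction s using Finset.induction_on with
  | empty => intro _ _ _; simp
  | insert q s hq ih =>
    intro hP hc hF
    obtain ⟨ih1, ih2⟩ := ih (fun p hp => hP p (Finset.mem_insert_of_mem hp))
      (fun p hp r hr => hc p (Finset.mem_insert_of_mem hp) r (Finset.mem_insert_of_mem hr))
      (fun p hp => hF p (Finset.mem_insert_of_mem hp))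
    have hPq := hP q (Finset.mem_insert_self q s)
    have hFq := hF q (Finset.mem_insert_self q s)
    have hPs : 0 < ∏ p ∈ s, P p :=
      Finset.prod_pos fun p hp => hP p (Finset.mem_insert_of_mem hp)
    have hcop : Nat.Coprime (P q) (∏ p ∈ s, P p) := by
      refine Nat.Coprime.prod_right fun p hp => ?_
      refine hc q (Finset.mem_insert_self q s) p (Finset.mem_insert_of_mem hp) ?_
      rintro rfl
      exact hq hp
    refine ⟨fun n => ?_, ?_⟩
    · rw [Finset.prod_insert hq, Finset.prod_insert hq, Finset.prod_insert hq]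
      congr 1
      · have h1 := crt_per (P q) (F q) hFq n (∏ p ∈ s, P p)
        rw [← h1]
        congr 1
        push_cast
        try ring
      · have h1 := crt_per (∏ p ∈ s, P p) (fun n => ∏ p ∈ s, F p n) ih1 n (P q)
        rw [← h1]
        refine Finset.prod_congr rfl fun p _ => ?_
        congr 1
    · rw [Finset.prod_insert hq, Finset.prod_insert hq, ← ih2,
        ← crt_two (P q) (∏ p ∈ s, P p) hPq hPs hcop (F q) (fun n => ∏ p ∈ s, F p n) hFq ih1]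
      refine Finset.sum_congr rfl fun n _ => ?_
      rw [Finset.prod_insert hq]

theorem mv_per_sum (Q : ℕ) (f : ℤ → ℝ) (hf : ∀ n, f (n + Q) = f n) (n : ℤ) :
    ∑ i ∈ Finset.range Q, f (n + i) = ∑ i ∈ Finset.range Q, f i := by
  have h1 : ∀ n : ℤ, ∑ i ∈ Finset.range Q, f (n + 1 + i) = ∑ i ∈ Finset.range Q, f (n + i) := by
    intro n
    have h2 := Finset.sum_range_succ (fun i : ℕ => f (n + i)) Q
    have h3 := Finset.sum_range_succ' (fun i : ℕ => f (n + i)) Q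
    have h4 : ∑ i ∈ Finset.range Q, f (n + 1 + i) =
        ∑ i ∈ Finset.range Q, f (n + ((i + 1 : ℕ) : ℤ)) := by
      refine Finset.sum_congr rfl fun i _ => ?_
      congr 1
      push_cast
      ring
    rw [h4]
    have h5 : f (n + (Q : ℤ)) = f (n + ((0 : ℕ) : ℤ)) := by
      rw [hf]
      simp
    linarith
  have h2 : ∀ n : ℤ, ∑ i ∈ Finset.range Q, f (n + i) = ∑ i ∈ Finset.range Q, f (0 + i) := by
    intro n
    induction n using Int.induction_on with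
    | zero => rfl
    | succ i ih => rw [h1, ih]
    | pred i ih =>
      rw [← ih, ← h1 (-(i : ℤ) - 1)]
      refine Finset.sum_congr rfl fun j _ => ?_
      congr 1
      ring
  rw [h2 n]
  simp

theorem mv_blocks (Q : ℕ) (f : ℤ → ℝ) (hf : ∀ n, f (n + Q) = f n) (a : ℤ) (k : ℕ) :
    ∑ i ∈ Finset.range (k * Q), f (a + i) = k * ∑ i ∈ Finset.range Q, f i := by
  induction k with
  | zero => simp
  | succ k ih =>
    rw [Nat.succ_mul, Finset.sum_range_add, ih]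
    have h1 : ∑ x ∈ Finset.range Q, f (a + ((k * Q + x : ℕ) : ℤ)) =
        ∑ i ∈ Finset.range Q, f i := by
      rw [← mv_per_sum Q f hf (a + ((k * Q : ℕ) : ℤ))]
      refine Finset.sum_congr rfl fun j _ => ?_
      congr 1
      push_cast
      ring
    rw [h1]
    push_cast
    ring

/-- multiplicative majorant -/
theorem mv_mult (g : ArithmeticFunction ℂ) (hg : g.IsMultiplicative) (hb : ∀ n, ‖g n‖ ≤ 1)
    (s : Finset ℕ) : (∀ q ∈ s, q.Prime) → ∀ n : ℕ,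
    ‖g n‖ ≤ ∏ q ∈ s, (if q ∣ n ∧ ¬ q ^ 2 ∣ n then ‖g q‖ else 1) := by
  classical
  induction s using Finset.induction_on with
  | empty => intro _ n; simpa using hb n
  | insert q s hq ih =>
    intro hs n
    have hs' : ∀ q ∈ s, q.Prime := fun p hp => hs p (Finset.mem_insert_of_mem hp)
    have hqp := hs q (Finset.mem_insert_self q s)
    rw [Finset.prod_insert hq]
    by_cases h : q ∣ n ∧ ¬ q ^ 2 ∣ n
    · rw [if_pos h]
      obtain ⟨⟨n', rfl⟩, h2⟩ := h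
      have hqn' : ¬ q ∣ n' := fun hd => h2 (by rw [sq]; exact mul_dvd_mul_left q hd)
      have hcop : Nat.Coprime q n' := (Nat.Prime.coprime_iff_not_dvd hqp).2 hqn'
      rw [hg.map_mul_of_coprime hcop, norm_mul]
      refine mul_le_mul_of_nonneg_left ?_ (norm_nonneg _)
      refine (ih hs' n').trans (le_of_eq ?_)
      refine Finset.prod_congr rfl fun q' hq' => ?_
      have hne : q' ≠ q := by
        rintro rfl
        exact hq hq'
      have hc2 : Nat.Coprime q' q := (Nat.coprime_primes (hs' q' hq') hqp).2 hne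
      have e1 : q' ∣ q * n' ↔ q' ∣ n' := hc2.dvd_mul_left
      have e2 : q' ^ 2 ∣ q * n' ↔ q' ^ 2 ∣ n' := (hc2.pow_left 2).dvd_mul_left
      simp only [e1, e2]
    · rw [if_neg h, one_mul]
      exact ih hs' n

/-- number of integers below `q^2` exactly divisible by `q` -/
theorem mv_card (q : ℕ) (hq : 0 < q) :
    ((Finset.range (q ^ 2)).filter (fun n => q ∣ n ∧ ¬ q ^ 2 ∣ n)).card = q - 1 := by
  have h : (Finset.range (q ^ 2)).filter (fun n => q ∣ n ∧ ¬ q ^ 2 ∣ n) =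
      (Finset.Ico 1 q).image (fun m => q * m) := by
    ext n
    rw [Finset.mem_filter, Finset.mem_range, Finset.mem_image]
    constructor
    · rintro ⟨h1, ⟨m, rfl⟩, h3⟩
      refine ⟨m, ?_, rfl⟩
      rw [Finset.mem_Ico]
      constructor
      · by_contra hc
        have : m = 0 := by omega
        rw [this] at h3
        simp at h3
      · rw [sq] at h1
        exact lt_of_mul_lt_mul_left h1 (Nat.zero_le q)
    · rintro ⟨m, hm, rfl⟩
      rw [Finset.mem_Ico] at hm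
      refine ⟨?_, dvd_mul_right q m, ?_⟩
      · rw [sq]
        exact Nat.mul_lt_mul_of_pos_left hm.2 hq
      · intro hd
        rw [sq] at hd
        have h2 : q ∣ m := Nat.dvd_of_mul_dvd_mul_left hq hd
        have := Nat.le_of_dvd (by omega) h2
        omega
  rw [h, Finset.card_image_of_injOn, Nat.card_Ico]
  intro a _ b _ hab
  exact Nat.eq_of_mul_eq_mul_left hq hab

/-- the local factor -/
noncomputable def mvF (t : ℕ → ℝ) (q : ℕ) (n : ℤ) : ℝ :=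
  if (q : ℤ) ∣ n ∧ ¬ (q : ℤ) ^ 2 ∣ n then t q else 1

theorem mvF_nat (t : ℕ → ℝ) (q n : ℕ) :
    mvF t q (n : ℤ) = if q ∣ n ∧ ¬ q ^ 2 ∣ n then t q else 1 := by
  unfold mvF
  have e1 : ((q : ℤ) ∣ (n : ℤ)) ↔ q ∣ n := Int.natCast_dvd_natCast
  have e2 : ((q : ℤ) ^ 2 ∣ (n : ℤ)) ↔ q ^ 2 ∣ n := by
    rw [← Int.natCast_dvd_natCast]
    push_cast
    rfl
  simp only [e1, e2]

theorem mvF_per (t : ℕ → ℝ) (q : ℕ) (n : ℤ) : mvF t q (n + ((q ^ 2 : ℕ) : ℤ)) = mvF t q n := by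
  unfold mvF
  have e1 : ((q : ℤ) ∣ n + ((q ^ 2 : ℕ) : ℤ)) ↔ (q : ℤ) ∣ n := by
    refine dvd_add_left ?_
    push_cast
    exact dvd_pow_self _ (by norm_num)
  have e2 : ((q : ℤ) ^ 2 ∣ n + ((q ^ 2 : ℕ) : ℤ)) ↔ (q : ℤ) ^ 2 ∣ n := by
    refine dvd_add_left ?_
    push_cast
    exact dvd_rfl
  simp only [e1, e2]

theorem mvF_sum (t : ℕ → ℝ) (q : ℕ) (hq : 0 < q) :
    ∑ n ∈ Finset.range (q ^ 2), mvF t q (n : ℤ) = (q : ℝ) ^ 2 - (1 - t q) * ((q : ℝ) - 1) := by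
  have h1 : ∀ n ∈ Finset.range (q ^ 2), mvF t q (n : ℤ) =
      1 - (1 - t q) * (if q ∣ n ∧ ¬ q ^ 2 ∣ n then (1 : ℝ) else 0) := by
    intro n _
    rw [mvF_nat]
    split_ifs <;> ring
  rw [Finset.sum_congr rfl h1, Finset.sum_sub_distrib, ← Finset.mul_sum, Finset.sum_boole,
    mv_card q hq]
  simp only [Finset.sum_const, Finset.card_range, nsmul_eq_mul, mul_one]
  rw [Nat.cast_sub hq]
  push_cast
  ring

theorem mv_icc (f : ℕ → ℝ) (Z : ℕ) :
    ∑ n ∈ Finset.Icc 1 Z, f n = ∑ n ∈ Finset.range Z, f (n + 1) := by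
  induction Z with
  | zero => simp
  | succ Z ih => rw [Finset.sum_Icc_succ_top (by omega), Finset.sum_range_succ, ih]

theorem mean_le (w : ℕ) (δ : ℝ) (hδ : 0 < δ) : ∃ Z₀ : ℕ, 0 < Z₀ ∧ ∀ Z, Z₀ ≤ Z →
    ∀ (g : ArithmeticFunction ℂ), g.IsMultiplicative → (∀ n, ‖g n‖ ≤ 1) → ∀ h : ℕ,
    (1 / (Z : ℝ)) * ∑ n ∈ Finset.Icc 1 Z, ‖g (n + h)‖
      ≤ Real.exp (-(1 / 2) * ∑ q ∈ (Finset.range (w + 1)).filter Nat.Prime, (1 - ‖g q‖) / q) + δ := by
  classical
  obtain ⟨s, hsdef⟩ : ∃ s : Finset ℕ, s = (Finset.range (w + 1)).filter Nat.Prime := ⟨_, rfl⟩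
  have hs : ∀ q ∈ s, q.Prime := by
    intro q hq
    rw [hsdef] at hq
    exact (Finset.mem_filter.mp hq).2
  rw [← hsdef]
  obtain ⟨Q, hQdef⟩ : ∃ Q : ℕ, Q = ∏ q ∈ s, q ^ 2 := ⟨_, rfl⟩
  have hQ : 0 < Q := by
    rw [hQdef]
    exact Finset.prod_pos fun q hq => pow_pos (hs q hq).pos 2
  have hQR : (0 : ℝ) < Q := by exact_mod_cast hQ
  refine ⟨⌈(Q : ℝ) / δ⌉₊ + 1, by omega, ?_⟩
  intro Z hZ g hg hb h
  have hZ0 : 0 < Z := by omega
  have hZR : (0 : ℝ) < Z := by exact_mod_cast hZ0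
  have hQZ : (Q : ℝ) / Z ≤ δ := by
    have h1 : (Q : ℝ) / δ ≤ Z := by
      refine (Nat.le_ceil _).trans ?_
      exact_mod_cast (by omega : ⌈(Q : ℝ) / δ⌉₊ ≤ Z)
    rw [div_le_iff₀ hδ] at h1
    rw [div_le_iff₀ hZR]
    linarith
  obtain ⟨t, ht⟩ : ∃ t : ℕ → ℝ, t = fun q => ‖g q‖ := ⟨_, rfl⟩
  have ht0 : ∀ q, 0 ≤ t q := fun q => by rw [ht]; exact norm_nonneg _
  have ht1 : ∀ q, t q ≤ 1 := fun q => by rw [ht]; exact hb q
  obtain ⟨G, hG⟩ : ∃ G : ℤ → ℝ, G = fun n => ∏ q ∈ s, mvF t q n := ⟨_, rfl⟩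
  have hF0 : ∀ q n, 0 ≤ mvF t q n := by
    intro q n
    unfold mvF
    split_ifs
    · exact ht0 q
    · norm_num
  have hF1 : ∀ q n, mvF t q n ≤ 1 := by
    intro q n
    unfold mvF
    split_ifs
    · exact ht1 q
    · exact le_rfl
  have hG0 : ∀ n, 0 ≤ G n := by
    intro n
    rw [hG]
    exact Finset.prod_nonneg fun q _ => hF0 q n
  have hG1 : ∀ n, G n ≤ 1 := by
    intro n
    rw [hG]
    exact Finset.prod_le_one (fun q _ => hF0 q n) (fun q _ => hF1 q n)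
  obtain ⟨c1, c2⟩ := mv_crt s (fun q => q ^ 2) (fun q n => mvF t q n)
    (fun q hq => pow_pos (hs q hq).pos 2)
    (fun p hp q hq hne => Nat.Coprime.pow 2 2 ((Nat.coprime_primes (hs p hp) (hs q hq)).2 hne))
    (fun q _ n => mvF_per t q n)
  have hGper : ∀ n, G (n + (Q : ℤ)) = G n := by
    intro n
    rw [hG, hQdef]
    exact c1 n
  have hgG : ∀ n : ℕ, ‖g n‖ ≤ G (n : ℤ) := by
    intro n
    refine (mv_mult g hg hb s hs n).trans (le_of_eq ?_)
    rw [hG]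
    refine Finset.prod_congr rfl fun q _ => ?_
    rw [mvF_nat, ht]
  -- the sum over a period
  have hS : ∑ n ∈ Finset.range Q, G (n : ℤ) = ∏ q ∈ s, ((q : ℝ) ^ 2 - (1 - t q) * ((q : ℝ) - 1)) := by
    rw [hG, hQdef]
    refine c2.trans ?_
    exact Finset.prod_congr rfl fun q hq => mvF_sum t q (hs q hq).pos
  have hSQ : ∑ n ∈ Finset.range Q, G (n : ℤ) ≤ Q := by
    have h1 : ∑ n ∈ Finset.range Q, G (n : ℤ) ≤ ∑ _n ∈ Finset.range Q, (1 : ℝ) :=
      Finset.sum_le_sum fun n _ => hG1 (n : ℤ)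
    refine h1.trans ?_
    simp
  have hS0 : 0 ≤ ∑ n ∈ Finset.range Q, G (n : ℤ) := Finset.sum_nonneg fun n _ => hG0 _
  have hSexp : (∑ n ∈ Finset.range Q, G (n : ℤ)) / Q ≤
      Real.exp (-(1 / 2) * ∑ q ∈ s, (1 - ‖g q‖) / q) := by
    rw [hS, hQdef]
    push_cast
    rw [← Finset.prod_div_distrib, Finset.mul_sum, Real.exp_sum]
    refine Finset.prod_le_prod (fun q hq => ?_) (fun q hq => ?_)
    · have h2 : (2 : ℝ) ≤ q := by exact_mod_cast (hs q hq).two_le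
      refine div_nonneg ?_ (by positivity)
      nlinarith [ht0 q, ht1 q, mul_nonneg (ht0 q) (by linarith : (0 : ℝ) ≤ q - 1)]
    · have h2 : (2 : ℝ) ≤ q := by exact_mod_cast (hs q hq).two_le
      have h3 : ((q : ℝ) ^ 2 - (1 - t q) * ((q : ℝ) - 1)) / (q : ℝ) ^ 2 ≤
          -(1 / 2) * ((1 - ‖g q‖) / q) + 1 := by
        rw [div_le_iff₀ (by positivity)]
        have h4 : ‖g q‖ = t q := by rw [ht]
        rw [h4]
        have h5 : (-(1 / 2) * ((1 - t q) / q) + 1) * (q : ℝ) ^ 2 =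
            (q : ℝ) ^ 2 - (1 - t q) * ((q : ℝ) / 2) := by
          field_simp
          ring
        rw [h5]
        nlinarith [ht1 q, mul_nonneg (by linarith [ht1 q] : (0 : ℝ) ≤ 1 - t q)
          (by linarith : (0 : ℝ) ≤ (q : ℝ) - 2)]
      exact h3.trans (Real.add_one_le_exp _)
  -- blocks
  have hk : Z ≤ (Z / Q + 1) * Q := by
    have := Nat.div_add_mod Z Q
    have h2 := Nat.mod_lt Z hQ
    nlinarith
  have hsum : ∑ n ∈ Finset.Icc 1 Z, ‖g (n + h)‖ ≤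
      ((Z / Q + 1 : ℕ) : ℝ) * ∑ n ∈ Finset.range Q, G (n : ℤ) := by
    rw [← mv_blocks Q G hGper ((h : ℤ) + 1) (Z / Q + 1)]
    have h1 : ∑ n ∈ Finset.Icc 1 Z, ‖g (n + h)‖ = ∑ n ∈ Finset.range Z, ‖g (n + 1 + h)‖ :=
      mv_icc (fun n => ‖g (n + h)‖) Z
    rw [h1]
    calc ∑ n ∈ Finset.range Z, ‖g (n + 1 + h)‖
        ≤ ∑ n ∈ Finset.range Z, G ((h : ℤ) + 1 + n) := by
          refine Finset.sum_le_sum fun n _ => ?_
          refine (hgG (n + 1 + h)).trans (le_of_eq ?_)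
          congr 1
          push_cast
          ring
      _ ≤ ∑ n ∈ Finset.range ((Z / Q + 1) * Q), G ((h : ℤ) + 1 + n) := by
          refine Finset.sum_le_sum_of_subset_of_nonneg ?_ (fun n _ _ => hG0 _)
          intro n hn
          rw [Finset.mem_range] at hn ⊢
          omega
  have hZQ : (((Z / Q + 1 : ℕ)) : ℝ) ≤ Z / Q + 1 := by
    push_cast
    have : ((Z / Q : ℕ) : ℝ) ≤ (Z : ℝ) / Q := Nat.cast_div_le
    linarith
  calc (1 / (Z : ℝ)) * ∑ n ∈ Finset.Icc 1 Z, ‖g (n + h)‖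
      ≤ (1 / (Z : ℝ)) * (((Z : ℝ) / Q + 1) * ∑ n ∈ Finset.range Q, G (n : ℤ)) := by
        refine mul_le_mul_of_nonneg_left ?_ (by positivity)
        exact hsum.trans (mul_le_mul_of_nonneg_right hZQ hS0)
    _ = (∑ n ∈ Finset.range Q, G (n : ℤ)) / Q + (∑ n ∈ Finset.range Q, G (n : ℤ)) / Z := by
        field_simp
    _ ≤ Real.exp (-(1 / 2) * ∑ q ∈ s, (1 - ‖g q‖) / q) + (Q : ℝ) / Z := by
        refine add_le_add hSexp ?_
        exact div_le_div_of_nonneg_right hSQ hZR.le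
    _ ≤ _ := by linarith

end Pool.Agent.H68.OF
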