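import Pool.Agent.H68.OF.Tra
import Pool.Agent.H68.OF.Dil
import Pool.Agent.H68.OF.MV

/-!
Module PROPA: at every large scale `X`, most scales `X/p` are good, uniformly in the other functions.

Let `K = 2 log (8/δ)` (so `e^{-K/2} ≤ δ/8`). Choose `m₁` (large, `≥ m₀` of `transfer` with `δ/4` and
`2(k+1)/2^{m₁} ≤ δ/8`), then `M'` (so that `(2/c)(k+1) K ≤ (δ/8) ∑ 1/m`, `c` of `card_PP`, and `M' ≥ M₀`), then
`X₀`. Case 1: `∑_{q ≤ 2^M'} (1-‖G_j q‖)/q ≥ K` for some `j`: then `‖corN G h Z‖ ≤ avg ‖G_j(n+h_j)‖ ≤ δ/8 + δ/8`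
for all `Z = X/p ≥ Z₀` by `mean_le`. Case 2: `< K` for all `j`:
`‖c‖ ≤ ‖∏ G_j p‖ ‖c‖ + (1 - ∏ ‖G_j p‖)`, `1 - ∏ ‖G_j p‖ ≤ ∑_j (1 - ‖G_j p‖)`; `dil` and `transfer`
(`f j n = G (j+1) n.toNat`) bound the first part, and
`∑_m (1/m)(1/|PP m|) ∑_{p∈PP m} (1-‖G_j p‖) ≤ (2/c) ∑_{p ≤ 2^M'} (1-‖G_j p‖)/p ≤ (2/c) K`
since `m |PP m| ≥ c 2^m ≥ c p/2`.
-/

set_option autoImplicit false

open Filter Topology

namespace Pool.Agent.H68.OF

/-- list form of `SU` -/
lemma SU.suz {g : ArithmeticFunction ℂ} (hg : SU g) : SUZ (fun n : ℤ => g n.toNat) := by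
  intro l hl hn
  have hinj : Function.Injective (fun i : Fin l.length => l[i.1].1) := by
    intro i j hij
    have h1 : (l.map Prod.fst)[i.1]'(by simp) = (l.map Prod.fst)[j.1]'(by simp) := by
      simpa using hij
    have := (List.Nodup.getElem_inj_iff hn).1 h1
    exact Fin.ext this
  have h1 := hg l.length (fun i => l[i.1].1) (fun i => l[i.1].2) (List.length_pos_of_ne_nil hl) hinj
  refine h1.congr (fun N => ?_)
  congr 1
  apply Finset.sum_congr rfl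
  intro n _
  unfold pl
  exact Fin.prod_univ_fun_getElem l (fun x => if x.2 = true then
    (starRingEnd ℂ) (g ((n : ℤ) + x.1).toNat) else g ((n : ℤ) + x.1).toNat)

lemma propA_one_sub_prod {ι : Type} (s : Finset ι) (t : ι → ℝ) (h0 : ∀ i, 0 ≤ t i) (h1 : ∀ i, t i ≤ 1) :
    1 - ∏ i ∈ s, t i ≤ ∑ i ∈ s, (1 - t i) := by
  classical
  induction s using Finset.induction_on with
  | empty => simp
  | insert a s ha ih =>
    rw [Finset.prod_insert ha, Finset.sum_insert ha]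
    have hp0 : 0 ≤ ∏ i ∈ s, t i := Finset.prod_nonneg (fun i _ => h0 i)
    have hp1 : ∏ i ∈ s, t i ≤ 1 := Finset.prod_le_one (fun i _ => h0 i) (fun i _ => h1 i)
    nlinarith [h0 a, h1 a]

lemma propA_diverge (m₁ : ℕ) (A : ℝ) : ∃ N : ℕ, ∀ M', N ≤ M' →
    A ≤ ∑ m ∈ Finset.Ico m₁ M', (1 / (m : ℝ)) := by
  have h1 : Tendsto (fun n => ∑ i ∈ Finset.range n, (1 / (i : ℝ))) atTop atTop := by
    rw [← not_summable_iff_tendsto_nat_atTop_of_nonneg (fun n => by positivity)]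
    exact Real.not_summable_one_div_natCast
  obtain ⟨N, hN⟩ := (h1.eventually (eventually_ge_atTop
    (A + ∑ i ∈ Finset.range m₁, (1 / (i : ℝ))))).exists_forall_of_atTop
  refine ⟨max N m₁, fun M' hM' => ?_⟩
  have h2 := hN M' ((le_max_left _ _).trans hM')
  have h3 := Finset.sum_range_add_sum_Ico (fun i : ℕ => (1 / (i : ℝ))) ((le_max_right N m₁).trans hM')
  linarith

lemma propA_mem {m p : ℕ} (h : p ∈ PP m) : p.Prime ∧ 2 ^ m < p ∧ p ≤ 2 ^ (m + 1) := by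
  simp only [PP, Finset.mem_filter, Finset.mem_Ioc] at h
  exact ⟨h.2, h.1.1, h.1.2⟩

lemma propA_disj (m₁ M' : ℕ) : (↑(Finset.Ico m₁ M') : Set ℕ).PairwiseDisjoint PP := by
  intro a _ b _ hab
  rw [Function.onFun, Finset.disjoint_left]
  intro p hpa hpb
  have ha := propA_mem hpa
  have hb := propA_mem hpb
  rcases lt_or_gt_of_ne hab with h | h
  · have : 2 ^ (a + 1) ≤ 2 ^ b := Nat.pow_le_pow_right (by norm_num) h
    omega
  · have : 2 ^ (b + 1) ≤ 2 ^ a := Nat.pow_le_pow_right (by norm_num) h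
    omega

/-- few primes with `t p` far from one -/
lemma propA_third (c : ℝ) (hc : 0 < c) (hcard : ∀ m : ℕ, 1 ≤ m → c * 2 ^ m / m ≤ ((PP m).card : ℝ))
    (m₁ M' : ℕ) (hm₁ : 1 ≤ m₁) (t : ℕ → ℝ) (h0 : ∀ p, 0 ≤ t p) :
    ∑ m ∈ Finset.Ico m₁ M', (1 / (m : ℝ)) * ((1 / ((PP m).card : ℝ)) * ∑ p ∈ PP m, t p)
      ≤ (2 / c) * ∑ q ∈ (Finset.range (2 ^ M' + 1)).filter Nat.Prime, t q / q := by
  have hstep : ∀ m ∈ Finset.Ico m₁ M',
      (1 / (m : ℝ)) * ((1 / ((PP m).card : ℝ)) * ∑ p ∈ PP m, t p)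
        ≤ (2 / c) * ∑ p ∈ PP m, t p / p := by
    intro m hm
    rw [Finset.mem_Ico] at hm
    have hm1 : 1 ≤ m := hm₁.trans hm.1
    have hmr : (0 : ℝ) < m := by exact_mod_cast hm1
    have h1 := hcard m hm1
    have hcp : 0 < c * 2 ^ m / m := by positivity
    have hcardpos : (0 : ℝ) < (PP m).card := hcp.trans_le h1
    have h2 : (1 / (m : ℝ)) * (1 / ((PP m).card : ℝ)) ≤ 1 / (c * 2 ^ m) := by
      rw [one_div_mul_one_div, ]
      apply one_div_le_one_div_of_le (by positivity)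
      rw [div_le_iff₀ hmr] at h1
      linarith
    rw [← mul_assoc, Finset.mul_sum, Finset.mul_sum]
    apply Finset.sum_le_sum
    intro p hp
    obtain ⟨hpp, _, hple⟩ := propA_mem hp
    have hpr : (0 : ℝ) < p := by exact_mod_cast hpp.pos
    have hple' : (p : ℝ) ≤ 2 * 2 ^ m := by
      have : (p : ℝ) ≤ 2 ^ (m + 1) := by exact_mod_cast hple
      rw [pow_succ] at this
      linarith
    calc 1 / (m : ℝ) * (1 / ((PP m).card : ℝ)) * t p ≤ 1 / (c * 2 ^ m) * t p :=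
          mul_le_mul_of_nonneg_right h2 (h0 p)
      _ ≤ 2 / (c * p) * t p := by
          apply mul_le_mul_of_nonneg_right _ (h0 p)
          rw [div_le_div_iff₀ (by positivity) (by positivity)]
          nlinarith
      _ = 2 / c * (t p / p) := by field_simp
  calc ∑ m ∈ Finset.Ico m₁ M', (1 / (m : ℝ)) * ((1 / ((PP m).card : ℝ)) * ∑ p ∈ PP m, t p)
      ≤ ∑ m ∈ Finset.Ico m₁ M', (2 / c) * ∑ p ∈ PP m, t p / p := Finset.sum_le_sum hstep
    _ = (2 / c) * ∑ p ∈ (Finset.Ico m₁ M').biUnion PP, t p / p := by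
        rw [← Finset.mul_sum, Finset.sum_biUnion (propA_disj m₁ M')]
    _ ≤ _ := by
        apply mul_le_mul_of_nonneg_left _ (by positivity)
        apply Finset.sum_le_sum_of_subset_of_nonneg
        · intro p hp
          rw [Finset.mem_biUnion] at hp
          obtain ⟨m, hm, hp⟩ := hp
          rw [Finset.mem_Ico] at hm
          obtain ⟨hpp, _, hple⟩ := propA_mem hp
          rw [Finset.mem_filter, Finset.mem_range]
          have : 2 ^ (m + 1) ≤ 2 ^ M' := Nat.pow_le_pow_right (by norm_num) hm.2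
          exact ⟨by omega, hpp⟩
        · intro p _ _
          have := h0 p
          positivity

theorem propA (k : ℕ) (h : Fin (k + 1) → ℕ) (hne : ∀ j, j ≠ 0 → h j ≠ h 0)
    (g : ArithmeticFunction ℂ) (hbd : ∀ n, ‖g n‖ ≤ 1) (hSU : SU g) (δ : ℝ) (hδ : 0 < δ) :
    ∃ (m₁ M' X₀ : ℕ), 1 ≤ m₁ ∧ m₁ < M' ∧ ∀ X, X₀ ≤ X →
    ∀ (G : Fin (k + 1) → ArithmeticFunction ℂ), G 0 = g → (∀ i, (G i).IsMultiplicative) →
    (∀ i n, ‖G i n‖ ≤ 1) →
    ∑ m ∈ Finset.Ico m₁ M', (1 / (m : ℝ)) * ((1 / ((PP m).card : ℝ)) * ∑ p ∈ PP m,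
      ‖corN G h (X / p)‖) ≤ δ * ∑ m ∈ Finset.Ico m₁ M', (1 / (m : ℝ)) := by
  obtain ⟨c, hc, hcard⟩ := card_PP
  obtain ⟨m₀, hm₀⟩ := transfer k (h 0) (fun j => h j.succ) (fun j => hne j.succ (Fin.succ_ne_zero j))
    (fun n : ℤ => g n.toNat) (fun n => hbd _) hSU.suz (δ / 4) (by positivity)
  -- choice of the parameters
  set K : ℝ := 2 * Real.log (8 / δ) with hK
  have hKexp : Real.exp (-(1 / 2) * K) = δ / 8 := by
    rw [hK, show -(1 / 2) * (2 * Real.log (8 / δ)) = -Real.log (8 / δ) by ring, Real.exp_neg,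
      Real.exp_log (by positivity), inv_div]
  obtain ⟨m₂, hm₂⟩ : ∃ m₂ : ℕ, 2 * ((k : ℝ) + 1) * 8 / δ ≤ 2 ^ m₂ := by
    obtain ⟨n, hn⟩ := exists_nat_ge (2 * ((k : ℝ) + 1) * 8 / δ)
    refine ⟨n, hn.trans ?_⟩
    exact_mod_cast (Nat.lt_two_pow_self).le
  set m₁ : ℕ := max m₀ (max 1 m₂) with hm₁
  have hm₁1 : 1 ≤ m₁ := (le_max_left _ _).trans (le_max_right _ _)
  have hm₁2 : m₂ ≤ m₁ := (le_max_right _ _).trans (le_max_right _ _)
  obtain ⟨M₀, hM₀⟩ := hm₀ m₁ (le_max_left _ _)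
  obtain ⟨N, hN⟩ := propA_diverge m₁ ((2 / c) * ((k + 1) * K) * 8 / δ)
  set M' : ℕ := max M₀ (max N (m₁ + 1)) with hM'
  have hM'1 : m₁ < M' := lt_of_lt_of_le (Nat.lt_succ_self _) ((le_max_right _ _).trans (le_max_right _ _))
  have hL := hN M' ((le_max_left _ _).trans (le_max_right _ _))
  obtain ⟨X₁, hX₁⟩ := hM₀ M' (le_max_left _ _)
  obtain ⟨Z₀, hZ₀, hmean⟩ := mean_le (2 ^ M') (δ / 8) (by positivity)
  set L : ℝ := ∑ m ∈ Finset.Ico m₁ M', (1 / (m : ℝ)) with hLdef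
  have hL0 : 0 ≤ L := Finset.sum_nonneg (fun m _ => by positivity)
  refine ⟨m₁, M', max X₁ (max (2 ^ M' * (Z₀ + 1)) ⌈(2 * ((k : ℝ) + 1) + 1) * 2 ^ M' * 8 / δ⌉₊), hm₁1,
    hM'1, fun X hX G hG0 hGm hGb => ?_⟩
  have hXX₁ : X₁ ≤ X := (le_max_left _ _).trans hX
  have hX2 : 2 ^ M' * (Z₀ + 1) ≤ X := (le_max_left _ _).trans ((le_max_right _ _).trans hX)
  have hX3 : (2 * ((k : ℝ) + 1) + 1) * 2 ^ M' * 8 / δ ≤ X := by
    have h1 : ⌈(2 * ((k : ℝ) + 1) + 1) * 2 ^ M' * 8 / δ⌉₊ ≤ X :=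
      (le_max_right _ _).trans ((le_max_right _ _).trans hX)
    exact (Nat.le_ceil _).trans (by exact_mod_cast h1)
  have hXpos : 0 < X := lt_of_lt_of_le (by positivity) hX2
  have hXr : (0 : ℝ) < X := by exact_mod_cast hXpos
  have hcardpos : ∀ m, (0 : ℝ) < ((PP m).card : ℝ) := fun m => by exact_mod_cast card_PP_pos m
  -- a bound for each prime gives a bound for the sum
  have hsum_const : ∀ B : ℝ, (∀ m ∈ Finset.Ico m₁ M', ∀ p ∈ PP m, ‖corN G h (X / p)‖ ≤ B) →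
      ∑ m ∈ Finset.Ico m₁ M', (1 / (m : ℝ)) * ((1 / ((PP m).card : ℝ)) * ∑ p ∈ PP m,
      ‖corN G h (X / p)‖) ≤ B * L := by
    intro B hB
    rw [hLdef, Finset.mul_sum]
    apply Finset.sum_le_sum
    intro m hm
    have h1 : ∑ p ∈ PP m, ‖corN G h (X / p)‖ ≤ (PP m).card * B := by
      have := Finset.sum_le_card_nsmul (PP m) (fun p => ‖corN G h (X / p)‖) B (fun p hp => hB m hm p hp)
      simpa [nsmul_eq_mul] using this
    have h2 : (1 / ((PP m).card : ℝ)) * ∑ p ∈ PP m, ‖corN G h (X / p)‖ ≤ B := by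
      rw [one_div, inv_mul_eq_div, div_le_iff₀ (hcardpos m)]
      linarith
    calc 1 / (m : ℝ) * ((1 / ((PP m).card : ℝ)) * ∑ p ∈ PP m, ‖corN G h (X / p)‖)
        ≤ 1 / (m : ℝ) * B := by gcongr
      _ = B * (1 / (m : ℝ)) := by ring
  by_cases hcase : ∃ j, K ≤ ∑ q ∈ (Finset.range (2 ^ M' + 1)).filter Nat.Prime, (1 - ‖G j q‖) / q
  · obtain ⟨j, hj⟩ := hcase
    refine (hsum_const (δ / 4) ?_).trans ?_
    · intro m hm p hp
      rw [Finset.mem_Ico] at hm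
      obtain ⟨hpp, _, hple⟩ := propA_mem hp
      have hpM : p ≤ 2 ^ M' := hple.trans (Nat.pow_le_pow_right (by norm_num) hm.2)
      have hZ : Z₀ ≤ X / p := by
        rw [Nat.le_div_iff_mul_le hpp.pos]
        calc Z₀ * p ≤ (Z₀ + 1) * 2 ^ M' := Nat.mul_le_mul (Nat.le_succ _) hpM
          _ = 2 ^ M' * (Z₀ + 1) := by ring
          _ ≤ X := hX2
      have hZpos : (0 : ℝ) < ((X / p : ℕ) : ℝ) := by exact_mod_cast hZ₀.trans_le hZ
      have h1 := hmean (X / p) hZ (G j) (hGm j) (hGb j) (h j)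
      have h2 : Real.exp (-(1 / 2) * ∑ q ∈ (Finset.range (2 ^ M' + 1)).filter Nat.Prime,
          (1 - ‖G j q‖) / q) ≤ δ / 8 := by
        rw [← hKexp]
        apply Real.exp_le_exp.2
        linarith
      have h3 : ‖corN G h (X / p)‖ ≤ (1 / (((X / p : ℕ)) : ℝ)) *
          ∑ n ∈ Finset.Icc 1 (X / p), ‖G j (n + h j)‖ := by
        unfold corN
        rw [norm_mul, norm_div, norm_one, Complex.norm_natCast]
        apply mul_le_mul_of_nonneg_left _ (by positivity)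
        refine (norm_sum_le _ _).trans ?_
        apply Finset.sum_le_sum
        intro n _
        rw [norm_prod]
        calc ∏ i, ‖G i (n + h i)‖ = ‖G j (n + h j)‖ * ∏ i ∈ Finset.univ.erase j, ‖G i (n + h i)‖ :=
              (Finset.mul_prod_erase _ _ (Finset.mem_univ j)).symm
          _ ≤ ‖G j (n + h j)‖ * 1 := by
              apply mul_le_mul_of_nonneg_left _ (norm_nonneg _)
              exact Finset.prod_le_one (fun _ _ => norm_nonneg _) (fun i _ => hGb i _)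
          _ = _ := mul_one _
      linarith
    · nlinarith
  push Not at hcase
  -- second case
  set A : ℕ → ℝ := fun p => ‖(1 / (X : ℂ)) * ∑ n ∈ Finset.Icc 1 X, (dv p n : ℂ) *
    ∏ j, G j (n + p * h j)‖ with hA
  have htrans : ∑ m ∈ Finset.Ico m₁ M', (1 / (m : ℝ)) * ((1 / ((PP m).card : ℝ)) * ∑ p ∈ PP m, A p)
      ≤ δ / 4 * L := by
    have h1 := hX₁ X hXX₁ (fun j n => G j.succ n.toNat) (fun j n => hGb _ _)
    refine le_trans (le_of_eq ?_) h1
    apply Finset.sum_congr rfl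
    intro m _
    congr 2
    apply Finset.sum_congr rfl
    intro p _
    rw [hA]
    simp only
    congr 2
    apply Finset.sum_congr rfl
    intro n _
    congr 1
    rw [Fin.prod_univ_succ, hG0]
    congr 1
  have hpt : ∀ m ∈ Finset.Ico m₁ M', ∀ p ∈ PP m,
      ‖corN G h (X / p)‖ ≤ A p + δ / 4 + ∑ j, (1 - ‖G j p‖) := by
    intro m hm p hp
    rw [Finset.mem_Ico] at hm
    obtain ⟨hpp, hplt, hple⟩ := propA_mem hp
    have hpM : p ≤ 2 ^ M' := hple.trans (Nat.pow_le_pow_right (by norm_num) hm.2)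
    have hpr : (0 : ℝ) < p := by exact_mod_cast hpp.pos
    have h1 := dil G hGm hGb h p hpp X hXpos
    have h2 : ‖(∏ j, G j p) * corN G h (X / p)‖ ≤ A p + (2 * ((k + 1 : ℕ) : ℝ) / p
        + (2 * ((k + 1 : ℕ) : ℝ) + 1) * p / X) := by
      have h3 := norm_sub_norm_le ((∏ j, G j p) * corN G h (X / p))
        ((1 / (X : ℂ)) * ∑ n ∈ Finset.Icc 1 X, (dv p n : ℂ) * ∏ j, G j (n + p * h j))
      rw [norm_sub_rev] at h3
      rw [hA]
      simp only
      linarith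
    have h4 : 2 * ((k + 1 : ℕ) : ℝ) / p ≤ δ / 8 := by
      have hp2 : (2 : ℝ) ^ m₂ ≤ p := by
        have h5 : 2 ^ m₂ ≤ 2 ^ m := Nat.pow_le_pow_right (by norm_num) (hm₁2.trans hm.1)
        exact_mod_cast (h5.trans hplt.le)
      have h6 : 2 * ((k : ℝ) + 1) * 8 / δ ≤ p := hm₂.trans hp2
      rw [div_le_iff₀ hδ] at h6
      rw [div_le_iff₀ hpr]
      push_cast
      linarith
    have h5 : (2 * ((k + 1 : ℕ) : ℝ) + 1) * p / X ≤ δ / 8 := by
      have hp2 : (p : ℝ) ≤ 2 ^ M' := by exact_mod_cast hpM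
      rw [div_le_iff₀ hδ] at hX3
      rw [div_le_iff₀ hXr]
      push_cast
      have h7 : (2 * ((k : ℝ) + 1) + 1) * p ≤ (2 * ((k : ℝ) + 1) + 1) * 2 ^ M' := by gcongr
      linarith
    have hc1 : ‖corN G h (X / p)‖ ≤ 1 := by
      unfold corN
      rcases Nat.eq_zero_or_pos (X / p) with h0 | hZ
      · rw [h0]; simp
      rw [norm_mul, norm_div, norm_one, Complex.norm_natCast]
      have h1 : ‖∑ n ∈ Finset.Icc 1 (X / p), ∏ i, G i (n + h i)‖ ≤ ((X / p : ℕ) : ℝ) := by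
        refine (norm_sum_le _ _).trans ?_
        calc ∑ n ∈ Finset.Icc 1 (X / p), ‖∏ i, G i (n + h i)‖
            ≤ ∑ n ∈ Finset.Icc 1 (X / p), (1 : ℝ) := by
              apply Finset.sum_le_sum
              intro n _
              rw [norm_prod]
              exact Finset.prod_le_one (fun _ _ => norm_nonneg _) (fun i _ => hGb i _)
          _ = ((X / p : ℕ) : ℝ) := by simp
      have hZ' : (0 : ℝ) < ((X / p : ℕ) : ℝ) := by exact_mod_cast hZ
      calc 1 / ((X / p : ℕ) : ℝ) * ‖∑ n ∈ Finset.Icc 1 (X / p), ∏ i, G i (n + h i)‖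
          ≤ 1 / ((X / p : ℕ) : ℝ) * ((X / p : ℕ) : ℝ) := by gcongr
        _ = 1 := by field_simp
    have h6 : 1 - ‖∏ j, G j p‖ ≤ ∑ j, (1 - ‖G j p‖) := by
      rw [norm_prod]
      exact propA_one_sub_prod Finset.univ (fun j => ‖G j p‖) (fun _ => norm_nonneg _) (fun j => hGb j p)
    have h7 : ‖∏ j, G j p‖ ≤ 1 := by
      rw [norm_prod]
      exact Finset.prod_le_one (fun _ _ => norm_nonneg _) (fun i _ => hGb i _)
    rw [norm_mul] at h2
    have h8 : ‖corN G h (X / p)‖ ≤ ‖∏ j, G j p‖ * ‖corN G h (X / p)‖ + (1 - ‖∏ j, G j p‖) := by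
      nlinarith [norm_nonneg (corN G h (X / p))]
    linarith
  have hthird : ∑ m ∈ Finset.Ico m₁ M', (1 / (m : ℝ)) * ((1 / ((PP m).card : ℝ)) *
      ∑ p ∈ PP m, ∑ j, (1 - ‖G j p‖)) ≤ δ / 8 * L := by
    have h1 := propA_third c hc hcard m₁ M' hm₁1 (fun p => ∑ j, (1 - ‖G j p‖))
      (fun p => Finset.sum_nonneg (fun j _ => by linarith [hGb j p]))
    refine h1.trans ?_
    have h2 : ∑ q ∈ (Finset.range (2 ^ M' + 1)).filter Nat.Prime, (∑ j, (1 - ‖G j q‖)) / (q : ℝ)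
        ≤ (k + 1) * K := by
      calc ∑ q ∈ (Finset.range (2 ^ M' + 1)).filter Nat.Prime, (∑ j, (1 - ‖G j q‖)) / (q : ℝ)
          = ∑ j, ∑ q ∈ (Finset.range (2 ^ M' + 1)).filter Nat.Prime, (1 - ‖G j q‖) / q := by
            rw [Finset.sum_comm]
            apply Finset.sum_congr rfl
            intro q _
            rw [Finset.sum_div]
        _ ≤ ∑ _j : Fin (k + 1), K := Finset.sum_le_sum (fun j _ => (hcase j).le)
        _ = (k + 1) * K := by simp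
    have h3 : 2 / c * ((k + 1) * K) ≤ δ / 8 * L := by
      have h4 : (2 / c) * ((k + 1) * K) * 8 / δ ≤ L := hL
      rw [div_le_iff₀ hδ] at h4
      linarith
    have h5 : 0 ≤ 2 / c := by positivity
    nlinarith
  calc ∑ m ∈ Finset.Ico m₁ M', (1 / (m : ℝ)) * ((1 / ((PP m).card : ℝ)) * ∑ p ∈ PP m,
      ‖corN G h (X / p)‖)
      ≤ ∑ m ∈ Finset.Ico m₁ M', ((1 / (m : ℝ)) * ((1 / ((PP m).card : ℝ)) * ∑ p ∈ PP m, A p)
        + δ / 4 * (1 / (m : ℝ))
        + (1 / (m : ℝ)) * ((1 / ((PP m).card : ℝ)) * ∑ p ∈ PP m, ∑ j, (1 - ‖G j p‖))) := by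
        apply Finset.sum_le_sum
        intro m hm
        have h1 : ∑ p ∈ PP m, ‖corN G h (X / p)‖
            ≤ ∑ p ∈ PP m, A p + (PP m).card * (δ / 4) + ∑ p ∈ PP m, ∑ j, (1 - ‖G j p‖) := by
          calc ∑ p ∈ PP m, ‖corN G h (X / p)‖
              ≤ ∑ p ∈ PP m, (A p + δ / 4 + ∑ j, (1 - ‖G j p‖)) :=
                Finset.sum_le_sum (fun p hp => hpt m hm p hp)
            _ = _ := by
                rw [Finset.sum_add_distrib, Finset.sum_add_distrib, Finset.sum_const, nsmul_eq_mul]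
        have hcm := hcardpos m
        calc 1 / (m : ℝ) * (1 / ((PP m).card : ℝ) * ∑ p ∈ PP m, ‖corN G h (X / p)‖)
            ≤ 1 / (m : ℝ) * (1 / ((PP m).card : ℝ) * (∑ p ∈ PP m, A p + (PP m).card * (δ / 4)
              + ∑ p ∈ PP m, ∑ j, (1 - ‖G j p‖))) := by gcongr
          _ = _ := by field_simp
    _ = ∑ m ∈ Finset.Ico m₁ M', (1 / (m : ℝ)) * ((1 / ((PP m).card : ℝ)) * ∑ p ∈ PP m, A p)
        + δ / 4 * L + ∑ m ∈ Finset.Ico m₁ M', (1 / (m : ℝ)) * ((1 / ((PP m).card : ℝ)) *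
          ∑ p ∈ PP m, ∑ j, (1 - ‖G j p‖)) := by
        rw [Finset.sum_add_distrib, Finset.sum_add_distrib, ← Finset.mul_sum]
    _ ≤ δ / 4 * L + δ / 4 * L + δ / 8 * L := by gcongr
    _ ≤ δ * L := by nlinarith

end Pool.Agent.H68.OF
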