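import Pool.Agent.H68.OF.XX
import Pool.Agent.H5.PNT.PNT

/-!
Module CHEB: `|PP m| ≥ c 2^m / m` (Chebyshev). Search the team library (e.g. H3.WPrimes, H5, H33) for
a lower bound for the number of primes in `(x, 2x]`; otherwise from the central binomial coefficient
`C(2n,n) ≥ 4^n/(2n)` and Mathlib's Bertrand file (`Nat.centralBinom` factorization bounds:
primes in `(2n/3, n]` do not divide; prime powers at most `2n`; primorial `≤ 4^{2n/3}`).
-/

set_option autoImplicit false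

open Filter Topology

namespace Pool.Agent.H68.OF

lemma card_PP_pos (m : ℕ) : 0 < (PP m).card := by
  obtain ⟨p, hp, h1, h2⟩ := Nat.exists_prime_lt_and_le_two_mul (2 ^ m) (by positivity)
  refine Finset.card_pos.2 ⟨p, ?_⟩
  refine Finset.mem_filter.2 ⟨Finset.mem_Ioc.2 ⟨h1, ?_⟩, hp⟩
  rw [pow_succ, mul_comm]
  exact h2

lemma card_PP_le (m : ℕ) : (PP m).card ≤ 2 ^ m := by
  calc (PP m).card ≤ (Finset.Ioc (2 ^ m) (2 ^ (m + 1))).card := Finset.card_filter_le _ _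
    _ = 2 ^ m := by
      rw [Nat.card_Ioc, pow_succ]
      omega

lemma cheb_theta_diff (m : ℕ) : Chebyshev.theta ((2 ^ (m + 1) : ℕ) : ℝ)
    - Chebyshev.theta ((2 ^ m : ℕ) : ℝ) = ∑ p ∈ PP m, Real.log p := by
  unfold Chebyshev.theta PP
  rw [Nat.floor_natCast, Nat.floor_natCast, Finset.sum_filter, Finset.sum_filter,
    Finset.sum_filter]
  have h := Finset.sum_Ioc_consecutive (fun p : ℕ => if p.Prime then Real.log p else 0)
    (Nat.zero_le (2 ^ m)) (show 2 ^ m ≤ 2 ^ (m + 1) from Nat.pow_le_pow_right (by norm_num)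
      (Nat.le_succ m))
  linarith

lemma cheb_theta_le (m : ℕ) (hm : 1 ≤ m) : ∑ p ∈ PP m, Real.log p ≤ (PP m).card * (2 * m) := by
  have h1 : ∀ p ∈ PP m, Real.log p ≤ 2 * m := by
    intro p hp
    obtain ⟨h1, h2⟩ := Finset.mem_filter.1 hp
    have h3 := (Finset.mem_Ioc.1 h1).2
    have h4 : Real.log p ≤ Real.log ((2 : ℝ) ^ (m + 1)) :=
      Real.log_le_log (by exact_mod_cast h2.pos) (by exact_mod_cast h3)
    rw [Real.log_pow] at h4
    have h5 : Real.log 2 ≤ 1 := by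
      have := Real.log_two_lt_d9
      linarith
    have h6 : (1 : ℝ) ≤ m := by exact_mod_cast hm
    have h7 : ((m + 1 : ℕ) : ℝ) * Real.log 2 ≤ ((m + 1 : ℕ) : ℝ) * 1 :=
      mul_le_mul_of_nonneg_left h5 (Nat.cast_nonneg _)
    push_cast at h4 h7
    linarith
  calc ∑ p ∈ PP m, Real.log p ≤ ∑ _p ∈ PP m, (2 * m : ℝ) := Finset.sum_le_sum h1
    _ = (PP m).card * (2 * m) := by rw [Finset.sum_const, nsmul_eq_mul]

theorem card_PP : ∃ c : ℝ, 0 < c ∧ ∀ m : ℕ, 1 ≤ m → c * 2 ^ m / m ≤ ((PP m).card : ℝ) := by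
  have ht : Tendsto (fun m : ℕ => ((2 : ℝ) ^ m)) atTop atTop :=
    tendsto_pow_atTop_atTop_of_one_lt (by norm_num)
  have h1 : Tendsto (fun m : ℕ => Chebyshev.theta ((2 : ℝ) ^ m) / (2 : ℝ) ^ m) atTop (𝓝 1) :=
    Pool.Agent.H5.PNT.theta_tendsto.comp ht
  have h2 : Tendsto (fun m : ℕ => Chebyshev.theta ((2 : ℝ) ^ (m + 1)) / (2 : ℝ) ^ (m + 1))
      atTop (𝓝 1) := h1.comp (tendsto_add_atTop_nat 1)
  have h3 : Tendsto (fun m : ℕ => 2 * (Chebyshev.theta ((2 : ℝ) ^ (m + 1)) / (2 : ℝ) ^ (m + 1))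
      - Chebyshev.theta ((2 : ℝ) ^ m) / (2 : ℝ) ^ m) atTop (𝓝 (2 * 1 - 1)) :=
    (h2.const_mul 2).sub h1
  have h4 : ∀ᶠ m : ℕ in atTop, (1 / 2 : ℝ) < 2 * (Chebyshev.theta ((2 : ℝ) ^ (m + 1))
      / (2 : ℝ) ^ (m + 1)) - Chebyshev.theta ((2 : ℝ) ^ m) / (2 : ℝ) ^ m :=
    h3.eventually_const_lt (by norm_num)
  obtain ⟨m0, hm0⟩ := eventually_atTop.1 h4
  refine ⟨min (1 / 4) (1 / 2 ^ m0), by positivity, fun m hm => ?_⟩
  have hmR : (1 : ℝ) ≤ m := by exact_mod_cast hm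
  have h2m : (0 : ℝ) < 2 ^ m := by positivity
  rcases le_or_gt m0 m with hmm | hmm
  · have h5 := hm0 m hmm
    have h6 : 2 * (Chebyshev.theta ((2 : ℝ) ^ (m + 1)) / (2 : ℝ) ^ (m + 1))
        - Chebyshev.theta ((2 : ℝ) ^ m) / (2 : ℝ) ^ m
        = (∑ p ∈ PP m, Real.log p) / 2 ^ m := by
      rw [← cheb_theta_diff]
      push_cast
      rw [pow_succ]
      field_simp
    rw [h6, lt_div_iff₀ h2m] at h5
    have h7 := cheb_theta_le m hm
    rw [div_le_iff₀ (by linarith)]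
    calc min (1 / 4) (1 / 2 ^ m0) * (2 : ℝ) ^ m ≤ 1 / 4 * 2 ^ m :=
          mul_le_mul_of_nonneg_right (min_le_left _ _) h2m.le
      _ ≤ (PP m).card * m := by linarith
  · have h5 : (1 : ℝ) ≤ (PP m).card := by exact_mod_cast card_PP_pos m
    refine le_trans ?_ h5
    rw [div_le_iff₀ (by linarith)]
    calc min (1 / 4) (1 / 2 ^ m0) * (2 : ℝ) ^ m ≤ 1 / 2 ^ m0 * 2 ^ m :=
          mul_le_mul_of_nonneg_right (min_le_right _ _) h2m.le
      _ ≤ 1 := by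
          rw [div_mul_eq_mul_div, one_mul, div_le_one (by positivity)]
          exact pow_le_pow_right₀ (by norm_num) hmm.le
      _ ≤ 1 * m := by linarith

end Pool.Agent.H68.OF
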