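import Pool.Agent.H68.OF.CSi
import Pool.Agent.H68.OF.Cheb

/-!
Module CSF: the form used later. With `P = PP m` (as integers), `R = 2^m`, `l = [(0, false)]`, after
translating by `-p h₀`, `c j = h j - h₀ ≠ 0`: `(‖S‖/|PP m|)^{2^k} ≤ K (2^{m+1})^{2^k-2} |PP m| / |PP m|^{2^k}`,
and `|PP m| ≥ c 2^m/m` gives `≤ K' m^{2^k} / 2^m → 0` (for `k ≥ 1`; for `k = 0` the left side is `0`).
-/

set_option autoImplicit false

open Filter Topology

namespace Pool.Agent.H68.OF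

/-- the number of primes beats the loss -/
lemma csf_large (c K ε : ℝ) (hc : 0 < c) (hK : 0 ≤ K) (hε : 0 < ε) (n : ℕ) (hn : 2 ≤ n) :
    ∃ m₀ : ℕ, 1 ≤ m₀ ∧ ∀ m, m₀ ≤ m →
      K * (2 * (2 : ℝ) ^ m) ^ (n - 2) ≤ ε ^ n * (c * 2 ^ m / m) ^ (n - 1) := by
  have h1 : Filter.Tendsto (fun m : ℕ => (m : ℝ) ^ (n - 1) / (2 : ℝ) ^ m) Filter.atTop (𝓝 0) :=
    tendsto_pow_const_div_const_pow_of_one_lt (n - 1) (by norm_num)
  have hδ : 0 < ε ^ n * c ^ (n - 1) / (K * 2 ^ (n - 2) + 1) := by positivity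
  have h2 := h1.eventually (gt_mem_nhds hδ)
  rw [Filter.eventually_atTop] at h2
  obtain ⟨m₁, hm₁⟩ := h2
  refine ⟨max m₁ 1, le_max_right _ _, ?_⟩
  intro m hm
  have hm1 : 1 ≤ m := (le_max_right _ _).trans hm
  have hmR : (0 : ℝ) < m := by exact_mod_cast hm1
  have h3 := hm₁ m ((le_max_left _ _).trans hm)
  rw [div_lt_div_iff₀ (by positivity) (by positivity)] at h3
  obtain ⟨j, rfl⟩ : ∃ j, n = j + 2 := ⟨n - 2, by omega⟩
  have e1 : j + 2 - 2 = j := by omega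
  have e2 : j + 2 - 1 = j + 1 := by omega
  rw [e1, e2] at h3 ⊢
  rw [div_pow, ← mul_div_assoc, le_div_iff₀ (by positivity)]
  have h4 : K * 2 ^ j * (m : ℝ) ^ (j + 1) ≤ ε ^ (j + 2) * c ^ (j + 1) * 2 ^ m := by
    have : K * 2 ^ j * (m : ℝ) ^ (j + 1) ≤ (m : ℝ) ^ (j + 1) * (K * 2 ^ j + 1) := by
      have : 0 ≤ (m : ℝ) ^ (j + 1) := by positivity
      linarith
    linarith
  calc K * (2 * (2 : ℝ) ^ m) ^ j * (m : ℝ) ^ (j + 1)
      = (K * 2 ^ j * (m : ℝ) ^ (j + 1)) * ((2 : ℝ) ^ m) ^ j := by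
        rw [mul_pow]
        ring
    _ ≤ (ε ^ (j + 2) * c ^ (j + 1) * 2 ^ m) * ((2 : ℝ) ^ m) ^ j :=
        mul_le_mul_of_nonneg_right h4 (by positivity)
    _ = ε ^ (j + 2) * (c * 2 ^ m) ^ (j + 1) := by
        rw [mul_pow, pow_succ ((2 : ℝ) ^ m) j]
        ring

theorem cs_final (k h₀ : ℕ) (h : Fin k → ℕ) (hne : ∀ j, h j ≠ h₀) (ε : ℝ) (hε : 0 < ε) :
    ∃ m₀ : ℕ, ∀ m, m₀ ≤ m → ∀ (M : Mn) (g : ℤ → ℂ), (∀ n, ‖g n‖ ≤ 1) → SUM M g →
    ∀ (f : Fin k → Om → ℂ), (∀ j w, ‖f j w‖ ≤ 1) → ∀ (a : ℕ → ℂ), (∀ p, ‖a p‖ ≤ 1) →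
    ‖∑ p ∈ PP m, a p * M.Ec (fun w => g (w.2 + p * h₀) * ∏ j, f j (tr (p * h j) w))‖
      ≤ ε * (PP m).card := by
  classical
  obtain ⟨c, hc, hcard⟩ := card_PP
  obtain ⟨K, hK0, hK⟩ := cs_ind k 1
  -- rewriting of the sum
  have hre : ∀ (m : ℕ) (M : Mn) (g : ℤ → ℂ), (∀ n, ‖g n‖ ≤ 1) →
      ∀ (f : Fin k → Om → ℂ), (∀ j w, ‖f j w‖ ≤ 1) → ∀ (a : ℕ → ℂ),
      ∑ p ∈ PP m, a p * M.Ec (fun w => g (w.2 + p * h₀) * ∏ j, f j (tr (p * h j) w)) =
      ∑ p ∈ (PP m).map Nat.castEmbedding, a p.toNat *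
        M.Ec (fun w => pl g [(0, false)] w.2 * ∏ j, f j (tr (p * ((h j : ℤ) - h₀)) w)) := by
    intro m M g hg f hf a
    rw [Finset.sum_map]
    refine Finset.sum_congr rfl (fun p _ => ?_)
    have e0 : ((Nat.castEmbedding p : ℤ)) = (p : ℤ) := rfl
    rw [e0, Int.toNat_natCast]
    congr 1
    have hb : BddC (fun w => g (w.2 + p * h₀) * ∏ j, f j (tr (p * h j) w)) := by
      refine BddC.mul ⟨1, fun w => hg _⟩ ?_
      exact BddC.prod Finset.univ (fun j _ => BddC.tr ⟨1, hf j⟩ _)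
    rw [← Ec_tr M hb (-(p * h₀))]
    congr 1
    funext w
    have e1 : (tr (-((p : ℤ) * h₀)) w).2 + p * h₀ = w.2 := by
      rw [tr_snd]
      ring
    have e2 : ∀ j, tr ((p : ℤ) * h j) (tr (-((p : ℤ) * h₀)) w) = tr (p * ((h j : ℤ) - h₀)) w := by
      intro j
      rw [tr_tr]
      congr 1
      ring
    simp only [e1, e2]
    simp [pl]
  rcases Nat.eq_zero_or_pos k with hk | hk
  · subst hk
    refine ⟨0, ?_⟩
    intro m _ M g hg hM f hf a ha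
    rw [hre m M g hg f hf a, csi_zero M g hM [(0, false)] (by simp) (by simp), norm_zero]
    positivity
  · set n : ℕ := 2 ^ k with hndef
    have hn2 : 2 ≤ n := by
      rw [hndef]
      calc 2 = 2 ^ 1 := rfl
        _ ≤ 2 ^ k := Nat.pow_le_pow_right (by norm_num) hk
    obtain ⟨m₀, hm₀, hlarge⟩ := csf_large c K ε hc hK0 hε n hn2
    refine ⟨m₀, ?_⟩
    intro m hm M g hg hM f hf a ha
    have hm1 : 1 ≤ m := hm₀.trans hm
    rw [hre m M g hg f hf a]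
    have hP : ∀ p ∈ (PP m).map (Nat.castEmbedding : ℕ ↪ ℤ),
        ∀ q ∈ (PP m).map (Nat.castEmbedding : ℕ ↪ ℤ), |p - q| < ((2 ^ m : ℕ) : ℤ) := by
      intro p hp q hq
      rw [Finset.mem_map] at hp hq
      obtain ⟨p, hp, rfl⟩ := hp
      obtain ⟨q, hq, rfl⟩ := hq
      rw [PP, Finset.mem_filter, Finset.mem_Ioc] at hp hq
      have e : 2 ^ (m + 1) = 2 * 2 ^ m := by ring
      rw [e] at hp hq
      change |(p : ℤ) - (q : ℤ)| < _
      rw [abs_lt]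
      constructor <;> omega
    have h1 := hK M g hg hM [(0, false)] (by simp) (by simp) (by simp) (2 ^ m)
      Nat.one_le_two_pow ((PP m).map Nat.castEmbedding) hP (fun j => (h j : ℤ) - h₀)
      (fun j hj => hne j (by
        have : (h j : ℤ) = h₀ := sub_eq_zero.1 hj
        exact_mod_cast this)) (fun p => a p.toNat) (fun p => ha _) f hf
    rw [Finset.card_map] at h1
    have hcp : (0 : ℝ) < (PP m).card := by exact_mod_cast card_PP_pos m
    have hε0 : (0 : ℝ) ≤ ε * (PP m).card := by positivity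
    refine le_of_pow_le_pow_left₀ (n := n) (by omega) hε0 ?_
    refine h1.trans ?_
    have h2 := hlarge m hm
    have h3 := hcard m hm1
    have hmR : (0 : ℝ) < m := by exact_mod_cast hm1
    push_cast
    have h4 : (c * 2 ^ m / m) ^ (n - 1) ≤ ((PP m).card : ℝ) ^ (n - 1) :=
      pow_le_pow_left₀ (by positivity) h3 _
    have h5 : ((PP m).card : ℝ) ^ n = (PP m).card * ((PP m).card : ℝ) ^ (n - 1) := by
      rw [← pow_succ']
      congr 1
      omega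
    calc K * ((PP m).card : ℝ) * (2 * (2 : ℝ) ^ m) ^ (n - 2)
        = (PP m).card * (K * (2 * (2 : ℝ) ^ m) ^ (n - 2)) := by ring
      _ ≤ (PP m).card * (ε ^ n * (c * 2 ^ m / m) ^ (n - 1)) :=
          mul_le_mul_of_nonneg_left h2 hcp.le
      _ ≤ (PP m).card * (ε ^ n * ((PP m).card : ℝ) ^ (n - 1)) := by
          refine mul_le_mul_of_nonneg_left ?_ hcp.le
          exact mul_le_mul_of_nonneg_left h4 (by positivity)
      _ = (ε * (PP m).card) ^ n := by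
          rw [mul_pow, h5]
          ring

end Pool.Agent.H68.OF
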