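import Pool.Agent.H68.OF.Ent
import Pool.Agent.H68.OF.CSf
import Pool.Agent.H68.OF.Rou

/-!
Module CORE: combination for an invariant mean.

`F_p(w) = g(w.2 + p h₀) ∏ f_j(tr(p h_j) w)`. Split `dv p = (dv p - 1) + 1`. The part with `1` is
`≤ δ/4` per level by `cs_final`. Rounding (`exists_round ε'`): `ξ(w) = (r (g w.2), (r (f_j w))_j)`, alphabet
`Fin n × (Fin k → Fin n)`, `F̃_p` = product of the rounded values at the same places,
`‖F_p - F̃_p‖ ≤ (k+1) ε'`, `φ m p w = Re (a p * F̃_p w)`, `D = h₀ + ∑ h_j` (places `p h_j ≤ D 2^{m+1}`).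
`η m = max 0 ((1/|PP m|) ∑_p E[(dv p - 1) φ m p])`, error `2(k+1) ε'` from rounding
(`E dv p = 1`, `E |dv p - 1| ≤ 2`). `ent` and Cauchy-Schwarz:
`∑ η m / m ≤ (∑ 1/m)^{1/2} (C log |S|)^{1/2} ≤ (δ/4) ∑ 1/m` when `∑ 1/m ≥ 16 C log|S| / δ²`; the harmonic
sum over `Ico m₁ M'` tends to infinity with `M'`.
-/

set_option autoImplicit false

open Filter Topology

namespace Pool.Agent.H68.OF

lemma core_E_dv (M : Mn) (p : ℕ) (hp : 0 < p) : M.E (fun w => dv p w.2) = 1 := by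
  rw [E_per M p hp (dv p) (dv_period p)]
  have h := sum_dv p hp 0
  simp only [zero_add] at h
  rw [h]
  have hp' : (p : ℝ) ≠ 0 := by exact_mod_cast hp.ne'
  field_simp

lemma core_dv_nonneg (p : ℕ) (n : ℤ) : 0 ≤ dv p n := by
  unfold dv
  split_ifs
  · exact Nat.cast_nonneg p
  · exact le_rfl

lemma core_bdd_dv (p : ℕ) : Bdd (fun w => dv p w.2) := by
  refine ⟨p, fun w => ?_⟩
  rw [abs_of_nonneg (core_dv_nonneg p w.2)]
  unfold dv
  split_ifs
  · exact le_rfl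
  · exact Nat.cast_nonneg p

lemma core_dv_le (M : Mn) (p : ℕ) (hp : 0 < p) {u v : Om → ℝ} (hu : Bdd u) (hv : Bdd v) (c : ℝ)
    (h : ∀ w, |u w - v w| ≤ c) :
    M.E (fun w => (dv p w.2 - 1) * u w) ≤ M.E (fun w => (dv p w.2 - 1) * v w) + 2 * c := by
  have hd : Bdd (fun w => dv p w.2 - 1) := (core_bdd_dv p).sub (Bdd.const 1)
  have hd2 : Bdd (fun w => c * (dv p w.2 + 1)) :=
    (Bdd.const c).mul ((core_bdd_dv p).add (Bdd.const 1))
  have h1 : M.E (fun w => (dv p w.2 - 1) * u w) ≤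
      M.E (fun w => (dv p w.2 - 1) * v w + c * (dv p w.2 + 1)) := by
    refine E_mono M (hd.mul hu) ((hd.mul hv).add hd2) (fun w => ?_)
    have h2 := h w
    have h3 := core_dv_nonneg p w.2
    have h4 : |(dv p w.2 - 1) * (u w - v w)| ≤ (dv p w.2 + 1) * c := by
      rw [abs_mul]
      apply mul_le_mul _ h2 (abs_nonneg _) (by linarith)
      rw [abs_le]
      constructor <;> linarith
    have h5 := (abs_le.1 h4).2
    nlinarith
  have h2 : M.E (fun w => (dv p w.2 - 1) * v w + c * (dv p w.2 + 1)) =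
      M.E (fun w => (dv p w.2 - 1) * v w) + c * (1 + 1) := by
    rw [M.add' _ _ (hd.mul hv) hd2, M.smul' c _ ((core_bdd_dv p).add (Bdd.const 1)),
      M.add' _ _ (core_bdd_dv p) (Bdd.const 1), core_E_dv M p hp, E_const]
  linarith

/-- the product in the statement -/
noncomputable def coreF {k : ℕ} (h₀ : ℕ) (h : Fin k → ℕ) (g : ℤ → ℂ) (f : Fin k → Om → ℂ) (p : ℕ)
    (w : Om) : ℂ := g (w.2 + p * h₀) * ∏ j, f j (tr (p * h j) w)

lemma coreF_norm {k : ℕ} (h₀ : ℕ) (h : Fin k → ℕ) (g : ℤ → ℂ) (f : Fin k → Om → ℂ)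
    (hg : ∀ n, ‖g n‖ ≤ 1) (hf : ∀ j w, ‖f j w‖ ≤ 1) (p : ℕ) (w : Om) :
    ‖coreF h₀ h g f p w‖ ≤ 1 := by
  unfold coreF
  rw [norm_mul, norm_prod]
  have h1 : ∏ j, ‖f j (tr (p * h j) w)‖ ≤ 1 :=
    Finset.prod_le_one (fun _ _ => norm_nonneg _) (fun j _ => hf j _)
  calc ‖g (w.2 + p * h₀)‖ * ∏ j, ‖f j (tr (p * h j) w)‖ ≤ 1 * 1 :=
        mul_le_mul (hg _) h1 (Finset.prod_nonneg fun _ _ => norm_nonneg _) zero_le_one
    _ = 1 := one_mul 1

lemma coreF_close {k : ℕ} (h₀ : ℕ) (h : Fin k → ℕ) (g g' : ℤ → ℂ) (f f' : Fin k → Om → ℂ)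
    (hg : ∀ n, ‖g n‖ ≤ 1) (hf : ∀ j w, ‖f j w‖ ≤ 1) (hf' : ∀ j w, ‖f' j w‖ ≤ 1) (ε : ℝ)
    (hgc : ∀ n, ‖g' n - g n‖ ≤ ε) (hfc : ∀ j w, ‖f' j w - f j w‖ ≤ ε) (p : ℕ) (w : Om) :
    ‖coreF h₀ h g f p w - coreF h₀ h g' f' p w‖ ≤ (k + 1) * ε := by
  unfold coreF
  have h1 : g (w.2 + p * h₀) * ∏ j, f j (tr (p * h j) w) -
      g' (w.2 + p * h₀) * ∏ j, f' j (tr (p * h j) w) =
      g (w.2 + p * h₀) * (∏ j, f j (tr (p * h j) w) - ∏ j, f' j (tr (p * h j) w)) +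
      (g (w.2 + p * h₀) - g' (w.2 + p * h₀)) * ∏ j, f' j (tr (p * h j) w) := by ring
  have h2 : ‖∏ j, f j (tr (p * h j) w) - ∏ j, f' j (tr (p * h j) w)‖ ≤ k * ε := by
    apply norm_prod_sub_prod_le _ _ (fun j => hf j _) (fun j => hf' j _)
    intro j
    rw [norm_sub_rev]
    exact hfc j _
  have h3 : ‖∏ j, f' j (tr (p * h j) w)‖ ≤ 1 := by
    rw [norm_prod]
    exact Finset.prod_le_one (fun _ _ => norm_nonneg _) (fun j _ => hf' j _)
  have h4 : ‖g (w.2 + p * h₀) - g' (w.2 + p * h₀)‖ ≤ ε := by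
    rw [norm_sub_rev]
    exact hgc _
  have hε : 0 ≤ ε := (norm_nonneg _).trans h4
  rw [h1]
  refine (norm_add_le _ _).trans ?_
  rw [norm_mul, norm_mul]
  have h5 : ‖g (w.2 + p * h₀)‖ * ‖∏ j, f j (tr (p * h j) w) - ∏ j, f' j (tr (p * h j) w)‖ ≤
      1 * (k * ε) := mul_le_mul (hg _) h2 (norm_nonneg _) zero_le_one
  have h6 : ‖g (w.2 + p * h₀) - g' (w.2 + p * h₀)‖ * ‖∏ j, f' j (tr (p * h j) w)‖ ≤ ε * 1 :=
    mul_le_mul h4 h3 (norm_nonneg _) hε
  linarith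

/-- the real part of the mean with the factor `dv p` -/
lemma core_split (M : Mn) (p : ℕ) (c : ℂ) {F : Om → ℂ} (hF : BddC F) :
    (c * M.Ec (fun w => (dv p w.2 : ℂ) * F w)).re =
      M.E (fun w => (dv p w.2 - 1) * (c * F w).re) + (c * M.Ec F).re := by
  have hd : Bdd (fun w => dv p w.2 - 1) := (core_bdd_dv p).sub (Bdd.const 1)
  have hdC : BddC (fun w => (dv p w.2 : ℂ)) := by
    obtain ⟨C, hC⟩ := core_bdd_dv p
    refine ⟨C, fun w => ?_⟩
    rw [Complex.norm_real, Real.norm_eq_abs]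
    exact hC w
  have hcF : BddC (fun w => c * F w) := (BddC.const c).mul hF
  rw [← Ec_smul M c (hdC.mul hF), ← Ec_smul M c hF, re_Ec, re_Ec,
    ← M.add' _ _ (hd.mul hcF.re) hcF.re]
  congr 1
  funext w
  have h1 : c * ((dv p w.2 : ℂ) * F w) = ((dv p w.2 : ℝ) : ℂ) * (c * F w) := by ring
  rw [h1, Complex.re_ofReal_mul]
  ring

lemma core_harm (m₁ : ℕ) (B : ℝ) : ∃ M₀ : ℕ, m₁ ≤ M₀ ∧ ∀ M', M₀ ≤ M' →
    B ≤ ∑ m ∈ Finset.Ico m₁ M', (1 / (m : ℝ)) := by
  have h1 : Tendsto (fun n : ℕ => ∑ i ∈ Finset.range n, (1 / (i : ℝ))) atTop atTop := by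
    rw [← not_summable_iff_tendsto_nat_atTop_of_nonneg (fun i => by positivity)]
    exact Real.not_summable_one_div_natCast
  have h2 := (h1.eventually (eventually_ge_atTop (B + ∑ i ∈ Finset.range m₁, (1 / (i : ℝ)))))
  rw [eventually_atTop] at h2
  obtain ⟨N, hN⟩ := h2
  refine ⟨max m₁ N, le_max_left _ _, fun M' hM' => ?_⟩
  have h3 := hN M' ((le_max_right _ _).trans hM')
  rw [Finset.sum_Ico_eq_sub _ ((le_max_left _ _).trans hM')]
  linarith

theorem core (k h₀ : ℕ) (h : Fin k → ℕ) (hne : ∀ j, h j ≠ h₀) (δ : ℝ) (hδ : 0 < δ) :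
    ∃ m₀ : ℕ, ∀ m₁, m₀ ≤ m₁ → ∃ M₀ : ℕ, ∀ M', M₀ ≤ M' → ∀ (M : Mn) (g : ℤ → ℂ),
    (∀ n, ‖g n‖ ≤ 1) → SUM M g → ∀ (f : Fin k → Om → ℂ), (∀ j w, ‖f j w‖ ≤ 1) →
    ∀ (a : ℕ → ℂ), (∀ p, ‖a p‖ ≤ 1) →
    ∑ m ∈ Finset.Ico m₁ M', (1 / (m : ℝ)) * ((1 / ((PP m).card : ℝ)) * ∑ p ∈ PP m,
      (a p * M.Ec (fun w => (dv p w.2 : ℂ) *
        (g (w.2 + p * h₀) * ∏ j, f j (tr (p * h j) w)))).re)
      ≤ δ * ∑ m ∈ Finset.Ico m₁ M', (1 / (m : ℝ)) := by
  obtain ⟨ε, hε, hεδ⟩ : ∃ ε : ℝ, 0 < ε ∧ 2 * ((k + 1) * ε) ≤ δ / 4 := by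
    refine ⟨δ / (8 * (k + 1)), by positivity, le_of_eq ?_⟩
    field_simp
    ring
  obtain ⟨n, e, r, hn, he, hr⟩ := exists_round ε hε
  set D : ℕ := h₀ + ∑ j, h j with hD
  obtain ⟨C, hC, hent⟩ := ent D
  obtain ⟨m₀, hcs⟩ := cs_final k h₀ h hne (δ / 4) (by positivity)
  have hFin : Nonempty (Fin n) := ⟨⟨0, hn⟩⟩
  set L : ℝ := Real.log (Fintype.card (Fin n × (Fin k → Fin n))) with hL
  refine ⟨max 1 m₀, fun m₁ hm₁ => ?_⟩
  obtain ⟨M₀, hM₀, hharm⟩ := core_harm m₁ (4 * (C * L) / δ ^ 2)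
  refine ⟨M₀, fun M' hM' M g hg hSU f hf a ha => ?_⟩
  have hm1 : 1 ≤ m₁ := (le_max_left _ _).trans hm₁
  have hm2 : m₀ ≤ m₁ := (le_max_right _ _).trans hm₁
  set H : ℝ := ∑ m ∈ Finset.Ico m₁ M', (1 / (m : ℝ)) with hH
  have hHB : 4 * (C * L) / δ ^ 2 ≤ H := hharm M' hM'
  -- rounding
  set g' : ℤ → ℂ := fun n => e (r (g n)) with hg'
  set f' : Fin k → Om → ℂ := fun j w => e (r (f j w)) with hf'
  set ξ : Om → Fin n × (Fin k → Fin n) := fun w => (r (g w.2), fun j => r (f j w)) with hξ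
  have hg'1 : ∀ n, ‖g' n‖ ≤ 1 := fun n => he _
  have hf'1 : ∀ j w, ‖f' j w‖ ≤ 1 := fun j w => he _
  set φ₀ : ℕ → Om → ℝ := fun p w => (a p * coreF h₀ h g' f' p w).re with hφ₀
  have hφ₀1 : ∀ p w, |φ₀ p w| ≤ 1 := by
    intro p w
    refine (Complex.abs_re_le_norm _).trans ?_
    rw [norm_mul]
    calc ‖a p‖ * ‖coreF h₀ h g' f' p w‖ ≤ 1 * 1 :=
          mul_le_mul (ha p) (coreF_norm h₀ h g' f' hg'1 hf'1 p w) (norm_nonneg _) zero_le_one
      _ = 1 := one_mul 1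
  set sm : ℕ → ℝ := fun m => ∑ p ∈ PP m, M.E (fun w => (dv p w.2 - 1) * φ₀ p w) with hsm
  set φ : ℕ → ℕ → Om → ℝ := fun m p w => if 0 ≤ sm m then φ₀ p w else 0 with hφ
  set η : ℕ → ℝ := fun m => max 0 (sm m / (PP m).card) with hη
  have hcard : ∀ m, (0 : ℝ) < (PP m).card := fun m => by exact_mod_cast card_PP_pos m
  have hη0 : ∀ m, 0 ≤ η m := fun m => le_max_left _ _
  have hppos : ∀ m, ∀ p ∈ PP m, 0 < p := by
    intro m p hp
    unfold PP at hp
    exact (Finset.mem_filter.1 hp).2.pos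
  have hentb : ∑ m ∈ Finset.Ico m₁ M', η m ^ 2 / (m : ℝ) ≤ C * L := by
    refine hent M (Fin n × (Fin k → Fin n)) ξ m₁ M' hm1 φ ?_ ?_ η hη0 ?_
    · intro m p w
      simp only [hφ]
      split_ifs
      · exact hφ₀1 p w
      · rw [abs_zero]
        exact zero_le_one
    · intro m p hp w w' hww
      have hp2 : p ≤ 2 ^ (m + 1) := by
        unfold PP at hp
        exact (Finset.mem_Ioc.1 (Finset.mem_filter.1 hp).1).2
      have e0 : ξ (tr ((p * h₀ : ℕ) : ℤ) w) = ξ (tr ((p * h₀ : ℕ) : ℤ) w') := by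
        apply hww
        calc p * h₀ ≤ 2 ^ (m + 1) * D := Nat.mul_le_mul hp2 (by rw [hD]; omega)
          _ = D * 2 ^ (m + 1) := Nat.mul_comm _ _
      have ej : ∀ j, ξ (tr ((p * h j : ℕ) : ℤ) w) = ξ (tr ((p * h j : ℕ) : ℤ) w') := by
        intro j
        apply hww
        have h7 : h j ≤ ∑ i, h i := Finset.single_le_sum (f := h) (fun _ _ => Nat.zero_le _)
          (Finset.mem_univ j)
        calc p * h j ≤ 2 ^ (m + 1) * D := Nat.mul_le_mul hp2 (by rw [hD]; omega)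
          _ = D * 2 ^ (m + 1) := Nat.mul_comm _ _
      have e1 : coreF h₀ h g' f' p w = coreF h₀ h g' f' p w' := by
        unfold coreF
        congr 1
        · have h8 := congrArg Prod.fst e0
          simp only [hξ, tr_snd] at h8
          push_cast at h8
          simp only [hg']
          rw [h8]
        · apply Finset.prod_congr rfl
          intro j _
          have h8 := congrFun (congrArg Prod.snd (ej j)) j
          simp only [hξ] at h8
          push_cast at h8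
          simp only [hf']
          rw [h8]
      simp only [hφ, hφ₀]
      rw [e1]
    · intro m _
      have h9 : ∑ p ∈ PP m, M.E (fun w => (dv p w.2 - 1) * φ m p w) = max 0 (sm m) := by
        by_cases hs : 0 ≤ sm m
        · rw [max_eq_right hs]
          simp only [hφ, if_pos hs]
          rfl
        · rw [max_eq_left (not_le.1 hs).le]
          simp only [hφ, if_neg hs, mul_zero]
          rw [Finset.sum_congr rfl (fun p _ => E_const M 0)]
          simp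
      rw [h9]
      simp only [hη]
      rw [max_mul_of_nonneg _ _ (hcard m).le, zero_mul, div_mul_cancel₀ _ (hcard m).ne']
  -- every level
  have hlevel : ∀ m ∈ Finset.Ico m₁ M', (1 / ((PP m).card : ℝ)) * ∑ p ∈ PP m,
      (a p * M.Ec (fun w => (dv p w.2 : ℂ) *
        (g (w.2 + p * h₀) * ∏ j, f j (tr (p * h j) w)))).re ≤ η m + δ / 2 := by
    intro m hm
    have hm' := Finset.mem_Ico.1 hm
    have hFb : ∀ p, BddC (coreF h₀ h g f p) := fun p => ⟨1, coreF_norm h₀ h g f hg hf p⟩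
    have h1 : ∀ p ∈ PP m, (a p * M.Ec (fun w => (dv p w.2 : ℂ) *
        (g (w.2 + p * h₀) * ∏ j, f j (tr (p * h j) w)))).re ≤
        M.E (fun w => (dv p w.2 - 1) * φ₀ p w) + δ / 4 +
          (a p * M.Ec (fun w => g (w.2 + p * h₀) * ∏ j, f j (tr (p * h j) w))).re := by
      intro p hp
      have h2 := core_split M p (a p) (hFb p)
      have h3 := core_dv_le M p (hppos m p hp) (u := fun w => (a p * coreF h₀ h g f p w).re)
        (v := φ₀ p) ((BddC.const (a p)).mul (hFb p)).re ⟨1, hφ₀1 p⟩ ((k + 1) * ε) (by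
          intro w
          have h4 : (a p * coreF h₀ h g f p w).re - φ₀ p w =
              (a p * (coreF h₀ h g f p w - coreF h₀ h g' f' p w)).re := by
            simp only [hφ₀]
            rw [← Complex.sub_re, mul_sub]
          rw [h4]
          refine (Complex.abs_re_le_norm _).trans ?_
          rw [norm_mul]
          have h5 := coreF_close h₀ h g g' f f' hg hf hf'1 ε
            (fun n => hr _ (hg n)) (fun j w => hr _ (hf j w)) p w
          calc ‖a p‖ * ‖coreF h₀ h g f p w - coreF h₀ h g' f' p w‖ ≤ 1 * ((k + 1) * ε) :=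
                mul_le_mul (ha p) h5 (norm_nonneg _) zero_le_one
            _ = (k + 1) * ε := one_mul _)
      have h6 : (a p * M.Ec (fun w => (dv p w.2 : ℂ) *
        (g (w.2 + p * h₀) * ∏ j, f j (tr (p * h j) w)))).re =
          M.E (fun w => (dv p w.2 - 1) * (a p * coreF h₀ h g f p w).re) +
          (a p * M.Ec (fun w => g (w.2 + p * h₀) * ∏ j, f j (tr (p * h j) w))).re := h2
      rw [h6]
      linarith
    have h7 : ∑ p ∈ PP m, (a p * M.Ec (fun w => g (w.2 + p * h₀) *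
        ∏ j, f j (tr (p * h j) w))).re ≤ δ / 4 * (PP m).card := by
      rw [← Complex.re_sum]
      exact (Complex.re_le_norm _).trans (hcs m (hm2.trans hm'.1) M g hg hSU f hf a ha)
    have h8 := Finset.sum_le_sum h1
    rw [Finset.sum_add_distrib, Finset.sum_add_distrib, Finset.sum_const, nsmul_eq_mul] at h8
    have h9 : sm m ≤ η m * (PP m).card := by
      have h10 : sm m / (PP m).card ≤ η m := le_max_right _ _
      rwa [div_le_iff₀ (hcard m)] at h10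
    have h11 : ∑ p ∈ PP m, M.E (fun w => (dv p w.2 - 1) * φ₀ p w) = sm m := rfl
    rw [h11] at h8
    rw [one_div, inv_mul_le_iff₀ (hcard m)]
    linarith
  -- sum over the levels
  have hmpos : ∀ m ∈ Finset.Ico m₁ M', (0 : ℝ) < m := by
    intro m hm
    have := (Finset.mem_Ico.1 hm).1
    exact_mod_cast (by omega : 0 < m)
  have hsum1 : ∑ m ∈ Finset.Ico m₁ M', (1 / (m : ℝ)) * ((1 / ((PP m).card : ℝ)) * ∑ p ∈ PP m,
      (a p * M.Ec (fun w => (dv p w.2 : ℂ) *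
        (g (w.2 + p * h₀) * ∏ j, f j (tr (p * h j) w)))).re) ≤
      ∑ m ∈ Finset.Ico m₁ M', (1 / δ * (η m ^ 2 / (m : ℝ)) + 3 * δ / 4 * (1 / (m : ℝ))) := by
    apply Finset.sum_le_sum
    intro m hm
    have h1 := hlevel m hm
    have h2 := hmpos m hm
    have h3 : η m ≤ 1 / δ * η m ^ 2 + δ / 4 := by
      have h4 : 1 / δ * η m ^ 2 + δ / 4 - η m = (1 / δ) * (η m - δ / 2) ^ 2 := by
        field_simp
        ring
      have h5 : 0 ≤ (1 / δ) * (η m - δ / 2) ^ 2 := by positivity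
      linarith
    calc (1 / (m : ℝ)) * _ ≤ (1 / (m : ℝ)) * (η m + δ / 2) :=
          mul_le_mul_of_nonneg_left h1 (by positivity)
      _ ≤ (1 / (m : ℝ)) * ((1 / δ * η m ^ 2 + δ / 4) + δ / 2) := by
          apply mul_le_mul_of_nonneg_left _ (by positivity)
          linarith
      _ = _ := by ring
  refine hsum1.trans ?_
  rw [Finset.sum_add_distrib, ← Finset.mul_sum, ← Finset.mul_sum, ← hH]
  have h1 : 1 / δ * ∑ m ∈ Finset.Ico m₁ M', η m ^ 2 / (m : ℝ) ≤ 1 / δ * (C * L) :=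
    mul_le_mul_of_nonneg_left hentb (by positivity)
  have h2 : 1 / δ * (C * L) ≤ δ / 4 * H := by
    rw [div_le_iff₀ (by positivity)] at hHB
    rw [one_div, inv_mul_le_iff₀ hδ]
    nlinarith
  linarith

end Pool.Agent.H68.OF
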