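import Pool.Agent.H68.OF.SUs
import Pool.Agent.H2.SpTwist

/-!
Every 1-bounded multiplicative function becomes self-uncorrelated after almost every sign change on a
thick set of primes (from helper2's theorem `twist_rad`).
-/

set_option autoImplicit false

open Filter Topology MeasureTheory ProbabilityTheory

namespace Pool.Agent.H68.OF

lemma sut_rad_conj (P : Set ℕ) (ω : ℕ → Bool) (n : ℕ) :
    (starRingEnd ℂ) (Pool.H2.Sp.rad P ω n) = Pool.H2.Sp.rad P ω n := by
  classical
  simp only [Pool.H2.Sp.rad, ArithmeticFunction.coe_mk]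
  split_ifs
  · simp
  · rw [map_prod]
    apply Finset.prod_congr rfl
    intro p _
    rw [map_pow]
    congr 1
    split_ifs
    · unfold Pool.H2.Sp.sgn
      split_ifs <;> simp
    · simp

theorem su_twist (P : Set ℕ) (hP : Pool.H2.Sp.Thick P) (f : ArithmeticFunction ℂ)
    (hf : f.IsMultiplicative) (hfb : ∀ n, ‖f n‖ ≤ 1) :
    ∀ᵐ ω ∂(Measure.infinitePi (fun _ : ℕ => (PMF.uniformOfFintype Bool).toMeasure)),
      ∀ r : ArithmeticFunction ℂ, r 1 = 1 → (∀ m n, r (m * n) = r m * r n) →
        (∀ p ∈ P, p.Prime → r p = if ω p then 1 else -1) → (∀ p ∉ P, p.Prime → r p = 1) →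
        SU (f.pmul r) := by
  have h := Pool.H2.Sp.twist_rad (ι := Bool) P hP
    (fun b => if b then Pool.H2.Rand.conjAF f else f)
    (fun b => by cases b <;> simp [hf, sus_conj_mul hf])
    (fun b n => by
      cases b
      · simpa using hfb n
      · simpa [Pool.H2.Rand.conjAF] using hfb n)
    (fun _ => 0) (fun _ _ => by simp)
  filter_upwards [h] with ω hω
  intro r h1 hm hin hout
  rw [Pool.H2.Sp.eq_rad P ω r h1 hm hin hout]
  intro s a u hs ha
  refine sus_avg _ a u ?_
  have hslot : ∀ i : Fin s, ∀ n, susG (f.pmul (Pool.H2.Sp.rad P ω)) u i.castSucc n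
      = (if u i then Pool.H2.Rand.conjAF f else f) n * Pool.H2.Sp.rad P ω n := by
    intro i n
    rw [susG_cast]
    split_ifs
    · simp only [Pool.H2.Rand.conjAF, ArithmeticFunction.coe_mk, ArithmeticFunction.pmul_apply, map_mul]
      rw [sut_rad_conj]
    · rw [ArithmeticFunction.pmul_apply]
  refine hω (s + 1) (susG (f.pmul (Pool.H2.Sp.rad P ω)) u) (Fin.last s) ?_ ?_ ?_ ?_ (susH a)
    (susH_inj a ha)
  · rw [susG_last]; exact sus_one_mul
  · intro n; rw [susG_last]; exact sus_one_bd n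
  · intro j hj
    left
    induction j using Fin.lastCases with
    | last => exact absurd rfl hj
    | cast i => exact ⟨u i, fun n => hslot i n⟩
  · exact ⟨(⟨0, hs⟩ : Fin s).castSucc, (Fin.castSucc_lt_last _).ne, u ⟨0, hs⟩, fun n => hslot _ n⟩

lemma sut_norm (f r : ArithmeticFunction ℂ) (hfb : ∀ n, ‖f n‖ ≤ 1) (P : Set ℕ) (ω : ℕ → Bool)
    (h1 : r 1 = 1) (hm : ∀ m n, r (m * n) = r m * r n)
    (hin : ∀ p ∈ P, p.Prime → r p = if ω p then 1 else -1) (hout : ∀ p ∉ P, p.Prime → r p = 1)
    (n : ℕ) : ‖f.pmul r n‖ ≤ 1 := by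
  classical
  rw [ArithmeticFunction.pmul_apply, norm_mul]
  have hr : ‖r n‖ ≤ 1 := by
    induction n using Nat.recOnMul with
    | zero => simp
    | one => rw [h1]; simp
    | prime p hp =>
      by_cases hpP : p ∈ P
      · rw [hin p hpP hp]; split_ifs <;> simp
      · rw [hout p hpP hp]; simp
    | mul a b ha hb =>
      rw [hm, norm_mul]
      exact mul_le_one₀ ha (norm_nonneg _) hb
  exact mul_le_one₀ (hfb n) (norm_nonneg _) hr

end Pool.Agent.H68.OF
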