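import Pool.Agent.H68.OF.CSs

/-!
Module CSI: induction. For `s` arbitrary functions and `u = pl g l` (a product of shifts of `g`),
`l` nonempty with distinct shifts.

Induction on `s` for all `l, P, a, f, c` at once, with trivial bound `‖S‖ ≤ |P|`.
`s = 0`: `S = (∑ a p) Ec[pl g l] = 0` by `SUM`.
Step `s → s+1` by `cs_step`: `u w * conj (u (tr (-(e c)) w)) = pl g (l ++ l.map (fun x => (x.1 - e c, !x.2)))`
(`c = c (Fin.last s) ≠ 0`). The new list has distinct shifts unless `x.1 - e c = y.1` for some `x, y ∈ l`,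
i.e. for at most `r²` values of `e` (`r` = length of `l`). For good `e` induction (list of length `2r`),
for bad `e` the trivial bound `|P|`. So
`‖S‖² ≤ 2R (K |P| (2R)^{2^s-2})^{1/2^s} + r² |P|` for `s ≥ 1` (and `≤ r²|P|` for `s = 0`), raise to the
power `2^s` with `(x+y)^n ≤ 2^n (x^n+y^n)` and `|P| ≤ R` (from `hP`, `P` nonempty) or `|P| ≤ 2R`.
-/

set_option autoImplicit false

open Filter Topology

namespace Pool.Agent.H68.OF

lemma csi_conj (g : ℤ → ℂ) (l : List (ℤ × Bool)) (b n : ℤ) :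
    (starRingEnd ℂ) (pl g l (n - b)) = pl g (l.map (fun x => (x.1 - b, !x.2))) n := by
  unfold pl
  induction l with
  | nil => simp
  | cons x l ih =>
    simp only [List.map_cons, List.prod_cons, map_mul, ih]
    congr 1
    have e : n - b + x.1 = n + (x.1 - b) := by ring
    rw [e]
    cases hx : x.2
    · simp
    · simp

lemma pl_append (g : ℤ → ℂ) (l : List (ℤ × Bool)) (b n : ℤ) :
    pl g l n * (starRingEnd ℂ) (pl g l (n - b))
      = pl g (l ++ l.map (fun x => (x.1 - b, !x.2))) n := by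
  rw [csi_conj]
  unfold pl
  rw [List.map_append, List.prod_append]

lemma norm_pl_le (g : ℤ → ℂ) (hg : ∀ n, ‖g n‖ ≤ 1) (l : List (ℤ × Bool)) (n : ℤ) :
    ‖pl g l n‖ ≤ 1 := by
  unfold pl
  induction l with
  | nil => simp
  | cons x l ih =>
    simp only [List.map_cons, List.prod_cons, norm_mul]
    refine mul_le_one₀ ?_ (norm_nonneg _) ih
    cases hx : x.2
    · simpa using hg _
    · simpa using hg _

/-- few bad shifts -/
lemma card_bad (l : List (ℤ × Bool)) (hl : (l.map Prod.fst).Nodup) (c : ℤ) (hc : c ≠ 0) (R : ℕ) :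
    ((Finset.Ioo (-(R : ℤ)) R).filter (fun e =>
      ¬ ((l ++ l.map (fun x => (x.1 - e * c, !x.2))).map Prod.fst).Nodup)).card ≤ l.length ^ 2 := by
  classical
  set F := (l.map Prod.fst).toFinset with hF
  have hsub : ((Finset.Ioo (-(R : ℤ)) R).filter (fun e =>
      ¬ ((l ++ l.map (fun x => (x.1 - e * c, !x.2))).map Prod.fst).Nodup)) ⊆
      (F ×ˢ F).image (fun xy => (xy.2 - xy.1) / c) := by
    intro e he
    rw [Finset.mem_filter] at he
    have h1 := he.2
    rw [List.map_append, List.nodup_append, not_and_or] at h1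
    have hmap : (l.map (fun x => (x.1 - e * c, !x.2))).map Prod.fst =
        (l.map Prod.fst).map (fun y => y - e * c) := by
      rw [List.map_map, List.map_map]
      rfl
    rw [hmap] at h1
    have hnd : ((l.map Prod.fst).map (fun y => y - e * c)).Nodup :=
      hl.map (fun x y hxy => by simpa using hxy)
    have h2 : ∃ x ∈ l.map Prod.fst, ∃ y ∈ l.map Prod.fst, x = y - e * c := by
      by_contra hcon
      push Not at hcon
      rcases h1 with h1 | h1
      · exact h1 hl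
      · apply h1
        refine ⟨hnd, ?_⟩
        intro x hx z hz hxz
        rw [List.mem_map] at hz
        obtain ⟨y, hy, hyz⟩ := hz
        apply hcon x hx y hy
        rw [hxz, ← hyz]
    obtain ⟨x, hx, y, hy, hxy⟩ := h2
    rw [Finset.mem_image]
    refine ⟨(x, y), ?_, ?_⟩
    · rw [Finset.mem_product, hF, List.mem_toFinset, List.mem_toFinset]
      exact ⟨hx, hy⟩
    · have : y - x = e * c := by
        rw [hxy]
        ring
      simp only
      rw [this]
      exact Int.mul_ediv_cancel _ hc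
  refine (Finset.card_le_card hsub).trans (Finset.card_image_le.trans ?_)
  rw [Finset.card_product, sq]
  have h3 : F.card ≤ l.length := by
    rw [hF]
    refine (List.toFinset_card_le _).trans ?_
    rw [List.length_map]
  exact Nat.mul_le_mul h3 h3

lemma csi_triv (M : Mn) (g : ℤ → ℂ) (hg : ∀ n, ‖g n‖ ≤ 1) (l : List (ℤ × Bool)) (P : Finset ℤ)
    (s : ℕ) (c : Fin s → ℤ) (a : ℤ → ℂ) (ha : ∀ p, ‖a p‖ ≤ 1) (f : Fin s → Om → ℂ)
    (hf : ∀ j w, ‖f j w‖ ≤ 1) :
    ‖∑ p ∈ P, a p * M.Ec (fun w => pl g l w.2 * ∏ j, f j (tr (p * c j) w))‖ ≤ P.card := by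
  refine (norm_sum_le _ _).trans ?_
  have h : ∀ p ∈ P, ‖a p * M.Ec (fun w => pl g l w.2 * ∏ j, f j (tr (p * c j) w))‖ ≤ 1 := by
    intro p _
    rw [norm_mul]
    refine mul_le_one₀ (ha p) (norm_nonneg _) ?_
    refine norm_Ec_le M (fun w => ?_)
    rw [norm_mul, norm_prod]
    refine mul_le_one₀ (norm_pl_le g hg l _) (Finset.prod_nonneg (fun j _ => norm_nonneg _)) ?_
    exact Finset.prod_le_one (fun j _ => norm_nonneg _) (fun j _ => hf j _)
  refine (Finset.sum_le_sum h).trans ?_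
  rw [Finset.sum_const, nsmul_eq_mul, mul_one]

lemma csi_card_le (R : ℕ) (P : Finset ℤ) (hP : ∀ p ∈ P, ∀ q ∈ P, |p - q| < R) :
    P.card ≤ 2 * R := by
  rcases P.eq_empty_or_nonempty with rfl | ⟨p, hp⟩
  · simp
  · have hsub : P ⊆ Finset.Ioo (p - R) (p + R) := by
      intro q hq
      rw [Finset.mem_Ioo]
      have := abs_lt.1 (hP p hp q hq)
      omega
    refine (Finset.card_le_card hsub).trans ?_
    rw [Int.card_Ioo]
    omega

/-- no arbitrary function -/
lemma csi_zero (M : Mn) (g : ℤ → ℂ) (hM : SUM M g) (l : List (ℤ × Bool)) (hl : l ≠ [])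
    (hn : (l.map Prod.fst).Nodup) (P : Finset ℤ) (c : Fin 0 → ℤ) (a : ℤ → ℂ)
    (f : Fin 0 → Om → ℂ) :
    ∑ p ∈ P, a p * M.Ec (fun w => pl g l w.2 * ∏ j, f j (tr (p * c j) w)) = 0 := by
  refine Finset.sum_eq_zero (fun p _ => ?_)
  have : M.Ec (fun w => pl g l w.2 * ∏ j, f j (tr (p * c j) w)) = M.Ec (fun w => pl g l w.2) := by
    congr 1
    funext w
    simp
  rw [this, hM l hl hn, mul_zero]

/-- the Cauchy-Schwarz step, good and bad differences separated; `B` is a bound for the sums of the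
next level -/
lemma csi_pre (s r : ℕ) (M : Mn) (g : ℤ → ℂ) (hg : ∀ n, ‖g n‖ ≤ 1)
    (l : List (ℤ × Bool)) (hl : l ≠ []) (hr : l.length = r) (hn : (l.map Prod.fst).Nodup)
    (R : ℕ) (P : Finset ℤ) (hP : ∀ p ∈ P, ∀ q ∈ P, |p - q| < R)
    (c : Fin (s + 1) → ℤ) (hc : ∀ j, c j ≠ 0) (a : ℤ → ℂ) (ha : ∀ p, ‖a p‖ ≤ 1)
    (f : Fin (s + 1) → Om → ℂ) (hf : ∀ j w, ‖f j w‖ ≤ 1) (B : ℝ) (hB0 : 0 ≤ B)
    (hB : ∀ (l' : List (ℤ × Bool)), l' ≠ [] → l'.length = 2 * r → (l'.map Prod.fst).Nodup →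
      ∀ (P' : Finset ℤ), P' ⊆ P → ∀ (c' : Fin s → ℤ), (∀ j, c' j ≠ 0) → ∀ (a' : ℤ → ℂ),
      (∀ p, ‖a' p‖ ≤ 1) → ∀ (f' : Fin s → Om → ℂ), (∀ j w, ‖f' j w‖ ≤ 1) →
      ‖∑ p ∈ P', a' p * M.Ec (fun w => pl g l' w.2 * ∏ j, f' j (tr (p * c' j) w))‖ ≤ B) :
    ‖∑ p ∈ P, a p * M.Ec (fun w => pl g l w.2 * ∏ j, f j (tr (p * c j) w))‖ ^ 2
      ≤ 2 * R * B + (r : ℝ) ^ 2 * P.card := by
  classical
  have h1 := cs_step M s R P hP c a ha (fun w => pl g l w.2)
    (fun w => norm_pl_le g hg l w.2) f hf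
  refine h1.trans ?_
  set c0 := c (Fin.last s) with hc0
  let S : ℤ → ℂ := fun e => ∑ p ∈ P.filter (fun p => p + e ∈ P),
        (a p * (starRingEnd ℂ) (a (p + e))) *
          M.Ec (fun w => pl g (l ++ l.map (fun x => (x.1 - e * c0, !x.2))) w.2 *
            ∏ j : Fin s, (fun w' => f j.castSucc w' *
              (starRingEnd ℂ) (f j.castSucc (tr (e * (c j.castSucc - c0)) w')))
                (tr (p * c j.castSucc) w))
  have h2 : ∀ e, ‖∑ p ∈ P.filter (fun p => p + e ∈ P),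
        (a p * (starRingEnd ℂ) (a (p + e))) *
          M.Ec (fun w => (pl g l w.2 * (starRingEnd ℂ) (pl g l (tr (-(e * c0)) w).2)) *
            ∏ j : Fin s, (fun w' => f j.castSucc w' *
              (starRingEnd ℂ) (f j.castSucc (tr (e * (c j.castSucc - c0)) w')))
                (tr (p * c j.castSucc) w))‖ = ‖S e‖ := by
    intro e
    congr 1
    refine Finset.sum_congr rfl (fun p _ => ?_)
    congr 2
    funext w
    have : pl g l w.2 * (starRingEnd ℂ) (pl g l (tr (-(e * c0)) w).2) =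
        pl g (l ++ l.map (fun x => (x.1 - e * c0, !x.2))) w.2 := by
      rw [tr_snd, ← sub_eq_add_neg, pl_append]
    rw [this]
  have ha' : ∀ e p, ‖a p * (starRingEnd ℂ) (a (p + e))‖ ≤ 1 := by
    intro e p
    rw [norm_mul, RCLike.norm_conj]
    exact mul_le_one₀ (ha _) (norm_nonneg _) (ha _)
  have hf' : ∀ (e : ℤ) (j : Fin s) (w : Om), ‖(fun w' => f j.castSucc w' *
      (starRingEnd ℂ) (f j.castSucc (tr (e * (c j.castSucc - c0)) w'))) w‖ ≤ 1 := by
    intro e j w
    simp only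
    rw [norm_mul, RCLike.norm_conj]
    exact mul_le_one₀ (hf _ _) (norm_nonneg _) (hf _ _)
  have hgood : ∀ e, ((l ++ l.map (fun x => (x.1 - e * c0, !x.2))).map Prod.fst).Nodup →
      ‖S e‖ ≤ B := by
    intro e he
    refine hB _ ?_ ?_ he _ (Finset.filter_subset _ _) (fun j => c j.castSucc)
      (fun j => hc _) (fun p => a p * (starRingEnd ℂ) (a (p + e))) (ha' e)
      (fun j w' => f j.castSucc w' *
      (starRingEnd ℂ) (f j.castSucc (tr (e * (c j.castSucc - c0)) w'))) (hf' e)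
    · intro h
      exact hl (List.append_eq_nil_iff.1 h).1
    · rw [List.length_append, List.length_map, hr]
      ring
  have hbad : ∀ e, ‖S e‖ ≤ P.card := by
    intro e
    have h3 := csi_triv M g hg (l ++ l.map (fun x => (x.1 - e * c0, !x.2)))
      (P.filter (fun p => p + e ∈ P)) s (fun j => c j.castSucc)
      (fun p => a p * (starRingEnd ℂ) (a (p + e))) (ha' e)
      (fun j w' => f j.castSucc w' *
      (starRingEnd ℂ) (f j.castSucc (tr (e * (c j.castSucc - c0)) w'))) (hf' e)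
    refine h3.trans ?_
    exact_mod_cast Finset.card_le_card (Finset.filter_subset _ _)
  have h4 : ∑ e ∈ Finset.Ioo (-(R : ℤ)) R, ‖S e‖ ≤ 2 * R * B + (r : ℝ) ^ 2 * P.card := by
    rw [← Finset.sum_filter_add_sum_filter_not (Finset.Ioo (-(R : ℤ)) R) (fun e =>
      ((l ++ l.map (fun x => (x.1 - e * c0, !x.2))).map Prod.fst).Nodup)]
    refine add_le_add ?_ ?_
    · refine (Finset.sum_le_sum (fun e he => hgood e (Finset.mem_filter.1 he).2)).trans ?_
      rw [Finset.sum_const, nsmul_eq_mul]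
      refine mul_le_mul_of_nonneg_right ?_ hB0
      have h5 : ((Finset.Ioo (-(R : ℤ)) R).filter (fun e =>
        ((l ++ l.map (fun x => (x.1 - e * c0, !x.2))).map Prod.fst).Nodup)).card ≤ 2 * R := by
        refine (Finset.card_filter_le _ _).trans ?_
        rw [Int.card_Ioo]
        omega
      exact_mod_cast h5
    · refine (Finset.sum_le_sum (fun e _ => hbad e)).trans ?_
      rw [Finset.sum_const, nsmul_eq_mul]
      refine mul_le_mul_of_nonneg_right ?_ (Nat.cast_nonneg _)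
      have h5 := card_bad l hn c0 (hc _) R
      rw [hr] at h5
      exact_mod_cast h5
  refine le_trans (le_of_eq ?_) h4
  exact Finset.sum_congr rfl (fun e _ => h2 e)

theorem cs_ind (s r : ℕ) : ∃ K : ℝ, 0 ≤ K ∧ ∀ (M : Mn) (g : ℤ → ℂ), (∀ n, ‖g n‖ ≤ 1) → SUM M g →
    ∀ (l : List (ℤ × Bool)), l ≠ [] → l.length = r → (l.map Prod.fst).Nodup →
    ∀ (R : ℕ), 1 ≤ R → ∀ (P : Finset ℤ), (∀ p ∈ P, ∀ q ∈ P, |p - q| < R) →
    ∀ (c : Fin s → ℤ), (∀ j, c j ≠ 0) → ∀ (a : ℤ → ℂ), (∀ p, ‖a p‖ ≤ 1) →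
    ∀ (f : Fin s → Om → ℂ), (∀ j w, ‖f j w‖ ≤ 1) →
    ‖∑ p ∈ P, a p * M.Ec (fun w => pl g l w.2 * ∏ j, f j (tr (p * c j) w))‖ ^ (2 ^ s)
      ≤ K * P.card * (2 * (R : ℝ)) ^ (2 ^ s - 2) := by
  induction s generalizing r with
  | zero =>
    refine ⟨0, le_rfl, ?_⟩
    intro M g hg hM l hl hr hn R hR P hP c hc a ha f hf
    rw [csi_zero M g hM l hl hn P c a f]
    simp
  | succ s ih =>
    rcases s with _ | s
    · -- one arbitrary function
      refine ⟨(r : ℝ) ^ 2, by positivity, ?_⟩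
      intro M g hg hM l hl hr hn R hR P hP c hc a ha f hf
      have h := csi_pre 0 r M g hg l hl hr hn R P hP c hc a ha f hf 0 le_rfl
        (by
          intro l' hl' _ hn' P' _ c' _ a' _ f' _
          rw [csi_zero M g hM l' hl' hn' P' c' a' f']
          simp)
      simpa using h
    · obtain ⟨K, hK0, hK⟩ := ih (2 * r)
      set n : ℕ := 2 ^ (s + 1) with hndef
      have hn2 : 2 ≤ n := by
        rw [hndef, pow_succ]
        have := Nat.one_le_two_pow (n := s)
        omega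
      refine ⟨2 ^ n * (K + (r : ℝ) ^ (2 * n)), by positivity, ?_⟩
      intro M g hg hM l hl hr hn R hR P hP c hc a ha f hf
      have hR1 : (1 : ℝ) ≤ R := by exact_mod_cast hR
      have hPR : (P.card : ℝ) ≤ 2 * R := by exact_mod_cast csi_card_le R P hP
      set X : ℝ := K * P.card * (2 * (R : ℝ)) ^ (n - 2) with hX
      have hX0 : 0 ≤ X := by positivity
      set β : ℝ := X ^ ((n : ℝ)⁻¹) with hβ
      have hβ0 : 0 ≤ β := Real.rpow_nonneg hX0 _
      have hβn : β ^ n = X := Real.rpow_inv_natCast_pow hX0 (by omega)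
      have h := csi_pre (s + 1) r M g hg l hl hr hn R P hP c hc a ha f hf β hβ0
        (by
          intro l' hl' hr' hn' P' hP' c' hc' a' ha' f' hf'
          have h1 := hK M g hg hM l' hl' hr' hn' R hR P'
            (fun p hp q hq => hP p (hP' hp) q (hP' hq)) c' hc' a' ha' f' hf'
          have h2 : K * (P'.card : ℝ) * (2 * (R : ℝ)) ^ (n - 2) ≤ X := by
            refine mul_le_mul_of_nonneg_right ?_ (by positivity)
            refine mul_le_mul_of_nonneg_left ?_ hK0
            exact_mod_cast Finset.card_le_card hP'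
          have h3 := h1.trans h2
          rw [← hβn] at h3
          exact le_of_pow_le_pow_left₀ (by omega) hβ0 h3)
      set Z := ‖∑ p ∈ P, a p * M.Ec (fun w => pl g l w.2 * ∏ j, f j (tr (p * c j) w))‖ with hZ
      have e1 : (2 : ℕ) ^ (s + 1 + 1) = 2 * n := by
        rw [hndef]
        ring
      rw [e1, pow_mul]
      have h4 : (Z ^ 2) ^ n ≤ (2 * R * β + (r : ℝ) ^ 2 * P.card) ^ n :=
        pow_le_pow_left₀ (by positivity) h n
      refine h4.trans ?_
      have h5 := add_pow_le (show (0 : ℝ) ≤ 2 * R * β by positivity)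
        (show (0 : ℝ) ≤ (r : ℝ) ^ 2 * P.card by positivity) n
      refine h5.trans ?_
      have h6 : (2 * (R : ℝ) * β) ^ n = K * P.card * (2 * (R : ℝ)) ^ (2 * n - 2) := by
        rw [mul_pow, hβn, hX]
        have : 2 * n - 2 = n + (n - 2) := by omega
        rw [this, pow_add]
        ring
      have h7 : ((r : ℝ) ^ 2 * P.card) ^ n ≤
          (r : ℝ) ^ (2 * n) * P.card * (2 * (R : ℝ)) ^ (2 * n - 2) := by
        rw [mul_pow, ← pow_mul]
        have h8 : (P.card : ℝ) ^ n = P.card * (P.card : ℝ) ^ (n - 1) := by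
          rw [← pow_succ']
          congr 1
          omega
        have h9 : (P.card : ℝ) ^ (n - 1) ≤ (2 * (R : ℝ)) ^ (2 * n - 2) := by
          calc (P.card : ℝ) ^ (n - 1) ≤ (2 * (R : ℝ)) ^ (n - 1) :=
                pow_le_pow_left₀ (Nat.cast_nonneg _) hPR _
            _ ≤ (2 * (R : ℝ)) ^ (2 * n - 2) := pow_le_pow_right₀ (by linarith) (by omega)
        rw [h8, mul_assoc]
        refine mul_le_mul_of_nonneg_left ?_ (by positivity)
        exact mul_le_mul_of_nonneg_left h9 (Nat.cast_nonneg _)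
      have h10 : (2 : ℝ) ^ (n - 1) ≤ 2 ^ n := pow_le_pow_right₀ (by norm_num) (Nat.sub_le _ _)
      calc (2 : ℝ) ^ (n - 1) * ((2 * R * β) ^ n + ((r : ℝ) ^ 2 * P.card) ^ n)
          ≤ 2 ^ n * (K * P.card * (2 * (R : ℝ)) ^ (2 * n - 2) +
              (r : ℝ) ^ (2 * n) * P.card * (2 * (R : ℝ)) ^ (2 * n - 2)) := by
            refine mul_le_mul h10 ?_ (by positivity) (by positivity)
            rw [h6]
            linarith
        _ = 2 ^ n * (K + (r : ℝ) ^ (2 * n)) * P.card * (2 * (R : ℝ)) ^ (2 * n - 2) := by ring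

end Pool.Agent.H68.OF
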