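import Pool.Agent.H68.OF.MeanC

/-!
Module CSS: one Cauchy-Schwarz step (elimination of the last function).

`S = ∑_{p∈P} a p Ec[u(w) ∏_j f_j(tr (p c_j) w)]`, `f : Fin (s+1) → ...`. Translate the `p`-th term by
`-p c_last` (`Ec_tr`): `S = Ec[f_last(w) * ∑_p a p u(tr(-p c_last) w) ∏_{j<s} f_j(tr(p c_j - p c_last) w)]`.
`Ec_cs` and `E_normSq_sum` give
`‖S‖² ≤ ∑_{p,q} a p conj(a q) Ec[u(tr(-p c) w) conj u(tr(-q c) w) ∏_j f_j(...) conj f_j(...)]`
`= ∑_{p,q} a p conj(a q) Ec[u(w) conj u(tr(-e c) w) ∏_j f_j(tr(p c_j) w) conj f_j(tr(q c_j - e c) w)]`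
(translate by `p c`), `e = q - p`, `q c_j - e c = p c_j + e(c_j - c)`. Group by `e ∈ (-R, R)`.
-/

set_option autoImplicit false

open Filter Topology

namespace Pool.Agent.H68.OF

/-- regrouping a double sum by differences -/
theorem css_regroup (R : ℕ) (P : Finset ℤ) (hP : ∀ p ∈ P, ∀ q ∈ P, |p - q| < R)
    (t : ℤ → ℤ → ℂ) :
    ∑ p ∈ P, ∑ q ∈ P, t p q =
      ∑ e ∈ Finset.Ioo (-(R : ℤ)) R, ∑ p ∈ P.filter (fun p => p + e ∈ P), t p (p + e) := by
  have h1 : ∀ p ∈ P, ∑ q ∈ P, t p q =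
      ∑ e ∈ Finset.Ioo (-(R : ℤ)) R, if p + e ∈ P then t p (p + e) else 0 := by
    intro p hp
    rw [← Finset.sum_filter]
    refine (Finset.sum_nbij' (fun e => p + e) (fun q => q - p) ?_ ?_ ?_ ?_ ?_).symm
    · intro e he
      exact (Finset.mem_filter.1 he).2
    · intro q hq
      rw [Finset.mem_filter, Finset.mem_Ioo]
      have h2 := abs_lt.1 (hP p hp q hq)
      refine ⟨⟨by omega, by omega⟩, ?_⟩
      have : p + (q - p) = q := by ring
      rw [this]
      exact hq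
    · intro e _
      ring
    · intro q _
      ring
    · intro e _
      rfl
  rw [Finset.sum_congr rfl h1, Finset.sum_comm]
  refine Finset.sum_congr rfl (fun e _ => ?_)
  rw [Finset.sum_filter]

theorem cs_step (M : Mn) (s R : ℕ) (P : Finset ℤ) (hP : ∀ p ∈ P, ∀ q ∈ P, |p - q| < R)
    (c : Fin (s + 1) → ℤ) (a : ℤ → ℂ) (ha : ∀ p, ‖a p‖ ≤ 1)
    (u : Om → ℂ) (hu : ∀ w, ‖u w‖ ≤ 1) (f : Fin (s + 1) → Om → ℂ) (hf : ∀ j w, ‖f j w‖ ≤ 1) :
    ‖∑ p ∈ P, a p * M.Ec (fun w => u w * ∏ j, f j (tr (p * c j) w))‖ ^ 2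
      ≤ ∑ e ∈ Finset.Ioo (-(R : ℤ)) R,
        ‖∑ p ∈ P.filter (fun p => p + e ∈ P), (a p * (starRingEnd ℂ) (a (p + e))) *
          M.Ec (fun w => (u w * (starRingEnd ℂ) (u (tr (-(e * c (Fin.last s))) w))) *
            ∏ j : Fin s, (fun w' => f j.castSucc w' *
              (starRingEnd ℂ) (f j.castSucc (tr (e * (c j.castSucc - c (Fin.last s))) w')))
                (tr (p * c j.castSucc) w))‖ := by
  set c0 := c (Fin.last s) with hc0
  have hub : BddC u := ⟨1, hu⟩
  have hfb : ∀ j, BddC (f j) := fun j => ⟨1, hf j⟩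
  let ψ : ℤ → Om → ℂ := fun p w => u (tr (-(p * c0)) w) *
    ∏ j : Fin s, f j.castSucc (tr (-(p * c0) + p * c j.castSucc) w)
  have hψb : ∀ p, BddC (ψ p) := fun p =>
    (hub.tr _).mul (BddC.prod Finset.univ (fun j _ => (hfb j.castSucc).tr _))
  have haψb : ∀ p, BddC (fun w => a p * ψ p w) := fun p => (BddC.const (a p)).mul (hψb p)
  -- translate
  have h1 : ∀ p, M.Ec (fun w => u w * ∏ j, f j (tr (p * c j) w)) =
      M.Ec (fun w => f (Fin.last s) w * ψ p w) := by
    intro p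
    have hb : BddC (fun w => u w * ∏ j, f j (tr (p * c j) w)) :=
      hub.mul (BddC.prod Finset.univ (fun j _ => (hfb j).tr _))
    rw [← Ec_tr M hb (-(p * c0))]
    congr 1
    funext w
    rw [Fin.prod_univ_castSucc]
    simp only [tr_tr, ψ]
    rw [← hc0, neg_add_cancel, tr_zero]
    ring
  have h2 : ∑ p ∈ P, a p * M.Ec (fun w => u w * ∏ j, f j (tr (p * c j) w)) =
      M.Ec (fun w => f (Fin.last s) w * ∑ p ∈ P, a p * ψ p w) := by
    have e1 : (fun w => f (Fin.last s) w * ∑ p ∈ P, a p * ψ p w) =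
        fun w => ∑ p ∈ P, a p * (f (Fin.last s) w * ψ p w) := by
      funext w
      rw [Finset.mul_sum]
      refine Finset.sum_congr rfl (fun p _ => ?_)
      ring
    rw [e1, Ec_sum M P (fun p _ => (BddC.const (a p)).mul ((hfb _).mul (hψb p)))]
    refine Finset.sum_congr rfl (fun p _ => ?_)
    rw [h1, Ec_smul M (a p) ((hfb _).mul (hψb p))]
  rw [h2]
  have h3 := Ec_cs M (φ := f (Fin.last s)) (ψ := fun w => ∑ p ∈ P, a p * ψ p w) (hf _)
    (BddC.sum P (fun p _ => haψb p))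
  refine h3.trans ?_
  have h4 := E_normSq_sum M P (f := fun p w => a p * ψ p w) (fun p _ => haψb p)
  -- each term
  have h5 : ∀ p q : ℤ, M.Ec (fun w => (a p * ψ p w) * (starRingEnd ℂ) (a q * ψ q w)) =
      (a p * (starRingEnd ℂ) (a (p + (q - p)))) *
          M.Ec (fun w => (u w * (starRingEnd ℂ) (u (tr (-((q - p) * c0)) w))) *
            ∏ j : Fin s, (fun w' => f j.castSucc w' *
              (starRingEnd ℂ) (f j.castSucc (tr ((q - p) * (c j.castSucc - c0)) w')))
                (tr (p * c j.castSucc) w)) := by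
    intro p q
    have hpq : p + (q - p) = q := by ring
    have e1 : (fun w => (a p * ψ p w) * (starRingEnd ℂ) (a q * ψ q w)) =
        fun w => (a p * (starRingEnd ℂ) (a q)) * (ψ p w * (starRingEnd ℂ) (ψ q w)) := by
      funext w
      rw [map_mul]
      ring
    have hb : BddC (fun w => ψ p w * (starRingEnd ℂ) (ψ q w)) := (hψb p).mul (hψb q).conj
    rw [e1, Ec_smul M _ hb, ← Ec_tr M hb (p * c0), hpq]
    congr 2
    funext w
    simp only [ψ, tr_tr, map_mul, map_prod]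
    rw [Finset.prod_mul_distrib]
    have e2 : p * c0 + -(p * c0) = 0 := by ring
    have e3 : p * c0 + -(q * c0) = -((q - p) * c0) := by ring
    have e4 : ∀ j : Fin s, p * c0 + (-(p * c0) + p * c j.castSucc) = p * c j.castSucc := by
      intro j
      ring
    have e5 : ∀ j : Fin s, p * c0 + (-(q * c0) + q * c j.castSucc) =
        p * c j.castSucc + (q - p) * (c j.castSucc - c0) := by
      intro j
      ring
    simp only [e2, e3, e4, e5, tr_zero]
    ring
  have h6 : (M.E (fun w => ‖∑ p ∈ P, a p * ψ p w‖ ^ 2) : ℂ) =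
      ∑ e ∈ Finset.Ioo (-(R : ℤ)) R, ∑ p ∈ P.filter (fun p => p + e ∈ P),
        (a p * (starRingEnd ℂ) (a (p + e))) *
          M.Ec (fun w => (u w * (starRingEnd ℂ) (u (tr (-(e * c0)) w))) *
            ∏ j : Fin s, (fun w' => f j.castSucc w' *
              (starRingEnd ℂ) (f j.castSucc (tr (e * (c j.castSucc - c0)) w')))
                (tr (p * c j.castSucc) w)) := by
    rw [h4, css_regroup R P hP]
    refine Finset.sum_congr rfl (fun e _ => Finset.sum_congr rfl (fun p _ => ?_))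
    have hpe : p + e - p = e := by ring
    rw [h5, hpe]
  have h7 : M.E (fun w => ‖∑ p ∈ P, a p * ψ p w‖ ^ 2) ≤
      ‖(M.E (fun w => ‖∑ p ∈ P, a p * ψ p w‖ ^ 2) : ℂ)‖ := by
    rw [Complex.norm_real]
    exact Real.le_norm_self _
  refine h7.trans ?_
  rw [h6]
  exact norm_sum_le _ _

end Pool.Agent.H68.OF
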