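import Pool.Agent.H68.OF.Var
import Pool.Agent.H68.OF.Per

/-!
Module DEC: entropy decrement. `L m = c * 2^m`. With `Y_m = res (QQ m)`, `W_m = res (WW m₁ m)`,
`x_m = word ξ (L m)`, `h_m = Hn (x_m, W_m) - Hn W_m` and `I_m = Info x_m Y_m W_m`:
`h_{m+1} ≤ 2 (h_m - I_m)`. Indeed `WW m₁ (m+1) = WW m₁ m * QQ m`, the two factors being coprime; the map
`ZMod (WW m₁ (m+1)) → ZMod (QQ m) × ZMod (WW m₁ m)` is injective (CRT), so by `Hn_inj`
`Hn (x, W_{m+1}) = Hn (x, Y_m, W_m)` and `Hn W_{m+1} = Hn (Y_m, W_m)`, whence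
`Hn (x_m, W_{m+1}) - Hn W_{m+1} = h_m - I_m`. The word `x_{m+1}` of length `L m + L m` is
(up to an injective relabelling) the pair `(x_m, x_m ∘ tr (L m))`, and by `info_nonneg`
`Hn (x_m, x_m∘tr, W_{m+1}) - Hn W_{m+1} ≤ [Hn (x_m, W_{m+1}) - Hn W_{m+1}]
   + [Hn (x_m∘tr, W_{m+1}) - Hn W_{m+1}]`, and `Hn (x_m∘tr, W_{m+1}) = Hn (x_m, W_{m+1})` because
`res W (tr a w) = res W w + a` (relabelling) and invariance. Finally
`h_{m₁} ≤ Hn x_{m₁} (submodularity/`WW m₁ m₁ = 1`) ≤ L m₁ log |S|`, `h_m ≥ 0` (monotonicity of `Hn`), so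
`∑ I_m / L m ≤ log |S|`.
-/

set_option autoImplicit false

open Filter Topology

namespace Pool.Agent.H68.OF

lemma dec_QQ_ne (m : ℕ) : QQ m ≠ 0 := by
  unfold QQ
  rw [Finset.prod_ne_zero_iff]
  intro p hp
  unfold PP at hp
  rw [Finset.mem_filter] at hp
  exact hp.2.ne_zero

lemma dec_WW_ne (m₁ m : ℕ) : WW m₁ m ≠ 0 := by
  unfold WW
  rw [Finset.prod_ne_zero_iff]
  intro m' _
  exact dec_QQ_ne m'

instance neZero_QQ (m : ℕ) : NeZero (QQ m) := ⟨dec_QQ_ne m⟩

instance neZero_WW (m₁ m : ℕ) : NeZero (WW m₁ m) := ⟨dec_WW_ne m₁ m⟩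

lemma coprime_QQ_WW (m₁ m : ℕ) : Nat.Coprime (QQ m) (WW m₁ m) := by
  unfold QQ WW
  apply Nat.Coprime.prod_left
  intro p hp
  apply Nat.Coprime.prod_right
  intro m' hm'
  unfold QQ
  apply Nat.Coprime.prod_right
  intro p' hp'
  unfold PP at hp hp'
  rw [Finset.mem_filter, Finset.mem_Ioc] at hp hp'
  rw [Finset.mem_Ico] at hm'
  rw [Nat.coprime_primes hp.2 hp'.2]
  have h1 : 2 ^ (m' + 1) ≤ 2 ^ m := Nat.pow_le_pow_right (by norm_num) (by omega)
  omega

lemma res_tr (q : ℕ) (a : ℤ) (w : Om) : res q (tr a w) = res q w + (a : ZMod q) := by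
  unfold res
  rw [tr_snd, Int.cast_add]

variable (M : Mn)

/-- a pair has at least the entropy of its second component -/
lemma Hn_snd_le {A B : Type} [Fintype A] [Fintype B] (x : Om → A) (z : Om → B) :
    Hn M z ≤ Hn M (fun w => (x w, z w)) := by
  have h := info_nonneg M x x z
  unfold Info at h
  have h1 : Hn M (fun w => (x w, x w, z w)) = Hn M (fun w => (x w, z w)) := by
    refine Hn_inj M (fun w => (x w, z w)) (fun p : A × B => (p.1, p.1, p.2)) ?_
    intro p q hpq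
    simp only [Prod.mk.injEq] at hpq
    exact Prod.ext hpq.1 hpq.2.2
  rw [h1] at h
  linarith

/-- the residue map is injective -/
lemma dec_crt {Q W W' : ℕ} [NeZero W'] (hW' : W' = W * Q) (hcop : Nat.Coprime Q W)
    (hQ : Q ∣ W') (hW : W ∣ W') (z z' : ZMod W')
    (h1 : ZMod.castHom hQ (ZMod Q) z = ZMod.castHom hQ (ZMod Q) z')
    (h2 : ZMod.castHom hW (ZMod W) z = ZMod.castHom hW (ZMod W) z') : z = z' := by
  rw [← ZMod.natCast_zmod_val z, ← ZMod.natCast_zmod_val z', map_natCast, map_natCast,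
    ZMod.natCast_eq_natCast_iff] at h1 h2
  have h3 : z.val ≡ z'.val [MOD W * Q] :=
    (Nat.modEq_and_modEq_iff_modEq_mul hcop.symm).1 ⟨h2, h1⟩
  rw [← ZMod.natCast_zmod_val z, ← ZMod.natCast_zmod_val z', ZMod.natCast_eq_natCast_iff]
  generalize z.val = a at *
  generalize z'.val = b at *
  rw [hW']
  exact h3

/-- one step -/
lemma dec_step {S : Type} [Fintype S] (ξ : Om → S) (m₁ m L : ℕ) (hm : m₁ ≤ m) :
    (Hn M (fun w => (word ξ (L + L) w, res (WW m₁ (m + 1)) w)) - Hn M (res (WW m₁ (m + 1))))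
      ≤ 2 * ((Hn M (fun w => (word ξ L w, res (WW m₁ m) w)) - Hn M (res (WW m₁ m)))
        - Info M (word ξ L) (res (QQ m)) (res (WW m₁ m))) := by
  have hW' : WW m₁ (m + 1) = WW m₁ m * QQ m := by
    unfold WW
    rw [Finset.prod_Ico_succ_top hm]
  have hQd : QQ m ∣ WW m₁ (m + 1) := by rw [hW']; exact dvd_mul_left _ _
  have hWd : WW m₁ m ∣ WW m₁ (m + 1) := by rw [hW']; exact dvd_mul_right _ _
  have hc1 : ∀ w : Om, ZMod.castHom hQd (ZMod (QQ m)) (res (WW m₁ (m + 1)) w) = res (QQ m) w := by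
    intro w
    unfold res
    rw [map_intCast]
  have hc2 : ∀ w : Om, ZMod.castHom hWd (ZMod (WW m₁ m)) (res (WW m₁ (m + 1)) w) =
      res (WW m₁ m) w := by
    intro w
    unfold res
    rw [map_intCast]
  -- entropies with the new modulus
  have e1 : Hn M (res (WW m₁ (m + 1))) = Hn M (fun w => (res (QQ m) w, res (WW m₁ m) w)) := by
    have h := Hn_inj M (res (WW m₁ (m + 1)))
      (fun z => (ZMod.castHom hQd (ZMod (QQ m)) z, ZMod.castHom hWd (ZMod (WW m₁ m)) z)) (by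
        intro z z' hz
        simp only [Prod.mk.injEq] at hz
        exact dec_crt hW' (coprime_QQ_WW m₁ m) hQd hWd z z' hz.1 hz.2)
    rw [← h]
    simp only [hc1, hc2]
  have e2 : Hn M (fun w => (word ξ L w, res (WW m₁ (m + 1)) w)) =
      Hn M (fun w => (word ξ L w, res (QQ m) w, res (WW m₁ m) w)) := by
    have h := Hn_inj M (fun w => (word ξ L w, res (WW m₁ (m + 1)) w))
      (fun p : (Fin L → S) × ZMod (WW m₁ (m + 1)) => (p.1, ZMod.castHom hQd (ZMod (QQ m)) p.2,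
        ZMod.castHom hWd (ZMod (WW m₁ m)) p.2)) (by
        intro p p' hp
        simp only [Prod.mk.injEq] at hp
        exact Prod.ext hp.1 (dec_crt hW' (coprime_QQ_WW m₁ m) hQd hWd _ _ hp.2.1 hp.2.2))
    rw [← h]
    simp only [hc1, hc2]
  -- splitting the long word
  have e3 : Hn M (fun w => (word ξ (L + L) w, res (WW m₁ (m + 1)) w)) =
      Hn M (fun w => (word ξ L w, word ξ L (tr (L : ℤ) w), res (WW m₁ (m + 1)) w)) := by
    have h := Hn_inj M (fun w => (word ξ (L + L) w, res (WW m₁ (m + 1)) w))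
      (fun p : (Fin (L + L) → S) × ZMod (WW m₁ (m + 1)) =>
        ((fun j : Fin L => p.1 (Fin.castAdd L j)), (fun j : Fin L => p.1 (Fin.natAdd L j)), p.2)) (by
        intro p p' hp
        simp only [Prod.mk.injEq] at hp
        refine Prod.ext ?_ hp.2.2
        funext j
        refine Fin.addCases (fun i => ?_) (fun i => ?_) j
        · exact congrFun hp.1 i
        · exact congrFun hp.2.1 i)
    rw [← h]
    congr 1
    funext w
    refine Prod.ext rfl (Prod.ext ?_ rfl)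
    funext j
    show ξ (tr ((Fin.natAdd L j : Fin (L + L)) : ℕ) w) = ξ (tr (j : ℕ) (tr (L : ℤ) w))
    rw [tr_tr, Fin.val_natAdd]
    push_cast
    rfl
  have e4 : Hn M (fun w => (word ξ L (tr (L : ℤ) w), res (WW m₁ (m + 1)) w)) =
      Hn M (fun w => (word ξ L w, res (WW m₁ (m + 1)) w)) := by
    have h := Hn_inj M (fun w => (word ξ L (tr (L : ℤ) w), res (WW m₁ (m + 1)) w))
      (fun p : (Fin L → S) × ZMod (WW m₁ (m + 1)) => (p.1, p.2 + ((L : ℤ) : ZMod _))) (by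
        intro p p' hp
        simp only [Prod.mk.injEq] at hp
        exact Prod.ext hp.1 (add_right_cancel hp.2))
    rw [← h]
    have h2 := Hn_tr M (fun w => (word ξ L w, res (WW m₁ (m + 1)) w)) (L : ℤ)
    rw [← h2]
    simp only [res_tr]
  have h5 := info_nonneg M (word ξ L) (fun w => word ξ L (tr (L : ℤ) w)) (res (WW m₁ (m + 1)))
  unfold Info at h5 ⊢
  rw [e3]
  rw [e4, e2, e1] at h5
  rw [e1]
  linarith

theorem dec {S : Type} [Fintype S] [Nonempty S] (ξ : Om → S) (c : ℕ) (hc : 0 < c) (m₁ M' : ℕ) :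
    ∑ m ∈ Finset.Ico m₁ M',
      Info M (word ξ (c * 2 ^ m)) (res (QQ m)) (res (WW m₁ m)) / ((c * 2 ^ m : ℕ) : ℝ)
      ≤ Real.log (Fintype.card S) := by
  have hlog : 0 ≤ Real.log (Fintype.card S) :=
    Real.log_nonneg (by exact_mod_cast Fintype.card_pos)
  rcases lt_or_ge M' m₁ with hlt | hle
  · rw [Finset.Ico_eq_empty (by omega), Finset.sum_empty]
    exact hlog
  obtain ⟨h, hh⟩ : ∃ h : ℕ → ℝ, ∀ m, h m =
      Hn M (fun w => (word ξ (c * 2 ^ m) w, res (WW m₁ m) w)) - Hn M (res (WW m₁ m)) :=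
    ⟨_, fun _ => rfl⟩
  have hh0 : ∀ m, 0 ≤ h m := by
    intro m
    rw [hh, sub_nonneg]
    exact Hn_snd_le M _ _
  have hL0 : ∀ m, (0 : ℝ) < ((c * 2 ^ m : ℕ) : ℝ) := by
    intro m
    have : 0 < c * 2 ^ m := by positivity
    exact_mod_cast this
  have hstep : ∀ m, m₁ ≤ m → Info M (word ξ (c * 2 ^ m)) (res (QQ m)) (res (WW m₁ m)) /
      ((c * 2 ^ m : ℕ) : ℝ) ≤ h m / ((c * 2 ^ m : ℕ) : ℝ) -
        h (m + 1) / ((c * 2 ^ (m + 1) : ℕ) : ℝ) := by
    intro m hm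
    have h1 := dec_step M ξ m₁ m (c * 2 ^ m) hm
    have h2 : c * 2 ^ (m + 1) = c * 2 ^ m + c * 2 ^ m := by ring
    have h3 : h (m + 1) ≤ 2 * (h m - Info M (word ξ (c * 2 ^ m)) (res (QQ m)) (res (WW m₁ m))) := by
      rw [hh (m + 1), hh m, h2]
      exact h1
    have h4 : h (m + 1) / ((c * 2 ^ (m + 1) : ℕ) : ℝ) ≤
        (h m - Info M (word ξ (c * 2 ^ m)) (res (QQ m)) (res (WW m₁ m))) /
          ((c * 2 ^ m : ℕ) : ℝ) := by
      rw [div_le_div_iff₀ (hL0 _) (hL0 _), h2]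
      have := hL0 m
      push_cast at this ⊢
      nlinarith
    rw [sub_div] at h4
    linarith
  have htel : ∀ K, m₁ ≤ K → ∑ m ∈ Finset.Ico m₁ K,
      Info M (word ξ (c * 2 ^ m)) (res (QQ m)) (res (WW m₁ m)) / ((c * 2 ^ m : ℕ) : ℝ) ≤
        h m₁ / ((c * 2 ^ m₁ : ℕ) : ℝ) - h K / ((c * 2 ^ K : ℕ) : ℝ) := by
    intro K hK
    induction K, hK using Nat.le_induction with
    | base => simp
    | succ K hK ih =>
      rw [Finset.sum_Ico_succ_top hK]
      have := hstep K hK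
      linarith
  have hfirst : h m₁ / ((c * 2 ^ m₁ : ℕ) : ℝ) ≤ Real.log (Fintype.card S) := by
    rw [div_le_iff₀ (hL0 m₁)]
    have hW1 : WW m₁ m₁ = 1 := by
      unfold WW
      rw [Finset.Ico_self, Finset.prod_empty]
    have hsub : ∀ z z' : ZMod (WW m₁ m₁), z = z' := by
      rw [hW1]
      intro z z'
      exact Subsingleton.elim _ _
    have h1 : Hn M (fun w => (word ξ (c * 2 ^ m₁) w, res (WW m₁ m₁) w)) =
        Hn M (word ξ (c * 2 ^ m₁)) := by
      have h2 := Hn_inj M (word ξ (c * 2 ^ m₁))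
        (fun a => (a, (0 : ZMod (WW m₁ m₁)))) (by
          intro a b hab
          exact (Prod.mk.inj hab).1)
      rw [← h2]
      congr 1
      funext w
      exact Prod.ext rfl (hsub _ _)
    have h3 := Hn_nonneg M (res (WW m₁ m₁))
    have h4 := Hn_le_log M (word ξ (c * 2 ^ m₁))
    rw [Fintype.card_fun, Fintype.card_fin, Nat.cast_pow, Real.log_pow] at h4
    rw [hh, h1]
    linarith
  have h6 := htel M' hle
  have h7 : 0 ≤ h M' / ((c * 2 ^ M' : ℕ) : ℝ) := div_nonneg (hh0 M') (hL0 M').le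
  linarith

end Pool.Agent.H68.OF
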