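import Pool.Agent.H68.OF.Gain
import Pool.Agent.H68.OF.Dec
import Pool.Agent.H68.OF.Cheb

/-!
Module ENT: combination of `gain`, `dec` and `card_PP`.
Word length at level `m`: `c * 2^m` with `c = 2 * (D + 2)`, so that for `i < 2^(m+1)` and
`j ≤ D * 2^(m+1)` the position `i + j` is `< c * 2^m`. `φ m p (tr i w)` depends only on the word at `w`
(hypothesis `hdet`): choose `ψ p i a := φ m p (tr i w₀)` for some `w₀` with `word ξ L w₀ = a` if there is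
one, and `0` otherwise. `gain` with `B = 2^m`, `P = PP m` gives `η m ^2 * |PP m| / 18 ≤ Info`, `dec` gives
`∑ Info / (c 2^m) ≤ log |S|`, and `|PP m| ≥ c' 2^m/m`. So `C = 18 c / c'`.
-/

set_option autoImplicit false

open Filter Topology

namespace Pool.Agent.H68.OF

/-- one level -/
lemma ent_level (D : ℕ) (M : Mn) (S : Type) [Fintype S] (ξ : Om → S) (m₁ m : ℕ)
    (φ : ℕ → Om → ℝ) (hφ : ∀ p w, |φ p w| ≤ 1)
    (hdet : ∀ p ∈ PP m, ∀ w w' : Om,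
      (∀ j : ℕ, j ≤ D * 2 ^ (m + 1) → ξ (tr j w) = ξ (tr j w')) → φ p w = φ p w')
    (η : ℝ) (hη : 0 ≤ η)
    (hsum : η * (PP m).card ≤ ∑ p ∈ PP m, M.E (fun w => (dv p w.2 - 1) * φ p w)) :
    η ^ 2 * (PP m).card / 18 ≤
      Info M (word ξ (2 * (D + 2) * 2 ^ m)) (res (QQ m)) (res (WW m₁ m)) := by
  classical
  haveI : NeZero (∏ p ∈ PP m, p) := neZero_QQ m
  have hg := gain M (PP m) (2 ^ m) (WW m₁ m)
    (by
      intro p hp
      unfold PP at hp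
      rw [Finset.mem_filter, Finset.mem_Ioc] at hp
      refine ⟨hp.2, ?_⟩
      have := hp.1.2
      rw [pow_succ] at this
      omega)
    (by positivity) (coprime_QQ_WW m₁ m) (word ξ (2 * (D + 2) * 2 ^ m)) φ hφ
    (fun p i a => if h : ∃ w₀, word ξ (2 * (D + 2) * 2 ^ m) w₀ = a then φ p (tr i h.choose) else 0)
    (by
      intro p i a
      split_ifs with h
      · exact hφ _ _
      · simp)
    (by
      intro p hp i hi w
      have h : ∃ w₀, word ξ (2 * (D + 2) * 2 ^ m) w₀ = word ξ (2 * (D + 2) * 2 ^ m) w := ⟨w, rfl⟩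
      rw [dif_pos h]
      refine hdet p hp _ _ fun j hj => ?_
      have h2 := h.choose_spec
      have hlt : i + j < 2 * (D + 2) * 2 ^ m := by
        rw [pow_succ] at hj
        have h3 : 0 < 2 ^ m := by positivity
        nlinarith
      have h3 := congrFun h2 ⟨i + j, hlt⟩
      unfold word at h3
      rw [tr_tr, tr_tr]
      have h4 : ((⟨i + j, hlt⟩ : Fin (2 * (D + 2) * 2 ^ m)) : ℤ) = (i : ℤ) + (j : ℤ) := by
        simp
      simp only [Nat.cast_add] at h3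
      exact h3.symm)
    η hη hsum
  exact hg

theorem ent (D : ℕ) : ∃ C : ℝ, 0 ≤ C ∧ ∀ (M : Mn) (S : Type) [Fintype S] [Nonempty S]
    (ξ : Om → S) (m₁ M' : ℕ), 1 ≤ m₁ → ∀ (φ : ℕ → ℕ → Om → ℝ), (∀ m p w, |φ m p w| ≤ 1) →
    (∀ m, ∀ p ∈ PP m, ∀ w w' : Om, (∀ j : ℕ, j ≤ D * 2 ^ (m + 1) → ξ (tr j w) = ξ (tr j w')) →
      φ m p w = φ m p w') →
    ∀ η : ℕ → ℝ, (∀ m, 0 ≤ η m) →
    (∀ m ∈ Finset.Ico m₁ M', η m * (PP m).card
      ≤ ∑ p ∈ PP m, M.E (fun w => (dv p w.2 - 1) * φ m p w)) →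
    ∑ m ∈ Finset.Ico m₁ M', η m ^ 2 / (m : ℝ) ≤ C * Real.log (Fintype.card S) := by
  obtain ⟨c', hc', hcard⟩ := card_PP
  refine ⟨18 * (2 * (D + 2) : ℕ) / c', by positivity, ?_⟩
  intro M S _ _ ξ m₁ M' hm₁ φ hφ hdet η hη hsum
  have hdec := dec M ξ (2 * (D + 2)) (by omega) m₁ M'
  have h1 : ∀ m ∈ Finset.Ico m₁ M', η m ^ 2 / (m : ℝ) ≤ 18 * ((2 * (D + 2) : ℕ) : ℝ) / c' *
      (Info M (word ξ (2 * (D + 2) * 2 ^ m)) (res (QQ m)) (res (WW m₁ m)) /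
        ((2 * (D + 2) * 2 ^ m : ℕ) : ℝ)) := by
    intro m hm
    have hm1 : 1 ≤ m := by
      have := (Finset.mem_Ico.mp hm).1
      omega
    have hl := ent_level D M S ξ m₁ m (φ m) (hφ m) (hdet m) (η m) (hη m) (hsum m hm)
    have hc := hcard m hm1
    have hm0 : (0 : ℝ) < m := by exact_mod_cast hm1
    have hD : (0 : ℝ) < ((2 * (D + 2) : ℕ) : ℝ) := by positivity
    have h2 : (0 : ℝ) < 2 ^ m := by positivity
    have h3 : η m ^ 2 * (c' * 2 ^ m / m) / 18 ≤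
        Info M (word ξ (2 * (D + 2) * 2 ^ m)) (res (QQ m)) (res (WW m₁ m)) := by
      refine le_trans ?_ hl
      have : η m ^ 2 * (c' * 2 ^ m / m) ≤ η m ^ 2 * ((PP m).card : ℝ) :=
        mul_le_mul_of_nonneg_left hc (sq_nonneg _)
      linarith
    have h4 : η m ^ 2 / (m : ℝ) = 18 * ((2 * (D + 2) : ℕ) : ℝ) / c' *
        ((η m ^ 2 * (c' * 2 ^ m / m) / 18) / ((2 * (D + 2) * 2 ^ m : ℕ) : ℝ)) := by
      have h5 : ((2 * (D + 2) * 2 ^ m : ℕ) : ℝ) = ((2 * (D + 2) : ℕ) : ℝ) * 2 ^ m := by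
        push_cast
        ring
      rw [h5]
      generalize ((2 * (D + 2) : ℕ) : ℝ) = x at hD
      field_simp
    rw [h4]
    refine mul_le_mul_of_nonneg_left ?_ (by positivity)
    exact div_le_div_of_nonneg_right h3 (by positivity)
  calc ∑ m ∈ Finset.Ico m₁ M', η m ^ 2 / (m : ℝ)
      ≤ ∑ m ∈ Finset.Ico m₁ M', 18 * ((2 * (D + 2) : ℕ) : ℝ) / c' *
      (Info M (word ξ (2 * (D + 2) * 2 ^ m)) (res (QQ m)) (res (WW m₁ m)) /
        ((2 * (D + 2) * 2 ^ m : ℕ) : ℝ)) := Finset.sum_le_sum h1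
    _ = 18 * ((2 * (D + 2) : ℕ) : ℝ) / c' * ∑ m ∈ Finset.Ico m₁ M',
      (Info M (word ξ (2 * (D + 2) * 2 ^ m)) (res (QQ m)) (res (WW m₁ m)) /
        ((2 * (D + 2) * 2 ^ m : ℕ) : ℝ)) := by rw [Finset.mul_sum]
    _ ≤ 18 * ((2 * (D + 2) : ℕ) : ℝ) / c' * Real.log (Fintype.card S) :=
        mul_le_mul_of_nonneg_left hdec (by positivity)

end Pool.Agent.H68.OF
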