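import Pool.Agent.H68.OF.Crt

/-!
Module HOE: Hoeffding bound. For `|φ| ≤ 3` with mean zero over a period `p`:
`(1/p) ∑ exp(λ φ(n)) ≤ exp(9 λ²/2)`. By convexity `exp(λx) ≤ cosh(3λ) + (x/3) sinh(3λ)` for `|x| ≤ 3`,
and `Real.cosh_le_exp_half_sq`. The product version follows from `crt_prod`.
-/

set_option autoImplicit false

namespace Pool.Agent.H68.OF

lemma hoe_conv (lam x : ℝ) (hx : |x| ≤ 3) :
    Real.exp (lam * x) ≤ Real.cosh (3 * lam) + (x / 3) * Real.sinh (3 * lam) := by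
  obtain ⟨h1, h2⟩ := abs_le.1 hx
  have hc := convexOn_exp.2 (Set.mem_univ (3 * lam)) (Set.mem_univ (-(3 * lam)))
    (show (0 : ℝ) ≤ 1 / 2 + x / 6 by linarith) (show (0 : ℝ) ≤ 1 / 2 - x / 6 by linarith)
    (by ring)
  simp only [smul_eq_mul] at hc
  have e1 : (1 / 2 + x / 6) * (3 * lam) + (1 / 2 - x / 6) * -(3 * lam) = lam * x := by ring
  rw [e1] at hc
  rw [Real.cosh_eq, Real.sinh_eq]
  linarith

lemma hoe_one (p : ℕ) (hp : 0 < p) (φ : ℕ → ℝ) (hφ : ∀ n < p, |φ n| ≤ 3)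
    (h0 : ∑ n ∈ Finset.range p, φ n = 0) (lam : ℝ) :
    ∑ n ∈ Finset.range p, Real.exp (lam * φ n) ≤ p * Real.exp (9 * lam ^ 2 / 2) := by
  calc ∑ n ∈ Finset.range p, Real.exp (lam * φ n)
      ≤ ∑ n ∈ Finset.range p, (Real.cosh (3 * lam) + (φ n / 3) * Real.sinh (3 * lam)) :=
        Finset.sum_le_sum (fun n hn => hoe_conv lam (φ n) (hφ n (Finset.mem_range.1 hn)))
    _ = p * Real.cosh (3 * lam) := by
        rw [Finset.sum_add_distrib, ← Finset.sum_mul, ← Finset.sum_div, h0]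
        simp
    _ ≤ p * Real.exp (9 * lam ^ 2 / 2) := by
        have h := Real.cosh_le_exp_half_sq (3 * lam)
        have e : (3 * lam) ^ 2 / 2 = 9 * lam ^ 2 / 2 := by ring
        rw [e] at h
        exact mul_le_mul_of_nonneg_left h (Nat.cast_nonneg p)

theorem hoe_prod (s : Finset ℕ) (hs : ∀ p ∈ s, p.Prime) (φ : ℕ → ℤ → ℝ)
    (hper : ∀ p ∈ s, ∀ n, φ p (n + p) = φ p n) (hφ : ∀ p ∈ s, ∀ n, |φ p n| ≤ 3)
    (h0 : ∀ p ∈ s, ∑ n ∈ Finset.range p, φ p n = 0) (lam : ℝ) :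
    (1 / ((∏ p ∈ s, p : ℕ) : ℝ)) * ∑ n ∈ Finset.range (∏ p ∈ s, p),
      Real.exp (lam * ∑ p ∈ s, φ p n) ≤ Real.exp (9 * lam ^ 2 / 2 * s.card) := by
  have hpos : (0 : ℝ) < ((∏ p ∈ s, p : ℕ) : ℝ) := by
    exact_mod_cast Finset.prod_pos (fun p hp => (hs p hp).pos)
  have h1 : ∑ n ∈ Finset.range (∏ p ∈ s, p), Real.exp (lam * ∑ p ∈ s, φ p n)
      = ∏ p ∈ s, ∑ n ∈ Finset.range p, Real.exp (lam * φ p n) := by
    rw [← crt_prod s hs (fun p n => Real.exp (lam * φ p n))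
      (fun p hp n => by simp only [hper p hp n])]
    refine Finset.sum_congr rfl (fun n _ => ?_)
    rw [Finset.mul_sum, Real.exp_sum]
  have h2 : ∏ p ∈ s, ∑ n ∈ Finset.range p, Real.exp (lam * φ p n)
      ≤ ∏ p ∈ s, ((p : ℝ) * Real.exp (9 * lam ^ 2 / 2)) := by
    refine Finset.prod_le_prod (fun p _ => Finset.sum_nonneg (fun n _ => (Real.exp_pos _).le))
      (fun p hp => ?_)
    exact hoe_one p (hs p hp).pos (fun n => φ p n) (fun n _ => hφ p hp n) (h0 p hp) lam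
  have h3 : ∏ p ∈ s, ((p : ℝ) * Real.exp (9 * lam ^ 2 / 2))
      = ((∏ p ∈ s, p : ℕ) : ℝ) * Real.exp (9 * lam ^ 2 / 2 * s.card) := by
    rw [Finset.prod_mul_distrib, Finset.prod_const, ← Real.exp_nat_mul, Nat.cast_prod]
    congr 2
    ring
  rw [h1, one_div, inv_mul_le_iff₀ hpos, ← h3]
  exact h2

end Pool.Agent.H68.OF
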