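import Pool.Agent.H68.OF.Var
import Pool.Agent.H68.OF.Per
import Pool.Agent.H68.OF.Hoe

/-!
Module GAIN: if the word knows the residues modulo the primes of `P` (all in `(B, 2B]`) then the
conditional mutual information is large.

Proof. Let `B2 = 2B`, `φ_p(a, n) = (1/B2) ∑_{i<B2} (dv p (n+i) - 1) ψ p i a` for `a : A`, `n : ℤ`.
`|φ_p| ≤ 3` because `∑_{i<B2} dv p (n+i) ≤ p (B2/p + 1) ≤ 2 B2` (at most `B2/p+1` multiples of `p` in a
window of length `B2`, and `p ≤ B2`), it has period `p` in `n`, and sum zero over a period (each `i`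
gives `∑_{n<p} (dv p (n+i) - 1) = 0`). Apply `info_ge` with `y = res (∏ p)`, `z = res W`
(`pr_res_ind`), `Φ a b = lam * ∑_p φ_p(a, b.val)`, `β = 9 lam²/2 * |P|` (`hoe_prod`, `pr_res`; the sum
over `ZMod Q` is the sum over `range Q`). By periodicity `Φ (x w) (res Q w) = lam ∑_p φ_p(x w, w.2)`, and
`E [(dv p (w.2+i) - 1) ψ p i (x w)] = E [(dv p (w.2+i) - 1) f p (tr i w)] = E [(dv p w.2 - 1) f p w]` by
`hψ` and invariance. So `lam * η * |P| - 9 lam²/2 |P| ≤ Info`; take `lam = η/9`.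
-/

set_option autoImplicit false

open Filter Topology

namespace Pool.Agent.H68.OF

lemma dv_period (p : ℕ) (n : ℤ) : dv p (n + p) = dv p n := by
  unfold dv
  simp only [dvd_add_self_right]

lemma gain_dv_congr (p : ℕ) {m n : ℤ} (h : (p : ℤ) ∣ m - n) (i : ℤ) :
    dv p (m + i) = dv p (n + i) := by
  unfold dv
  have h1 : (p : ℤ) ∣ m + i ↔ (p : ℤ) ∣ n + i := by
    have h2 : m + i = (m - n) + (n + i) := by ring
    rw [h2]
    exact dvd_add_right h
  simp only [h1]

lemma gain_dv_nonneg (p : ℕ) (n : ℤ) : 0 ≤ dv p n := by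
  unfold dv
  split_ifs <;> positivity

lemma gain_dv_le (p : ℕ) (n : ℤ) : dv p n ≤ p := by
  unfold dv
  split_ifs
  · exact le_rfl
  · positivity

lemma sum_dv (p : ℕ) (hp : 0 < p) (n : ℤ) : ∑ i ∈ Finset.range p, dv p (n + i) = p := by
  have hp' : (0 : ℤ) < p := by exact_mod_cast hp
  obtain ⟨i0, hi0⟩ : ∃ i0 : ℕ, (i0 : ℤ) = (-n) % p :=
    ⟨((-n) % p).toNat, Int.toNat_of_nonneg (Int.emod_nonneg _ hp'.ne')⟩
  have hi0p : i0 < p := by
    have := Int.emod_lt_of_pos (-n) hp'
    rw [← hi0] at this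
    exact_mod_cast this
  have h1 : ∀ i ∈ Finset.range p, dv p (n + i) = if i = i0 then (p : ℝ) else 0 := by
    intro i hi
    rw [Finset.mem_range] at hi
    unfold dv
    have h2 : (p : ℤ) ∣ n + i ↔ i = i0 := by
      rw [Int.dvd_iff_emod_eq_zero]
      have h3 : n + (i : ℤ) = (i : ℤ) - (-n) := by ring
      rw [h3, ← Int.emod_eq_emod_iff_emod_sub_eq_zero, ← hi0,
        Int.emod_eq_of_lt (by positivity) (by exact_mod_cast hi)]
      exact Nat.cast_inj
    simp only [h2]
  rw [Finset.sum_congr rfl h1, Finset.sum_ite_eq', if_pos (Finset.mem_range.2 hi0p)]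

lemma gain_sum_mul (p : ℕ) (hp : 0 < p) (n : ℤ) (k : ℕ) :
    ∑ i ∈ Finset.range (p * k), dv p (n + i) = p * k := by
  induction k with
  | zero => simp
  | succ k ih =>
    rw [Nat.mul_succ, Finset.sum_range_add, ih]
    have h1 : ∑ x ∈ Finset.range p, dv p (n + ((p * k + x : ℕ) : ℤ)) =
        ∑ x ∈ Finset.range p, dv p (n + (x : ℤ)) := by
      refine Finset.sum_congr rfl fun x _ => ?_
      have h2 := gain_dv_congr p (m := n + p * k) (n := n) ⟨k, by ring⟩ x
      rw [← h2]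
      congr 1
      push_cast
      ring
    rw [h1, sum_dv p hp n]
    push_cast
    ring

lemma sum_dv_le (p B : ℕ) (hp : 0 < p) (hB : p ≤ B) (n : ℤ) :
    ∑ i ∈ Finset.range B, dv p (n + i) ≤ 2 * B := by
  have h1 : B ≤ p * (B / p + 1) := by
    have := Nat.lt_mul_div_succ B hp
    omega
  have h2 : p * (B / p + 1) ≤ 2 * B := by
    have := Nat.mul_div_le B p
    rw [Nat.mul_add, mul_one]
    omega
  calc ∑ i ∈ Finset.range B, dv p (n + i)
      ≤ ∑ i ∈ Finset.range (p * (B / p + 1)), dv p (n + i) := by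
        apply Finset.sum_le_sum_of_subset_of_nonneg
        · exact Finset.range_subset_range.2 h1
        · intro i _ _
          exact gain_dv_nonneg p _
    _ = p * ((B / p + 1 : ℕ) : ℝ) := gain_sum_mul p hp n _
    _ ≤ 2 * B := by exact_mod_cast h2

lemma gain_sum_zmod (Q : ℕ) [NeZero Q] (F : ℕ → ℝ) :
    ∑ b : ZMod Q, F b.val = ∑ n ∈ Finset.range Q, F n := by
  refine Finset.sum_bij' (fun b _ => b.val) (fun n _ => (n : ZMod Q)) ?_ ?_ ?_ ?_ ?_
  · intro b _
    exact Finset.mem_range.2 (ZMod.val_lt b)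
  · intro n _
    exact Finset.mem_univ _
  · intro b _
    exact ZMod.natCast_zmod_val b
  · intro n hn
    exact ZMod.val_natCast_of_lt (Finset.mem_range.1 hn)
  · intro b _
    rfl

theorem gain (M : Mn) (P : Finset ℕ) (B W : ℕ) [NeZero W] [NeZero (∏ p ∈ P, p)]
    (hP : ∀ p ∈ P, p.Prime ∧ p ≤ 2 * B) (hB : 0 < B) (hcop : Nat.Coprime (∏ p ∈ P, p) W)
    {A : Type} [Fintype A] (x : Om → A) (f : ℕ → Om → ℝ) (hf : ∀ p w, |f p w| ≤ 1)
    (ψ : ℕ → ℕ → A → ℝ) (hψ1 : ∀ p i a, |ψ p i a| ≤ 1)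
    (hψ : ∀ p ∈ P, ∀ i < 2 * B, ∀ w, f p (tr i w) = ψ p i (x w))
    (η : ℝ) (hη : 0 ≤ η)
    (hsum : η * P.card ≤ ∑ p ∈ P, M.E (fun w => (dv p w.2 - 1) * f p w)) :
    η ^ 2 * P.card / 18 ≤ Info M x (res (∏ p ∈ P, p)) (res W) := by
  classical
  set Q : ℕ := ∏ p ∈ P, p with hQ
  set B2 : ℕ := 2 * B with hB2
  have hB2pos : 0 < B2 := by omega
  have hB2r : (0 : ℝ) < B2 := by exact_mod_cast hB2pos
  set lam : ℝ := η / 9 with hlam
  set φ : A → ℕ → ℤ → ℝ := fun a p n =>
    (1 / (B2 : ℝ)) * ∑ i ∈ Finset.range B2, (dv p (n + i) - 1) * ψ p i a with hφ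
  have hφcongr : ∀ (a : A) (p : ℕ) (m n : ℤ), (p : ℤ) ∣ m - n → φ a p m = φ a p n := by
    intro a p m n h
    rw [hφ]
    dsimp only
    congr 1
    refine Finset.sum_congr rfl fun i _ => ?_
    rw [gain_dv_congr p h]
  have hφper : ∀ a, ∀ p ∈ P, ∀ n, φ a p (n + p) = φ a p n := by
    intro a p _ n
    exact hφcongr a p _ _ ⟨1, by ring⟩
  have hφ3 : ∀ a, ∀ p ∈ P, ∀ n, |φ a p n| ≤ 3 := by
    intro a p hp n
    obtain ⟨hpp, hpB⟩ := hP p hp
    rw [hφ]
    dsimp only
    rw [abs_mul, abs_of_nonneg (by positivity)]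
    have h1 : |∑ i ∈ Finset.range B2, (dv p (n + i) - 1) * ψ p i a| ≤ 3 * B2 := by
      calc |∑ i ∈ Finset.range B2, (dv p (n + i) - 1) * ψ p i a|
          ≤ ∑ i ∈ Finset.range B2, |(dv p (n + i) - 1) * ψ p i a| :=
            Finset.abs_sum_le_sum_abs _ _
        _ ≤ ∑ i ∈ Finset.range B2, (dv p (n + i) + 1) := by
            refine Finset.sum_le_sum fun i _ => ?_
            rw [abs_mul]
            have h2 : |dv p (n + i) - 1| ≤ dv p (n + i) + 1 := by
              have := gain_dv_nonneg p (n + i)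
              rw [abs_le]
              constructor <;> linarith
            calc |dv p (n + i) - 1| * |ψ p i a| ≤ (dv p (n + i) + 1) * 1 := by
                  apply mul_le_mul h2 (hψ1 p i a) (abs_nonneg _)
                  have := gain_dv_nonneg p (n + i)
                  linarith
              _ = dv p (n + i) + 1 := mul_one _
        _ = (∑ i ∈ Finset.range B2, dv p (n + i)) + B2 := by
            rw [Finset.sum_add_distrib, Finset.sum_const, Finset.card_range, nsmul_eq_mul,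
              mul_one]
        _ ≤ 2 * B2 + B2 := by
            have := sum_dv_le p B2 hpp.pos hpB n
            linarith
        _ = 3 * B2 := by ring
    calc 1 / (B2 : ℝ) * |∑ i ∈ Finset.range B2, (dv p (n + i) - 1) * ψ p i a|
        ≤ 1 / (B2 : ℝ) * (3 * B2) := mul_le_mul_of_nonneg_left h1 (by positivity)
      _ = 3 := by field_simp
  have hφ0 : ∀ a, ∀ p ∈ P, ∑ n ∈ Finset.range p, φ a p n = 0 := by
    intro a p hp
    obtain ⟨hpp, _⟩ := hP p hp
    rw [hφ]
    dsimp only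
    rw [← Finset.mul_sum, Finset.sum_comm]
    have h1 : ∀ i ∈ Finset.range B2, ∑ n ∈ Finset.range p, (dv p ((n : ℤ) + i) - 1) * ψ p i a
        = 0 := by
      intro i _
      rw [← Finset.sum_mul, Finset.sum_sub_distrib, Finset.sum_const, Finset.card_range,
        nsmul_eq_mul, mul_one]
      have h2 : ∑ n ∈ Finset.range p, dv p ((n : ℤ) + i) = p := by
        rw [← sum_dv p hpp.pos (i : ℤ)]
        refine Finset.sum_congr rfl fun n _ => ?_
        rw [add_comm]
      rw [h2, sub_self, zero_mul]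
    rw [Finset.sum_eq_zero h1, mul_zero]
  -- the variational inequality
  have hmain := info_ge M x (res Q) (res W) (fun b c => pr_res_ind M Q W hcop b c)
    (fun a b => lam * ∑ p ∈ P, φ a p ((b.val : ℕ) : ℤ)) (9 * lam ^ 2 / 2 * P.card) (by
      intro a
      have h1 := hoe_prod P (fun p hp => (hP p hp).1) (φ a) (hφper a) (hφ3 a) (hφ0 a) lam
      refine le_trans (le_of_eq ?_) h1
      have h2 : ∀ b : ZMod Q, pr M (res Q) b * Real.exp (lam * ∑ p ∈ P, φ a p ((b.val : ℕ) : ℤ)) =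
          (fun n : ℕ => 1 / (Q : ℝ) * Real.exp (lam * ∑ p ∈ P, φ a p (n : ℤ))) b.val := by
        intro b
        rw [pr_res]
      rw [Finset.sum_congr rfl fun b _ => h2 b]
      refine (gain_sum_zmod Q (fun n : ℕ => 1 / (Q : ℝ) *
        Real.exp (lam * ∑ p ∈ P, φ a p (n : ℤ)))).trans ?_
      rw [← Finset.mul_sum])
  -- the mean
  have hBg : ∀ p, Bdd (fun w : Om => (dv p w.2 - 1) * f p w) := by
    intro p
    refine ⟨(p + 1) * 1, fun w => ?_⟩
    rw [abs_mul]
    apply mul_le_mul _ (hf p w) (abs_nonneg _) (by positivity)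
    have h1 := gain_dv_nonneg p w.2
    have h2 := gain_dv_le p w.2
    rw [abs_le]
    constructor <;> linarith
  have hE : M.E (fun w => lam * ∑ p ∈ P, φ (x w) p (((res Q w).val : ℕ) : ℤ)) =
      lam * ∑ p ∈ P, M.E (fun w => (dv p w.2 - 1) * f p w) := by
    have h1 : (fun w : Om => lam * ∑ p ∈ P, φ (x w) p (((res Q w).val : ℕ) : ℤ)) =
        fun w => ∑ p ∈ P, ∑ i ∈ Finset.range B2, (lam / B2) *
          ((fun w' : Om => (dv p w'.2 - 1) * f p w') (tr (i : ℤ) w)) := by
      funext w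
      rw [Finset.mul_sum]
      refine Finset.sum_congr rfl fun p hp => ?_
      have h2 : φ (x w) p (((res Q w).val : ℕ) : ℤ) = φ (x w) p w.2 := by
        apply hφcongr
        have h3 : (((res Q w).val : ℕ) : ℤ) = w.2 % Q := ZMod.val_intCast w.2
        rw [h3]
        have h4 : (p : ℤ) ∣ (Q : ℤ) := by
          rw [hQ]
          exact_mod_cast Finset.dvd_prod_of_mem (fun p => p) hp
        have h5 : w.2 % (Q : ℤ) - w.2 = (Q : ℤ) * (-(w.2 / Q)) := by
          have := Int.emod_add_mul_ediv w.2 (Q : ℤ)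
          linear_combination this
        rw [h5]
        exact h4.mul_right _
      rw [h2, hφ]
      dsimp only
      rw [← mul_assoc, Finset.mul_sum]
      refine Finset.sum_congr rfl fun i hi => ?_
      rw [Finset.mem_range] at hi
      rw [hψ p hp i hi w, tr_snd]
      ring
    rw [h1, E_sum M P (f := fun p w => ∑ i ∈ Finset.range B2, (lam / B2) *
          ((fun w' : Om => (dv p w'.2 - 1) * f p w') (tr (i : ℤ) w)))
      (fun p _ => Bdd.sum _ fun i _ => (Bdd.const _).mul ((hBg p).tr _)), Finset.mul_sum]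
    refine Finset.sum_congr rfl fun p _ => ?_
    rw [E_sum M (Finset.range B2) (f := fun i w => (lam / B2) *
          ((fun w' : Om => (dv p w'.2 - 1) * f p w') (tr (i : ℤ) w)))
      (fun i _ => (Bdd.const _).mul ((hBg p).tr _))]
    have h3 : ∀ i ∈ Finset.range B2, M.E (fun w => (lam / B2) *
        ((fun w' : Om => (dv p w'.2 - 1) * f p w') (tr (i : ℤ) w))) =
        (lam / B2) * M.E (fun w => (dv p w.2 - 1) * f p w) := by
      intro i _
      rw [M.smul' _ _ ((hBg p).tr _), E_tr M (hBg p)]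
    rw [Finset.sum_congr rfl h3, Finset.sum_const, Finset.card_range, nsmul_eq_mul]
    field_simp
  rw [hE] at hmain
  have hcard : (0 : ℝ) ≤ P.card := Nat.cast_nonneg _
  have hlam0 : 0 ≤ lam := by rw [hlam]; positivity
  have h1 : lam * (η * P.card) ≤ lam * ∑ p ∈ P, M.E (fun w => (dv p w.2 - 1) * f p w) :=
    mul_le_mul_of_nonneg_left hsum hlam0
  have h2 : η ^ 2 * P.card / 18 = lam * (η * P.card) - 9 * lam ^ 2 / 2 * P.card := by
    rw [hlam]
    ring
  rw [h2]
  linarith

end Pool.Agent.H68.OF
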