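import Pool.Agent.H68.OF.XX

/-!
Module MEANA: elementary properties of an invariant mean on bounded real functions.
All proofs are short. `Bdd` is preserved by sums, products, scalar multiples, translation.
-/

set_option autoImplicit false

open Filter Topology

namespace Pool.Agent.H68.OF

lemma Bdd.add {f g : Om → ℝ} (hf : Bdd f) (hg : Bdd g) : Bdd (fun w => f w + g w) := by
  obtain ⟨C, hC⟩ := hf
  obtain ⟨D, hD⟩ := hg
  exact ⟨C + D, fun w => (abs_add_le _ _).trans (add_le_add (hC w) (hD w))⟩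

lemma Bdd.sub {f g : Om → ℝ} (hf : Bdd f) (hg : Bdd g) : Bdd (fun w => f w - g w) := by
  obtain ⟨C, hC⟩ := hf
  obtain ⟨D, hD⟩ := hg
  exact ⟨C + D, fun w => (abs_sub _ _).trans (add_le_add (hC w) (hD w))⟩

lemma Bdd.mul {f g : Om → ℝ} (hf : Bdd f) (hg : Bdd g) : Bdd (fun w => f w * g w) := by
  obtain ⟨C, hC⟩ := hf
  obtain ⟨D, hD⟩ := hg
  refine ⟨C * D, fun w => ?_⟩
  rw [abs_mul]
  exact mul_le_mul (hC w) (hD w) (abs_nonneg _) ((abs_nonneg _).trans (hC w))

lemma Bdd.const (c : ℝ) : Bdd (fun _ => c) := ⟨|c|, fun _ => le_rfl⟩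

lemma Bdd.sum {ι : Type} (s : Finset ι) {f : ι → Om → ℝ} (hf : ∀ i ∈ s, Bdd (f i)) :
    Bdd (fun w => ∑ i ∈ s, f i w) := by
  classical
  induction s using Finset.induction_on with
  | empty =>
    simp only [Finset.sum_empty]
    exact Bdd.const 0
  | insert a s ha ih =>
    simp only [Finset.sum_insert ha]
    exact (hf a (Finset.mem_insert_self _ _)).add
      (ih (fun i hi => hf i (Finset.mem_insert_of_mem hi)))

lemma Bdd.tr {f : Om → ℝ} (hf : Bdd f) (a : ℤ) : Bdd (fun w => f (tr a w)) := by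
  obtain ⟨C, hC⟩ := hf
  exact ⟨C, fun w => hC _⟩

lemma Bdd.ite {P : Om → Prop} [DecidablePred P] {f g : Om → ℝ} (hf : Bdd f) (hg : Bdd g) :
    Bdd (fun w => if P w then f w else g w) := by
  obtain ⟨C, hC⟩ := hf
  obtain ⟨D, hD⟩ := hg
  refine ⟨max C D, fun w => ?_⟩
  dsimp only
  split_ifs
  · exact (hC w).trans (le_max_left _ _)
  · exact (hD w).trans (le_max_right _ _)

lemma Bdd.of_finite {S : Type} [Finite S] (x : Om → S) (F : S → ℝ) : Bdd (fun w => F (x w)) := by
  obtain ⟨C, hC⟩ := (Set.finite_range (fun s => |F s|)).bddAbove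
  exact ⟨C, fun w => hC ⟨x w, rfl⟩⟩

variable (M : Mn)

lemma E_const (c : ℝ) : M.E (fun _ => c) = c := by
  have h := M.smul' c (fun _ => 1) (Bdd.const 1)
  rw [M.one', mul_one] at h
  simpa using h

lemma E_neg {f : Om → ℝ} (hf : Bdd f) : M.E (fun w => - f w) = - M.E f := by
  have h := M.smul' (-1) f hf
  simpa using h

lemma E_sub {f g : Om → ℝ} (hf : Bdd f) (hg : Bdd g) :
    M.E (fun w => f w - g w) = M.E f - M.E g := by
  have hn : Bdd (fun w => - g w) := by
    obtain ⟨D, hD⟩ := hg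
    exact ⟨D, fun w => by rw [abs_neg]; exact hD w⟩
  have h := M.add' f (fun w => - g w) hf hn
  rw [E_neg M hg] at h
  simpa [sub_eq_add_neg] using h

lemma E_sum {ι : Type} (s : Finset ι) {f : ι → Om → ℝ} (hf : ∀ i ∈ s, Bdd (f i)) :
    M.E (fun w => ∑ i ∈ s, f i w) = ∑ i ∈ s, M.E (f i) := by
  classical
  induction s using Finset.induction_on with
  | empty =>
    simp only [Finset.sum_empty]
    exact E_const M 0
  | insert a s ha ih =>
    simp only [Finset.sum_insert ha]
    rw [← ih (fun i hi => hf i (Finset.mem_insert_of_mem hi))]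
    exact M.add' _ _ (hf a (Finset.mem_insert_self _ _))
      (Bdd.sum s (fun i hi => hf i (Finset.mem_insert_of_mem hi)))

lemma E_mono {f g : Om → ℝ} (hf : Bdd f) (hg : Bdd g) (h : ∀ w, f w ≤ g w) : M.E f ≤ M.E g := by
  have h1 := M.nonneg' (fun w => g w - f w) (hg.sub hf) (fun w => sub_nonneg.2 (h w))
  rw [E_sub M hg hf] at h1
  linarith

lemma abs_E_le {f : Om → ℝ} {C : ℝ} (h : ∀ w, |f w| ≤ C) : |M.E f| ≤ C := by
  have hf : Bdd f := ⟨C, h⟩
  rw [abs_le]
  constructor
  · have h1 := E_mono M (Bdd.const (-C)) hf (fun w => (abs_le.1 (h w)).1)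
    rwa [E_const] at h1
  · have h1 := E_mono M hf (Bdd.const C) (fun w => (abs_le.1 (h w)).2)
    rwa [E_const] at h1

/-- invariance under all integer translations -/
lemma E_tr {f : Om → ℝ} (hf : Bdd f) (a : ℤ) : M.E (fun w => f (tr a w)) = M.E f := by
  have key : ∀ b : ℤ, M.E (fun w => f (tr (b + 1) w)) = M.E (fun w => f (tr b w)) := by
    intro b
    have h := M.inv' (fun w => f (tr b w)) (hf.tr b)
    rw [← h]
    congr 1
    funext w
    rw [tr_tr, add_comm b 1]
  induction a using Int.induction_on with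
  | zero => simp only [tr_zero]
  | succ i ih => rw [key]; exact ih
  | pred i ih =>
    rw [← ih, ← key (-(i : ℤ) - 1)]
    simp only [sub_add_cancel]

end Pool.Agent.H68.OF
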