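import Pool.Agent.H68.OF.MeanA

/-!
Module PR: laws and entropies of finitely valued functions, elementary properties.
-/

set_option autoImplicit false

open Filter Topology

namespace Pool.Agent.H68.OF

variable (M : Mn)

lemma pr_bdd {S : Type} (f : Om → S) (s : S) [∀ w, Decidable (f w = s)] :
    Bdd (fun w => if f w = s then (1 : ℝ) else 0) :=
  ⟨1, fun w => by dsimp only; split_ifs <;> simp⟩

lemma pr_def {S : Type} (f : Om → S) (s : S) [∀ w, Decidable (f w = s)] :
    pr M f s = M.E (fun w => if f w = s then (1 : ℝ) else 0) := by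
  unfold pr
  congr 1
  funext w
  by_cases h : f w = s
  · rw [if_pos h, if_pos h]
  · rw [if_neg h, if_neg h]

lemma pr_nonneg {S : Type} (f : Om → S) (s : S) : 0 ≤ pr M f s := by
  classical
  exact M.nonneg' _ (pr_bdd f s) (fun w => by split_ifs <;> norm_num)

lemma sum_pr {S : Type} [Fintype S] (f : Om → S) : ∑ s, pr M f s = 1 := by
  classical
  have h := E_sum M Finset.univ (f := fun (s : S) (w : Om) => if f w = s then (1 : ℝ) else 0)
    (fun s _ => pr_bdd f s)
  have h1 : (fun w : Om => ∑ s : S, (if f w = s then (1 : ℝ) else 0)) = fun _ => 1 := by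
    funext w
    simp
  rw [h1, E_const] at h
  exact h.symm

lemma pr_le_one {S : Type} (f : Om → S) (s : S) : pr M f s ≤ 1 := by
  classical
  have h := abs_E_le M (f := fun w => if f w = s then (1 : ℝ) else 0) (C := 1)
    (fun w => by split_ifs <;> simp)
  exact (le_abs_self _).trans h

/-- mean of a function of a finitely valued function -/
lemma E_comp {S : Type} [Fintype S] (f : Om → S) (F : S → ℝ) :
    M.E (fun w => F (f w)) = ∑ s, pr M f s * F s := by
  classical
  have hb : ∀ s : S, Bdd (fun w => F s * (if f w = s then (1 : ℝ) else 0)) := fun s =>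
    Bdd.mul (Bdd.const (F s)) (pr_bdd f s)
  have h := E_sum M Finset.univ
    (f := fun (s : S) (w : Om) => F s * (if f w = s then (1 : ℝ) else 0)) (fun s _ => hb s)
  have h1 : (fun w : Om => ∑ s : S, F s * (if f w = s then (1 : ℝ) else 0)) =
      fun w => F (f w) := by
    funext w
    simp
  rw [h1] at h
  rw [h]
  refine Finset.sum_congr rfl fun s _ => ?_
  have := M.smul' (F s) _ (pr_bdd f s)
  rw [this]
  unfold pr
  ring

/-- law of an image -/
lemma pr_map {S S' : Type} [Fintype S] [DecidableEq S'] (f : Om → S) (e : S → S') (s' : S') :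
    pr M (fun w => e (f w)) s' = ∑ s, if e s = s' then pr M f s else 0 := by
  rw [pr_def M (fun w => e (f w)) s']
  have h := E_comp M f (fun s => if e s = s' then (1 : ℝ) else 0)
  rw [h]
  refine Finset.sum_congr rfl fun s _ => ?_
  split_ifs <;> simp

lemma pr_fst {S S' : Type} [Fintype S'] (f : Om → S) (g : Om → S') (s : S) :
    ∑ s', pr M (fun w => (f w, g w)) (s, s') = pr M f s := by
  classical
  have h := E_sum M Finset.univ
    (f := fun (s' : S') (w : Om) => if (f w, g w) = (s, s') then (1 : ℝ) else 0)
    (fun s' _ => pr_bdd (fun w => (f w, g w)) (s, s'))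
  have h1 : (fun w : Om => ∑ s' : S', (if (f w, g w) = (s, s') then (1 : ℝ) else 0)) =
      fun w => if f w = s then (1 : ℝ) else 0 := by
    funext w
    by_cases hw : f w = s
    · simp [hw]
    · simp [hw]
  rw [h1] at h
  rw [pr_def M f s, h]
  exact Finset.sum_congr rfl fun s' _ => pr_def M (fun w => (f w, g w)) (s, s')

lemma pr_snd {S S' : Type} [Fintype S] (f : Om → S) (g : Om → S') (s' : S') :
    ∑ s, pr M (fun w => (f w, g w)) (s, s') = pr M g s' := by
  classical
  have h := E_sum M Finset.univ
    (f := fun (s : S) (w : Om) => if (f w, g w) = (s, s') then (1 : ℝ) else 0)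
    (fun s _ => pr_bdd (fun w => (f w, g w)) (s, s'))
  have h1 : (fun w : Om => ∑ s : S, (if (f w, g w) = (s, s') then (1 : ℝ) else 0)) =
      fun w => if g w = s' then (1 : ℝ) else 0 := by
    funext w
    by_cases hw : g w = s'
    · simp [hw]
    · simp [hw]
  rw [h1] at h
  rw [pr_def M g s', h]
  exact Finset.sum_congr rfl fun s _ => pr_def M (fun w => (f w, g w)) (s, s')

lemma pr_tr {S : Type} (f : Om → S) (a : ℤ) (s : S) : pr M (fun w => f (tr a w)) s = pr M f s := by
  classical
  exact E_tr M (pr_bdd f s) a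

lemma Hn_tr {S : Type} [Fintype S] (f : Om → S) (a : ℤ) : Hn M (fun w => f (tr a w)) = Hn M f := by
  unfold Hn
  exact Finset.sum_congr rfl fun s _ => by rw [pr_tr]

/-- entropy is unchanged by an injective relabelling -/
lemma Hn_inj {S S' : Type} [Fintype S] [Fintype S'] (f : Om → S) (e : S → S')
    (he : Function.Injective e) : Hn M (fun w => e (f w)) = Hn M f := by
  classical
  unfold Hn
  have h1 : ∑ s' ∈ Finset.univ.image e, Real.negMulLog (pr M (fun w => e (f w)) s') =
      ∑ s', Real.negMulLog (pr M (fun w => e (f w)) s') := by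
    refine Finset.sum_subset (Finset.subset_univ _) fun s' _ hs' => ?_
    have h2 : pr M (fun w => e (f w)) s' = 0 := by
      rw [pr_map]
      refine Finset.sum_eq_zero fun s _ => ?_
      rw [if_neg]
      intro hc
      exact hs' (Finset.mem_image.mpr ⟨s, Finset.mem_univ _, hc⟩)
    rw [h2, Real.negMulLog_zero]
  rw [← h1, Finset.sum_image (fun a _ b _ hab => he hab)]
  refine Finset.sum_congr rfl fun s _ => ?_
  congr 1
  rw [pr_map]
  have h3 : ∀ t : S, (if e t = e s then pr M f t else 0) = if t = s then pr M f t else 0 := by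
    intro t
    by_cases ht : t = s
    · simp [ht]
    · rw [if_neg (fun hc => ht (he hc)), if_neg ht]
  simp only [h3]
  simp

lemma Hn_nonneg {S : Type} [Fintype S] (f : Om → S) : 0 ≤ Hn M f :=
  Finset.sum_nonneg fun s _ => Real.negMulLog_nonneg (pr_nonneg M f s) (pr_le_one M f s)

end Pool.Agent.H68.OF
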