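import Pool.Agent.H68.OF.XX
import Pool.Agent.H2.EllMainB
import Pool.Agent.H2.RandFinal

/-!
Module SUS: unconditional examples of `SU`.

`su_slow`: apply `Pool.H2.Ell.mainB` to the tuple of length `r + 1` with `g i = g` or its conjugate for
`i < r` and the exceptional function `i₀ = last` equal to the constant function `ζ`
(`ArithmeticFunction.zeta` cast to `ℂ`, value `1` at positive integers; values `0` at finitely many
nonpositive arguments, harmless), shift of the last one different from the others. The conjugate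
`⟨fun n => conj (g n), _⟩` is multiplicative and slowly pretentious with `χ⁻¹`-like data: the conjugate of
`χ(p) p^{it}` is `conj χ (p) p^{-it}` (use the `MulChar`/`DirichletCharacter` star or inverse), the sum
is unchanged because the real part is; same for non-pretentious.

`su_rand`: apply `Pool.H2.Rand.mainR` with `ι = Bool`, `F true ω = f ω`, `F false ω` = the conjugate, the
exceptional function again `ζ`.
-/

set_option autoImplicit false

open Filter Topology MeasureTheory ProbabilityTheory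

namespace Pool.Agent.H68.OF

/-- conjugation does not change the pretentious distance -/
lemma sus_dist (g : ArithmeticFunction ℂ) {q : ℕ} (χ : DirichletCharacter ℂ q) (t : ℝ) (x : ℕ) :
    Pool.H2.Ell.dist2 (Pool.H2.Rand.conjAF g) χ t x
      = Pool.H2.Ell.dist2 g (χ.ringHomComp (starRingEnd ℂ) : DirichletCharacter ℂ q) (-t) x := by
  unfold Pool.H2.Ell.dist2
  refine Finset.sum_congr rfl fun p hp => ?_
  have hp' : p.Prime := (Finset.mem_filter.1 hp).2
  congr 2
  have hcp : (starRingEnd ℂ) ((p : ℂ) ^ (Complex.I * (t : ℂ))) = (p : ℂ) ^ (Complex.I * ((-t : ℝ) : ℂ)) := by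
    have h1 : (p : ℂ).arg ≠ Real.pi := by
      rw [Complex.natCast_arg]; exact Real.pi_pos.ne
    have h2 := Complex.cpow_conj (p : ℂ) (Complex.I * (t : ℂ)) h1
    have h3 : (starRingEnd ℂ) (p : ℂ) = (p : ℂ) := Complex.conj_natCast p
    rw [h3] at h2
    rw [← h2]
    congr 1
    simp [Complex.conj_ofReal]
  have h4 : Pool.H2.Rand.conjAF g p
      * (starRingEnd ℂ) (χ (p : ZMod q) * (p : ℂ) ^ (Complex.I * (t : ℂ)))
      = (starRingEnd ℂ) (g p * (starRingEnd ℂ)
        ((χ.ringHomComp (starRingEnd ℂ)) (p : ZMod q) * (p : ℂ) ^ (Complex.I * ((-t : ℝ) : ℂ)))) := by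
    simp only [Pool.H2.Rand.conjAF, ArithmeticFunction.coe_mk, MulChar.ringHomComp_apply, map_mul,
      Complex.conj_conj]
    rw [hcp]
  rw [h4, Complex.conj_re]

lemma sus_conj_mul {g : ArithmeticFunction ℂ} (hmul : g.IsMultiplicative) :
    (Pool.H2.Rand.conjAF g).IsMultiplicative := by
  refine ⟨by simp [Pool.H2.Rand.conjAF, hmul.map_one], ?_⟩
  intro m n hmn
  simp only [Pool.H2.Rand.conjAF, ArithmeticFunction.coe_mk]
  rw [hmul.map_mul_of_coprime hmn, map_mul]

lemma sus_one_mul : (Pool.H2.Rand.oneAF).IsMultiplicative := by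
  refine ⟨by simp [Pool.H2.Rand.oneAF], ?_⟩
  intro m n _
  simp only [Pool.H2.Rand.oneAF, ArithmeticFunction.coe_mk]
  by_cases hm : m = 0 <;> by_cases hn : n = 0 <;> simp [hm, hn]

lemma sus_one_bd (n : ℕ) : ‖Pool.H2.Rand.oneAF n‖ ≤ 1 := by
  simp only [Pool.H2.Rand.oneAF, ArithmeticFunction.coe_mk]
  split_ifs <;> simp

/-- the tuple: `g` or its conjugate, then the constant function -/
noncomputable def susG (g : ArithmeticFunction ℂ) {r : ℕ} (u : Fin r → Bool) :
    Fin (r + 1) → ArithmeticFunction ℂ :=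
  Fin.snoc (α := fun _ => ArithmeticFunction ℂ)
    (fun i => if u i then Pool.H2.Rand.conjAF g else g) Pool.H2.Rand.oneAF

/-- the shifts -/
def susH {r : ℕ} (a : Fin r → ℤ) : Fin (r + 1) → ℤ :=
  Fin.snoc (α := fun _ => ℤ) a (∑ i, |a i| + 1)

lemma susG_cast (g : ArithmeticFunction ℂ) {r : ℕ} (u : Fin r → Bool) (i : Fin r) :
    susG g u i.castSucc = if u i then Pool.H2.Rand.conjAF g else g := by
  unfold susG; rw [Fin.snoc_castSucc]

lemma susG_last (g : ArithmeticFunction ℂ) {r : ℕ} (u : Fin r → Bool) :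
    susG g u (Fin.last r) = Pool.H2.Rand.oneAF := by
  unfold susG; rw [Fin.snoc_last]

lemma susH_cast {r : ℕ} (a : Fin r → ℤ) (i : Fin r) : susH a i.castSucc = a i := by
  unfold susH; rw [Fin.snoc_castSucc]

lemma susH_last {r : ℕ} (a : Fin r → ℤ) : susH a (Fin.last r) = ∑ i, |a i| + 1 := by
  unfold susH; rw [Fin.snoc_last]

lemma susH_lt {r : ℕ} (a : Fin r → ℤ) (i : Fin r) : a i < ∑ i, |a i| + 1 := by
  have h1 : |a i| ≤ ∑ i, |a i| :=
    Finset.single_le_sum (f := fun i => |a i|) (fun _ _ => abs_nonneg _) (Finset.mem_univ i)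
  have h2 := le_abs_self (a i)
  linarith

lemma susH_inj {r : ℕ} (a : Fin r → ℤ) (ha : Function.Injective a) :
    Function.Injective (susH a) := by
  intro i j hij
  induction i using Fin.lastCases with
  | last =>
    induction j using Fin.lastCases with
    | last => rfl
    | cast j =>
      rw [susH_last, susH_cast] at hij
      exact absurd hij (susH_lt a j).ne'
  | cast i =>
    induction j using Fin.lastCases with
    | last =>
      rw [susH_last, susH_cast] at hij
      exact absurd hij (susH_lt a i).ne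
    | cast j =>
      rw [susH_cast, susH_cast] at hij
      rw [ha hij]

lemma sus_avg (g : ArithmeticFunction ℂ) {r : ℕ} (a : Fin r → ℤ) (u : Fin r → Bool)
    (h : Tendsto (fun N : ℕ => (1 / (N : ℂ)) * ∑ n ∈ Finset.Icc 1 N,
      ∏ i, susG g u i ((n : ℤ) + susH a i).toNat) atTop (𝓝 0)) :
    Tendsto (fun N : ℕ => (1 / (N : ℂ)) * ∑ n ∈ Finset.Icc 1 N,
      ∏ i, (if u i then (starRingEnd ℂ) (g ((n : ℤ) + a i).toNat) else g ((n : ℤ) + a i).toNat))
      atTop (𝓝 0) := by
  refine h.congr fun N => ?_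
  congr 1
  refine Finset.sum_congr rfl fun n hn => ?_
  rw [Fin.prod_univ_castSucc, susG_last, susH_last]
  have h1 : Pool.H2.Rand.oneAF ((n : ℤ) + (∑ i, |a i| + 1)).toNat = 1 := by
    have h2 : 0 ≤ ∑ i, |a i| := Finset.sum_nonneg fun _ _ => abs_nonneg _
    have h3 : ((n : ℤ) + (∑ i, |a i| + 1)).toNat ≠ 0 := by
      intro h4
      have := Int.toNat_eq_zero.1 h4
      have h5 : (0 : ℤ) ≤ n := Int.natCast_nonneg n
      linarith
    simp only [Pool.H2.Rand.oneAF, ArithmeticFunction.coe_mk]
    rw [if_neg h3]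
  rw [h1, mul_one]
  refine Finset.prod_congr rfl fun i _ => ?_
  rw [susG_cast, susH_cast]
  split_ifs <;> simp [Pool.H2.Rand.conjAF]

theorem su_slow (g : ArithmeticFunction ℂ) (hmul : g.IsMultiplicative) (hbd : ∀ n, ‖g n‖ ≤ 1)
    (hslow : ∃ (q : ℕ) (χ : DirichletCharacter ℂ q) (t : ℝ), 0 < q ∧
      Tendsto (fun x : ℕ => Pool.H2.Ell.dist2 g χ t (x ^ 2) - Pool.H2.Ell.dist2 g χ t x) atTop (𝓝 0))
    (hnp : ∀ (q : ℕ) (χ : DirichletCharacter ℂ q) (t : ℝ), 0 < q →
      Tendsto (Pool.H2.Ell.dist2 g χ t) atTop atTop) : SU g := by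
  intro r a u hr ha
  refine sus_avg g a u ?_
  have hconj : ∀ (q : ℕ) (χ : DirichletCharacter ℂ q) (t : ℝ),
      Pool.H2.Ell.dist2 (Pool.H2.Rand.conjAF g) χ t
        = Pool.H2.Ell.dist2 g (χ.ringHomComp (starRingEnd ℂ) : DirichletCharacter ℂ q) (-t) :=
    fun q χ t => funext fun x => sus_dist g χ t x
  have hcc : ∀ (q : ℕ) (χ : DirichletCharacter ℂ q),
      (((χ.ringHomComp (starRingEnd ℂ) : DirichletCharacter ℂ q)).ringHomComp (starRingEnd ℂ)
        : DirichletCharacter ℂ q) = χ := by
    intro q χ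
    ext x
    simp [MulChar.ringHomComp_apply]
  refine Pool.H2.Ell.mainB (r + 1) (susG g u) ?_ ?_ (Fin.last r) ?_ ?_ (susH a) (susH_inj a ha)
  · intro i
    induction i using Fin.lastCases with
    | last => rw [susG_last]; exact sus_one_mul
    | cast i =>
      rw [susG_cast]
      split_ifs
      · exact sus_conj_mul hmul
      · exact hmul
  · intro i n
    induction i using Fin.lastCases with
    | last => rw [susG_last]; exact sus_one_bd n
    | cast i =>
      rw [susG_cast]
      split_ifs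
      · simp only [Pool.H2.Rand.conjAF, ArithmeticFunction.coe_mk, RCLike.norm_conj]
        exact hbd n
      · exact hbd n
  · intro i hi
    induction i using Fin.lastCases with
    | last => exact absurd rfl hi
    | cast i =>
      rw [susG_cast]
      obtain ⟨q, χ, t, hq, ht⟩ := hslow
      split_ifs
      · refine ⟨q, χ.ringHomComp (starRingEnd ℂ), -t, hq, ?_⟩
        rw [hconj, hcc, neg_neg]
        exact ht
      · exact ⟨q, χ, t, hq, ht⟩
  · refine ⟨(⟨0, hr⟩ : Fin r).castSucc, (Fin.castSucc_lt_last _).ne, ?_⟩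
    intro q χ t hq
    rw [susG_cast]
    split_ifs
    · rw [hconj]
      exact hnp q _ _ hq
    · exact hnp q χ t hq

theorem su_rand {Ω : Type} [MeasurableSpace Ω] (μ : Measure Ω) [IsProbabilityMeasure μ]
    (f : Ω → ArithmeticFunction ℂ) (hmul : ∀ ω, (f ω).IsMultiplicative) (hbd : ∀ ω n, ‖f ω n‖ ≤ 1)
    (hmeas : ∀ n, Measurable (fun ω => f ω n))
    (hind : iIndepFun (fun (p : Nat.Primes) (ω : Ω) (m : ℕ) => f ω ((p : ℕ) ^ m)) μ)
    (hmean : ∀ᶠ p : ℕ in atTop, p.Prime → ∫ ω, f ω p ∂μ = 0) : ∀ᵐ ω ∂μ, SU (f ω) := by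
  set F : Bool → Ω → ArithmeticFunction ℂ :=
    fun b ω => if b then Pool.H2.Rand.conjAF (f ω) else f ω with hFdef
  have hF : Pool.H2.Rand.RandMult μ F := by
    refine ⟨?_, ?_, ?_, ?_⟩
    · intro b ω
      cases b
      · simpa [hFdef] using hmul ω
      · simpa [hFdef] using sus_conj_mul (hmul ω)
    · intro b ω n
      cases b
      · simpa [hFdef] using hbd ω n
      · have := hbd ω n
        simpa [hFdef, Pool.H2.Rand.conjAF] using this
    · intro b n
      cases b
      · simpa [hFdef] using hmeas n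
      · have := (Complex.continuous_conj.measurable).comp (hmeas n)
        simpa [hFdef, Pool.H2.Rand.conjAF, Function.comp_def] using this
    · set Φ : (ℕ → ℂ) → (Bool × ℕ → ℂ) := fun z x =>
        if x.1 then (starRingEnd ℂ) (z x.2) else z x.2 with hΦ
      have hΦm : Measurable Φ := by
        rw [measurable_pi_iff]
        rintro ⟨b, m⟩
        cases b
        · simpa [hΦ] using measurable_pi_apply m
        · have := (Complex.continuous_conj.measurable).comp
            (measurable_pi_apply m : Measurable (fun z : ℕ → ℂ => z m))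
          simpa [hΦ, Function.comp_def] using this
      have h1 := hind.comp (fun _ => Φ) (fun _ => hΦm)
      convert h1 using 1
      funext p ω x
      obtain ⟨b, m⟩ := x
      cases b
      · simp [hFdef, hΦ]
      · simp [hFdef, hΦ, Pool.H2.Rand.conjAF]
  have hm : ∀ b, ∀ᶠ p : ℕ in atTop, p.Prime → ∫ ω, F b ω p ∂μ = 0 := by
    intro b
    cases b
    · simpa [hFdef] using hmean
    · filter_upwards [hmean] with p hp hpp
      have h1 := hp hpp
      have h2 : ∫ ω, F true ω p ∂μ = (starRingEnd ℂ) (∫ ω, f ω p ∂μ) := by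
        rw [← integral_conj]
        simp [hFdef, Pool.H2.Rand.conjAF]
      rw [h2, h1, map_zero]
  have hmain := Pool.H2.Rand.mainR hF hm (fun _ => 0) (fun _ _ => by simp)
  filter_upwards [hmain] with ω hω
  intro r a u hr ha
  refine sus_avg (f ω) a u ?_
  refine hω (r + 1) (susG (f ω) u) (Fin.last r) ?_ ?_ ?_ ?_ (susH a) (susH_inj a ha)
  · rw [susG_last]; exact sus_one_mul
  · intro n; rw [susG_last]; exact sus_one_bd n
  · intro j hj
    left
    induction j using Fin.lastCases with
    | last => exact absurd rfl hj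
    | cast i =>
      refine ⟨u i, ?_⟩
      rw [susG_cast]
  · refine ⟨(⟨0, hr⟩ : Fin r).castSucc, (Fin.castSucc_lt_last _).ne, u ⟨0, hr⟩, ?_⟩
    rw [susG_cast]

end Pool.Agent.H68.OF
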