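import Pool.Agent.H68.OF.Core
import Pool.Agent.H68.OF.Lim

/-!
Module TRA: transfer of `core` to finite averages, for arbitrary bounded functions `f_j`.

Take `m₀`, `M₀` from `core` with `δ/2`. Suppose the claim fails for `m₁, M'`: for every `i` there are
`X i ≥ i` and bounded `f^i_j` with sum `> δ ∑ 1/m`. Let `U, M` be from `exists_mn`; `SUM M g` holds by
`SUZ g`. The norms of the averages converge along `U` to `‖Ec F_p‖`, and `core` with `a_p` the phase of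
`Ec F_p` gives a contradiction.
-/

set_option autoImplicit false

open Filter Topology

namespace Pool.Agent.H68.OF

lemma tra_tendsto {X : ℕ → ℕ} {U : Ultrafilter ℕ} {M : Mn}
    (hM : ∀ f : Om → ℝ, Bdd f →
        Tendsto (fun i => (1 / (X i : ℝ)) * ∑ n ∈ Finset.Icc 1 (X i), f (i, (n : ℤ))) U (𝓝 (M.E f)))
    (F : Om → ℂ) (hF : BddC F) :
    Tendsto (fun i => (1 / (X i : ℂ)) * ∑ n ∈ Finset.Icc 1 (X i), F (i, (n : ℤ))) U (𝓝 (M.Ec F)) := by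
  have h1 := (Complex.continuous_ofReal.tendsto _).comp (hM _ hF.re)
  have h2 := (Complex.continuous_ofReal.tendsto _).comp (hM _ hF.im)
  have h3 := h1.add (h2.mul_const Complex.I)
  have he : M.Ec F = ((M.E fun w => (F w).re : ℝ) : ℂ) + ((M.E fun w => (F w).im : ℝ) : ℂ) * Complex.I := by
    apply Complex.ext <;> simp [Mn.Ec]
  rw [he]
  refine h3.congr (fun i => ?_)
  simp only [Function.comp]
  push_cast
  rw [mul_assoc, ← mul_add]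
  congr 1
  rw [Finset.sum_mul, ← Finset.sum_add_distrib]
  exact Finset.sum_congr rfl (fun n _ => Complex.re_add_im _)

lemma tra_dv_le (p : ℕ) (n : ℤ) : ‖(dv p n : ℂ)‖ ≤ p := by
  unfold dv
  split_ifs <;> simp

theorem transfer (k h₀ : ℕ) (h : Fin k → ℕ) (hne : ∀ j, h j ≠ h₀) (g : ℤ → ℂ)
    (hg : ∀ n, ‖g n‖ ≤ 1) (hSU : SUZ g) (δ : ℝ) (hδ : 0 < δ) :
    ∃ m₀ : ℕ, ∀ m₁, m₀ ≤ m₁ → ∃ M₀ : ℕ, ∀ M', M₀ ≤ M' → ∃ X₀ : ℕ, ∀ X, X₀ ≤ X →
    ∀ (f : Fin k → ℤ → ℂ), (∀ j n, ‖f j n‖ ≤ 1) →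
    ∑ m ∈ Finset.Ico m₁ M', (1 / (m : ℝ)) * ((1 / ((PP m).card : ℝ)) * ∑ p ∈ PP m,
      ‖(1 / (X : ℂ)) * ∑ n ∈ Finset.Icc 1 X, (dv p n : ℂ) *
        (g ((n : ℤ) + p * h₀) * ∏ j, f j ((n : ℤ) + p * h j))‖)
      ≤ δ * ∑ m ∈ Finset.Ico m₁ M', (1 / (m : ℝ)) := by
  obtain ⟨m₀, hm₀⟩ := core k h₀ h hne (δ / 2) (by positivity)
  refine ⟨m₀, fun m₁ hm₁ => ?_⟩
  obtain ⟨M₀, hM₀⟩ := hm₀ m₁ hm₁
  refine ⟨M₀, fun M' hM' => ?_⟩
  have hL0 : 0 ≤ ∑ m ∈ Finset.Ico m₁ M', (1 / (m : ℝ)) := Finset.sum_nonneg (fun m _ => by positivity)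
  rcases hL0.eq_or_lt with hL | hL
  · refine ⟨0, fun X _ f _ => ?_⟩
    have hz := (Finset.sum_eq_zero_iff_of_nonneg (fun m _ => by positivity)).1 hL.symm
    rw [← hL, mul_zero]
    apply le_of_eq
    apply Finset.sum_eq_zero
    intro m hm
    rw [hz m hm, zero_mul]
  by_contra hcon
  push Not at hcon
  choose X hXi f hf hS using hcon
  have hX : Tendsto X atTop atTop := tendsto_atTop_mono hXi tendsto_id
  obtain ⟨U, M, hU, hM⟩ := exists_mn X hX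
  have hSM : SUM M g := by
    intro l hl hn
    have h1 := tra_tendsto hM (fun w => pl g l w.2) ⟨1, fun w => norm_pl_le g hg l w.2⟩
    have h2 := ((hSU l hl hn).comp hX).mono_left hU
    exact tendsto_nhds_unique h1 h2
  let F : ℕ → Om → ℂ := fun p w => (dv p w.2 : ℂ) * (g (w.2 + p * h₀) * ∏ j, f w.1 j (w.2 + p * h j))
  have hFb : ∀ p, BddC (F p) := by
    intro p
    refine ⟨p, fun w => ?_⟩
    have h1 : ‖g (w.2 + p * h₀) * ∏ j, f w.1 j (w.2 + p * h j)‖ ≤ 1 := by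
      rw [norm_mul, norm_prod]
      have h2 : ∏ j, ‖f w.1 j (w.2 + p * h j)‖ ≤ 1 :=
        Finset.prod_le_one (fun _ _ => norm_nonneg _) (fun j _ => hf _ j _)
      have h3 : 0 ≤ ∏ j, ‖f w.1 j (w.2 + p * h j)‖ := Finset.prod_nonneg (fun _ _ => norm_nonneg _)
      calc ‖g (w.2 + p * h₀)‖ * ∏ j, ‖f w.1 j (w.2 + p * h j)‖ ≤ 1 * 1 :=
            mul_le_mul (hg _) h2 h3 (by norm_num)
        _ = 1 := by norm_num
    show ‖(dv p w.2 : ℂ) * (g (w.2 + p * h₀) * ∏ j, f w.1 j (w.2 + p * h j))‖ ≤ p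
    rw [norm_mul]
    calc ‖(dv p w.2 : ℂ)‖ * ‖g (w.2 + p * h₀) * ∏ j, f w.1 j (w.2 + p * h j)‖ ≤ p * 1 :=
          mul_le_mul (tra_dv_le p w.2) h1 (norm_nonneg _) (by positivity)
      _ = p := by ring
  let a : ℕ → ℂ := fun p => (starRingEnd ℂ) (M.Ec (F p)) / (‖M.Ec (F p)‖ : ℂ)
  have ha : ∀ p, ‖a p‖ ≤ 1 := by
    intro p
    show ‖(starRingEnd ℂ) (M.Ec (F p)) / (‖M.Ec (F p)‖ : ℂ)‖ ≤ 1
    rw [norm_div, Complex.norm_conj, Complex.norm_real, norm_norm]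
    exact div_self_le_one _
  have haE : ∀ p, (a p * M.Ec (F p)).re = ‖M.Ec (F p)‖ := by
    intro p
    show ((starRingEnd ℂ) (M.Ec (F p)) / (‖M.Ec (F p)‖ : ℂ) * M.Ec (F p)).re = ‖M.Ec (F p)‖
    rcases eq_or_ne (M.Ec (F p)) 0 with h0 | h0
    · simp [h0]
    have h1 : (‖M.Ec (F p)‖ : ℂ) ≠ 0 := by
      rw [Complex.ofReal_ne_zero, norm_ne_zero_iff]; exact h0
    rw [div_mul_eq_mul_div, mul_comm ((starRingEnd ℂ) (M.Ec (F p))), Complex.mul_conj,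
      Complex.normSq_eq_norm_sq]
    have : (((‖M.Ec (F p)‖ ^ 2 : ℝ) : ℂ)) / (‖M.Ec (F p)‖ : ℂ) = (‖M.Ec (F p)‖ : ℂ) := by
      push_cast
      field_simp
    rw [this, Complex.ofReal_re]
  have hcore := hM₀ M' hM' M g hg hSM (fun j w => f w.1 j w.2) (fun j w => hf _ j _) a ha
  have hcore' : ∑ m ∈ Finset.Ico m₁ M', (1 / (m : ℝ)) * ((1 / ((PP m).card : ℝ)) * ∑ p ∈ PP m,
      ‖M.Ec (F p)‖) ≤ δ / 2 * ∑ m ∈ Finset.Ico m₁ M', (1 / (m : ℝ)) := by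
    refine le_trans (le_of_eq ?_) hcore
    apply Finset.sum_congr rfl
    intro m _
    congr 2
    apply Finset.sum_congr rfl
    intro p _
    rw [← haE p]
    rfl
  have hlim : Tendsto (fun i => ∑ m ∈ Finset.Ico m₁ M', (1 / (m : ℝ)) * ((1 / ((PP m).card : ℝ)) *
      ∑ p ∈ PP m, ‖(1 / (X i : ℂ)) * ∑ n ∈ Finset.Icc 1 (X i), (dv p n : ℂ) *
        (g ((n : ℤ) + p * h₀) * ∏ j, f i j ((n : ℤ) + p * h j))‖)) U
      (𝓝 (∑ m ∈ Finset.Ico m₁ M', (1 / (m : ℝ)) * ((1 / ((PP m).card : ℝ)) * ∑ p ∈ PP m,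
      ‖M.Ec (F p)‖))) := by
    apply tendsto_finsetSum
    intro m _
    apply Tendsto.const_mul
    apply Tendsto.const_mul
    apply tendsto_finsetSum
    intro p _
    exact (tra_tendsto hM (F p) (hFb p)).norm
  have hge := ge_of_tendsto' hlim (fun i => (hS i).le)
  nlinarith

end Pool.Agent.H68.OF
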