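import Pool.Agent.H68.OF.Pr

/-!
Module VAR: the variational lower bound for conditional mutual information (Gibbs), and as
consequences submodularity and the bound `H ≤ log |S|`.

`info_ge`. Let `p(a,b,c)` be the law of `(x,y,z)`. By the marginal formulas
`Info = ∑ p(a,b,c) log [p(a,b,c) p(c) / (p(a,c) p(b,c))]` (sum over `p(a,b,c) > 0`; then
`p(c), p(a,c), p(b,c) > 0`). With `log t ≤ t * e^{-β}... ` precisely: for `p(a,b,c)>0`
`Φ(a,b) - β - log[p(a,b,c)p(c)/(p(a,c)p(b,c))] = log (r)` with
`r = p(a,c)p(b,c) e^{Φ(a,b)-β} / (p(c)p(a,b,c))`, and `log r ≤ r - 1`. Multiply by `p(a,b,c)` and sum: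
`E Φ(x,y) - β - Info ≤ ∑_{c: p(c)>0} ∑_{a,b} p(a,c)p(b,c)e^{Φ(a,b)-β}/p(c) - 1 ≤ ∑_c ∑_a p(a,c) - 1 = 0`
if for all `a, c` : `∑_b p(b,c) e^{Φ(a,b)} ≤ p(c) e^β`, which follows from the independence hypothesis
`hind : p(b,c) = p(b) p(c)` and `hΦ`.
`info_nonneg` is the case `Φ = 0`, `β = 0` WITHOUT independence (same computation,
`∑_b p(b,c) = p(c)`).
-/

set_option autoImplicit false

open Filter Topology

namespace Pool.Agent.H68.OF

variable (M : Mn)

/-- pointwise inequality behind the variational bound -/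
lemma var_term (P ac bc c φ β : ℝ) (hP : 0 ≤ P) (hac : P ≤ ac) (hbc : P ≤ bc) (hc : P ≤ c) :
    P * (φ - β - Real.log P - Real.log c + Real.log ac + Real.log bc)
      ≤ ac * bc * Real.exp (φ - β) / c - P := by
  rcases hP.eq_or_lt with h0 | hpos
  · rw [← h0]
    have h1 : 0 ≤ ac := h0 ▸ hac
    have h2 : 0 ≤ bc := h0 ▸ hbc
    have h3 : 0 ≤ c := h0 ▸ hc
    simp only [zero_mul, sub_zero]
    positivity
  · have hac' : 0 < ac := lt_of_lt_of_le hpos hac
    have hbc' : 0 < bc := lt_of_lt_of_le hpos hbc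
    have hc' : 0 < c := lt_of_lt_of_le hpos hc
    have hr : 0 < ac * bc * Real.exp (φ - β) / (c * P) := by positivity
    have hlog := Real.log_le_sub_one_of_pos hr
    have hexp : Real.log (ac * bc * Real.exp (φ - β) / (c * P))
        = φ - β - Real.log P - Real.log c + Real.log ac + Real.log bc := by
      rw [Real.log_div (by positivity) (by positivity), Real.log_mul (by positivity) (by positivity),
        Real.log_mul (by positivity) (by positivity), Real.log_mul (by positivity) (by positivity),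
        Real.log_exp]
      ring
    rw [hexp] at hlog
    have := mul_le_mul_of_nonneg_left hlog hP
    refine this.trans (le_of_eq ?_)
    field_simp

/-- finite variational inequality -/
lemma var_core {A B C : Type} [Fintype A] [Fintype B] [Fintype C]
    (P : A → B → C → ℝ) (hP : ∀ a b c, 0 ≤ P a b c)
    (Pac : A → C → ℝ) (hac : ∀ a c, ∑ b, P a b c = Pac a c)
    (Pbc : B → C → ℝ) (hbc : ∀ b c, ∑ a, P a b c = Pbc b c)
    (Pc : C → ℝ) (hc : ∀ c, ∑ b, Pbc b c = Pc c) (hsum : ∑ c, Pc c = 1)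
    (Φ : A → B → ℝ) (β : ℝ)
    (h : ∀ a c, ∑ b, Pbc b c * Real.exp (Φ a b) ≤ Pc c * Real.exp β) :
    (∑ a, ∑ b, ∑ c, P a b c * Φ a b) - β
      ≤ (∑ a, ∑ c, Real.negMulLog (Pac a c)) + (∑ b, ∑ c, Real.negMulLog (Pbc b c))
        - (∑ a, ∑ b, ∑ c, Real.negMulLog (P a b c)) - ∑ c, Real.negMulLog (Pc c) := by
  have hPac : ∀ a c, 0 ≤ Pac a c := fun a c => by
    rw [← hac]; exact Finset.sum_nonneg fun b _ => hP a b c
  have hPbc : ∀ b c, 0 ≤ Pbc b c := fun b c => by
    rw [← hbc]; exact Finset.sum_nonneg fun a _ => hP a b c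
  have hPc : ∀ c, 0 ≤ Pc c := fun c => by
    rw [← hc]; exact Finset.sum_nonneg fun b _ => hPbc b c
  have h1 : ∀ a b c, P a b c ≤ Pac a c := fun a b c => by
    rw [← hac]; exact Finset.single_le_sum (fun b _ => hP a b c) (Finset.mem_univ b)
  have h2 : ∀ a b c, P a b c ≤ Pbc b c := fun a b c => by
    rw [← hbc]; exact Finset.single_le_sum (fun a _ => hP a b c) (Finset.mem_univ a)
  have h3 : ∀ a b c, P a b c ≤ Pc c := fun a b c => by
    refine (h2 a b c).trans ?_
    rw [← hc]; exact Finset.single_le_sum (fun b _ => hPbc b c) (Finset.mem_univ b)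
  have hAC : ∀ c, ∑ a, Pac a c = Pc c := fun c => by
    rw [← hc]
    simp_rw [← hac, ← hbc]
    exact Finset.sum_comm
  -- entropies as sums over the joint law
  have e1 : (∑ a, ∑ c, Real.negMulLog (Pac a c))
      = - ∑ a, ∑ b, ∑ c, P a b c * Real.log (Pac a c) := by
    rw [← Finset.sum_neg_distrib]
    refine Finset.sum_congr rfl fun a _ => ?_
    rw [Finset.sum_comm, ← Finset.sum_neg_distrib]
    refine Finset.sum_congr rfl fun c _ => ?_
    rw [← Finset.sum_mul, hac, Real.negMulLog]
    ring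
  have e2 : (∑ b, ∑ c, Real.negMulLog (Pbc b c))
      = - ∑ a, ∑ b, ∑ c, P a b c * Real.log (Pbc b c) := by
    rw [Finset.sum_comm (s := (Finset.univ : Finset A)), ← Finset.sum_neg_distrib]
    refine Finset.sum_congr rfl fun b _ => ?_
    rw [Finset.sum_comm, ← Finset.sum_neg_distrib]
    refine Finset.sum_congr rfl fun c _ => ?_
    rw [← Finset.sum_mul, hbc, Real.negMulLog]
    ring
  have e3 : (∑ a, ∑ b, ∑ c, Real.negMulLog (P a b c))
      = - ∑ a, ∑ b, ∑ c, P a b c * Real.log (P a b c) := by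
    simp_rw [← Finset.sum_neg_distrib]
    refine Finset.sum_congr rfl fun a _ => Finset.sum_congr rfl fun b _ =>
      Finset.sum_congr rfl fun c _ => ?_
    rw [Real.negMulLog]; ring
  have e4 : (∑ c, Real.negMulLog (Pc c))
      = - ∑ a, ∑ b, ∑ c, P a b c * Real.log (Pc c) := by
    have : ∀ c, Real.negMulLog (Pc c) = - ∑ a, ∑ b, P a b c * Real.log (Pc c) := by
      intro c
      rw [Real.negMulLog, ← hAC c, Finset.sum_congr rfl fun a _ => (hac a c).symm]
      rw [neg_mul, Finset.sum_mul]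
      congr 1
      exact Finset.sum_congr rfl fun a _ => by rw [Finset.sum_mul]
    rw [Finset.sum_congr rfl fun c _ => this c, Finset.sum_neg_distrib]
    congr 1
    rw [Finset.sum_comm]
    refine Finset.sum_congr rfl fun a _ => ?_
    rw [Finset.sum_comm]
  have e5 : ∑ a, ∑ b, ∑ c, P a b c = 1 := by
    rw [← hsum]
    rw [Finset.sum_congr rfl fun a _ => Finset.sum_comm]
    rw [Finset.sum_comm]
    refine Finset.sum_congr rfl fun c _ => ?_
    rw [← hAC c]
    exact Finset.sum_congr rfl fun a _ => hac a c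
  have key : ∑ a, ∑ b, ∑ c, P a b c * (Φ a b - β - Real.log (P a b c) - Real.log (Pc c)
        + Real.log (Pac a c) + Real.log (Pbc b c))
      ≤ ∑ a, ∑ b, ∑ c, (Pac a c * Pbc b c * Real.exp (Φ a b - β) / Pc c - P a b c) := by
    refine Finset.sum_le_sum fun a _ => Finset.sum_le_sum fun b _ => Finset.sum_le_sum fun c _ => ?_
    exact var_term _ _ _ _ _ _ (hP a b c) (h1 a b c) (h2 a b c) (h3 a b c)
  have hR : ∑ a, ∑ b, ∑ c, (Pac a c * Pbc b c * Real.exp (Φ a b - β) / Pc c - P a b c) ≤ 0 := by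
    have : ∑ a, ∑ b, ∑ c, (Pac a c * Pbc b c * Real.exp (Φ a b - β) / Pc c - P a b c)
        = (∑ a, ∑ b, ∑ c, Pac a c * Pbc b c * Real.exp (Φ a b - β) / Pc c) - 1 := by
      rw [← e5]
      simp_rw [Finset.sum_sub_distrib]
    rw [this]
    have hb : ∑ a, ∑ b, ∑ c, Pac a c * Pbc b c * Real.exp (Φ a b - β) / Pc c ≤ 1 := by
      rw [← hsum]
      rw [Finset.sum_congr rfl fun a _ => Finset.sum_comm]
      rw [Finset.sum_comm]
      refine Finset.sum_le_sum fun c _ => ?_
      refine le_trans (Finset.sum_le_sum fun a _ => ?_) (hAC c).le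
      have hb1 : ∑ b, Pac a c * Pbc b c * Real.exp (Φ a b - β) / Pc c
          = Pac a c * ((∑ b, Pbc b c * Real.exp (Φ a b)) * Real.exp (-β) / Pc c) := by
        rw [Finset.sum_mul, Finset.sum_div, Finset.mul_sum]
        refine Finset.sum_congr rfl fun b _ => ?_
        rw [sub_eq_add_neg, Real.exp_add]
        ring
      rw [hb1]
      rcases (hPc c).eq_or_lt with h0 | hpos
      · rw [← h0]; simp [hPac a c]
      · have hb2 : (∑ b, Pbc b c * Real.exp (Φ a b)) * Real.exp (-β) / Pc c ≤ 1 := by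
          rw [div_le_one hpos]
          calc (∑ b, Pbc b c * Real.exp (Φ a b)) * Real.exp (-β)
              ≤ (Pc c * Real.exp β) * Real.exp (-β) :=
                mul_le_mul_of_nonneg_right (h a c) (Real.exp_pos _).le
            _ = Pc c := by rw [mul_assoc, ← Real.exp_add]; simp
        calc Pac a c * ((∑ b, Pbc b c * Real.exp (Φ a b)) * Real.exp (-β) / Pc c)
            ≤ Pac a c * 1 := mul_le_mul_of_nonneg_left hb2 (hPac a c)
          _ = Pac a c := mul_one _
    linarith
  have hL : ∑ a, ∑ b, ∑ c, P a b c * (Φ a b - β - Real.log (P a b c) - Real.log (Pc c)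
        + Real.log (Pac a c) + Real.log (Pbc b c))
      = (∑ a, ∑ b, ∑ c, P a b c * Φ a b) - β
        - (∑ a, ∑ b, ∑ c, P a b c * Real.log (P a b c))
        - (∑ a, ∑ b, ∑ c, P a b c * Real.log (Pc c))
        + (∑ a, ∑ b, ∑ c, P a b c * Real.log (Pac a c))
        + (∑ a, ∑ b, ∑ c, P a b c * Real.log (Pbc b c)) := by
    have hβ : β = ∑ a, ∑ b, ∑ c, P a b c * β := by
      simp_rw [← Finset.sum_mul]
      rw [e5, one_mul]
    conv_rhs => rw [hβ]
    simp_rw [← Finset.sum_sub_distrib, ← Finset.sum_add_distrib]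
    refine Finset.sum_congr rfl fun a _ => Finset.sum_congr rfl fun b _ =>
      Finset.sum_congr rfl fun c _ => ?_
    ring
  rw [hL] at key
  rw [e1, e2, e3, e4]
  linarith

/-- the joint law inequality, for means -/
lemma var_info {A B C : Type} [Fintype A] [Fintype B] [Fintype C]
    (x : Om → A) (y : Om → B) (z : Om → C)
    (Φ : A → B → ℝ) (β : ℝ)
    (h : ∀ a c, ∑ b, pr M (fun w => (y w, z w)) (b, c) * Real.exp (Φ a b)
      ≤ pr M z c * Real.exp β) :
    M.E (fun w => Φ (x w) (y w)) - β ≤ Info M x y z := by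
  classical
  have hac : ∀ a c, ∑ b, pr M (fun w => (x w, y w, z w)) (a, b, c)
      = pr M (fun w => (x w, z w)) (a, c) := by
    intro a c
    rw [← pr_snd M y (fun w => (x w, z w)) (a, c)]
    refine Finset.sum_congr rfl fun b _ => ?_
    unfold pr
    congr 1
    funext w
    simp only [Prod.mk.injEq]
    congr 1
    simp only [eq_iff_iff]
    tauto
  have hbc : ∀ b c, ∑ a, pr M (fun w => (x w, y w, z w)) (a, b, c)
      = pr M (fun w => (y w, z w)) (b, c) := by
    intro b c
    exact pr_snd M x (fun w => (y w, z w)) (b, c)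
  have hc : ∀ c, ∑ b, pr M (fun w => (y w, z w)) (b, c) = pr M z c := fun c => pr_snd M y z c
  have key := var_core (fun a b c => pr M (fun w => (x w, y w, z w)) (a, b, c))
    (fun a b c => pr_nonneg M _ _) (fun a c => pr M (fun w => (x w, z w)) (a, c)) hac
    (fun b c => pr M (fun w => (y w, z w)) (b, c)) hbc (fun c => pr M z c) hc (sum_pr M z) Φ β h
  have hE : M.E (fun w => Φ (x w) (y w))
      = ∑ a, ∑ b, ∑ c, pr M (fun w => (x w, y w, z w)) (a, b, c) * Φ a b := by
    have := E_comp M (fun w => (x w, y w, z w)) (fun s => Φ s.1 s.2.1)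
    rw [this, Fintype.sum_prod_type]
    refine Finset.sum_congr rfl fun a _ => ?_
    rw [Fintype.sum_prod_type]
  rw [hE]
  unfold Info Hn
  refine key.trans (le_of_eq ?_)
  have s1 : ∑ s : A × C, Real.negMulLog (pr M (fun w => (x w, z w)) s)
      = ∑ a, ∑ c, Real.negMulLog (pr M (fun w => (x w, z w)) (a, c)) := Fintype.sum_prod_type _
  have s2 : ∑ s : B × C, Real.negMulLog (pr M (fun w => (y w, z w)) s)
      = ∑ b, ∑ c, Real.negMulLog (pr M (fun w => (y w, z w)) (b, c)) := Fintype.sum_prod_type _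
  have s3 : ∑ s : A × B × C, Real.negMulLog (pr M (fun w => (x w, y w, z w)) s)
      = ∑ a, ∑ b, ∑ c, Real.negMulLog (pr M (fun w => (x w, y w, z w)) (a, b, c)) := by
    rw [Fintype.sum_prod_type]
    exact Finset.sum_congr rfl fun a _ => Fintype.sum_prod_type _
  rw [s1, s2, s3]

/-- strong subadditivity of entropy -/
lemma info_nonneg {A B C : Type} [Fintype A] [Fintype B] [Fintype C]
    (x : Om → A) (y : Om → B) (z : Om → C) : 0 ≤ Info M x y z := by
  have h := var_info M x y z (fun _ _ => 0) 0 (by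
    intro a c
    simp only [Real.exp_zero, mul_one]
    exact (pr_snd M y z c).le)
  have h0 : M.E (fun _ => (0 : ℝ)) = 0 := by
    have := E_comp M x (fun _ => (0 : ℝ))
    simpa using this
  simp only [h0, sub_zero] at h
  exact h

/-- entropy is at most the logarithm of the number of values -/
lemma Hn_le_log {S : Type} [Fintype S] [Nonempty S] (f : Om → S) :
    Hn M f ≤ Real.log (Fintype.card S) := by
  have hcard : (0 : ℝ) < (Fintype.card S : ℝ) := by exact_mod_cast Fintype.card_pos
  have hterm : ∀ s, Real.negMulLog (pr M f s) - pr M f s * Real.log (Fintype.card S)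
      ≤ 1 / (Fintype.card S : ℝ) - pr M f s := by
    intro s
    rcases (pr_nonneg M f s).eq_or_lt with h0 | hpos
    · rw [← h0]; simp
    · have hr : 0 < 1 / ((Fintype.card S : ℝ) * pr M f s) := by positivity
      have hlog := Real.log_le_sub_one_of_pos hr
      rw [one_div, Real.log_inv, Real.log_mul hcard.ne' hpos.ne'] at hlog
      have := mul_le_mul_of_nonneg_left hlog hpos.le
      rw [Real.negMulLog]
      have h2 : pr M f s * (((Fintype.card S : ℝ) * pr M f s)⁻¹ - 1)
          = 1 / (Fintype.card S : ℝ) - pr M f s := by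
        field_simp
      rw [h2] at this
      linarith
  have hs := Finset.sum_le_sum (fun s (_ : s ∈ (Finset.univ : Finset S)) => hterm s)
  rw [Finset.sum_sub_distrib, Finset.sum_sub_distrib, ← Finset.sum_mul, sum_pr, one_mul] at hs
  have h1 : ∑ _s : S, 1 / (Fintype.card S : ℝ) = 1 := by
    rw [Finset.sum_const, Finset.card_univ, nsmul_eq_mul]
    field_simp
  rw [h1] at hs
  unfold Hn
  linarith

/-- variational lower bound -/
lemma info_ge {A B C : Type} [Fintype A] [Fintype B] [Fintype C]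
    (x : Om → A) (y : Om → B) (z : Om → C)
    (hind : ∀ b c, pr M (fun w => (y w, z w)) (b, c) = pr M y b * pr M z c)
    (Φ : A → B → ℝ) (β : ℝ) (hΦ : ∀ a, ∑ b, pr M y b * Real.exp (Φ a b) ≤ Real.exp β) :
    M.E (fun w => Φ (x w) (y w)) - β ≤ Info M x y z := by
  refine var_info M x y z Φ β ?_
  intro a c
  have : ∑ b, pr M (fun w => (y w, z w)) (b, c) * Real.exp (Φ a b)
      = pr M z c * ∑ b, pr M y b * Real.exp (Φ a b) := by
    rw [Finset.mul_sum]
    refine Finset.sum_congr rfl fun b _ => ?_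
    rw [hind]; ring
  rw [this]
  exact mul_le_mul_of_nonneg_left (hΦ a) (pr_nonneg M z c)

end Pool.Agent.H68.OF
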