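import Mathlib

/-!
# One self-uncorrelated factor suffices: definitions

`Om = ℕ × ℤ` is a space of pairs (index, position); `Mn` is a positive unital linear functional on
bounded functions on `Om`, invariant under translation of the position.
-/

set_option autoImplicit false

open Filter Topology

namespace Pool.Agent.H68.OF

/-- index and position -/
abbrev Om : Type := ℕ × ℤ

/-- translation of the position -/
def tr (a : ℤ) (w : Om) : Om := (w.1, w.2 + a)

@[simp] lemma tr_fst (a : ℤ) (w : Om) : (tr a w).1 = w.1 := rfl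
@[simp] lemma tr_snd (a : ℤ) (w : Om) : (tr a w).2 = w.2 + a := rfl
@[simp] lemma tr_zero (w : Om) : tr 0 w = w := by simp [tr]
@[simp] lemma tr_tr (a b : ℤ) (w : Om) : tr a (tr b w) = tr (b + a) w := by
  simp [tr, add_assoc]

/-- bounded real function -/
def Bdd (f : Om → ℝ) : Prop := ∃ C : ℝ, ∀ w, |f w| ≤ C

/-- bounded complex function -/
def BddC (f : Om → ℂ) : Prop := ∃ C : ℝ, ∀ w, ‖f w‖ ≤ C

/-- invariant mean -/
structure Mn where
  /-- the functional -/
  E : (Om → ℝ) → ℝ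
  add' : ∀ f g, Bdd f → Bdd g → E (fun w => f w + g w) = E f + E g
  smul' : ∀ (c : ℝ) (f : Om → ℝ), Bdd f → E (fun w => c * f w) = c * E f
  nonneg' : ∀ f, Bdd f → (∀ w, 0 ≤ f w) → 0 ≤ E f
  one' : E (fun _ => 1) = 1
  inv' : ∀ f, Bdd f → E (fun w => f (tr 1 w)) = E f

/-- complex valued mean -/
noncomputable def Mn.Ec (M : Mn) (f : Om → ℂ) : ℂ :=
  ⟨M.E (fun w => (f w).re), M.E (fun w => (f w).im)⟩

open Classical in
/-- law of a finitely valued function -/
noncomputable def pr (M : Mn) {S : Type} (f : Om → S) (s : S) : ℝ :=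
  M.E (fun w => if f w = s then 1 else 0)

/-- entropy of a finitely valued function -/
noncomputable def Hn (M : Mn) {S : Type} [Fintype S] (f : Om → S) : ℝ :=
  ∑ s, Real.negMulLog (pr M f s)

/-- primes in `(2^m, 2^(m+1)]` -/
def PP (m : ℕ) : Finset ℕ := (Finset.Ioc (2 ^ m) (2 ^ (m + 1))).filter Nat.Prime

/-- product of the primes in `PP m` -/
def QQ (m : ℕ) : ℕ := ∏ p ∈ PP m, p

/-- product of the primes in `PP m'`, `m₁ ≤ m' < m` -/
def WW (m₁ m : ℕ) : ℕ := ∏ m' ∈ Finset.Ico m₁ m, QQ m'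

/-- residue of the position -/
def res (q : ℕ) (w : Om) : ZMod q := (w.2 : ZMod q)

/-- word of length `n` read at `w` -/
def word {S : Type} (ξ : Om → S) (n : ℕ) (w : Om) : Fin n → S := fun j => ξ (tr (j : ℕ) w)

/-- conditional mutual information of `x` and `y` given `z` -/
noncomputable def Info (M : Mn) {A B C : Type} [Fintype A] [Fintype B] [Fintype C]
    (x : Om → A) (y : Om → B) (z : Om → C) : ℝ :=
  Hn M (fun w => (x w, z w)) + Hn M (fun w => (y w, z w)) - Hn M (fun w => (x w, y w, z w)) - Hn M z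

/-- product of shifted copies of `g` and its conjugate, for a list of (shift, conjugation flag) -/
noncomputable def pl (g : ℤ → ℂ) (l : List (ℤ × Bool)) (n : ℤ) : ℂ :=
  (l.map (fun x => if x.2 then (starRingEnd ℂ) (g (n + x.1)) else g (n + x.1))).prod

/-- `g` is uncorrelated with itself with respect to the mean `M` -/
def SUM (M : Mn) (g : ℤ → ℂ) : Prop :=
  ∀ l : List (ℤ × Bool), l ≠ [] → (l.map Prod.fst).Nodup → M.Ec (fun w => pl g l w.2) = 0

/-- `g` is uncorrelated with itself along the averages over `1 ≤ n ≤ N` -/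
def SUZ (g : ℤ → ℂ) : Prop :=
  ∀ l : List (ℤ × Bool), l ≠ [] → (l.map Prod.fst).Nodup →
    Tendsto (fun N : ℕ => (1 / (N : ℂ)) * ∑ n ∈ Finset.Icc 1 N, pl g l (n : ℤ)) atTop (𝓝 0)

/-- the same for a multiplicative function extended by zero -/
def SU (g : ArithmeticFunction ℂ) : Prop :=
  ∀ (r : ℕ) (a : Fin r → ℤ) (u : Fin r → Bool), 0 < r → Function.Injective a →
    Tendsto (fun N : ℕ => (1 / (N : ℂ)) * ∑ n ∈ Finset.Icc 1 N,
      ∏ i, (if u i then (starRingEnd ℂ) (g ((n : ℤ) + a i).toNat) else g ((n : ℤ) + a i).toNat))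
      atTop (𝓝 0)

/-- correlation average at scale `Z` -/
noncomputable def cor {k : ℕ} (G : Fin k → ArithmeticFunction ℂ) (h : Fin k → ℤ) (Z : ℕ) : ℂ :=
  (1 / (Z : ℂ)) * ∑ n ∈ Finset.Icc 1 Z, ∏ i, G i ((n : ℤ) + h i).toNat

/-- correlation average at scale `Z`, natural shifts -/
noncomputable def corN {k : ℕ} (G : Fin k → ArithmeticFunction ℂ) (h : Fin k → ℕ) (Z : ℕ) : ℂ :=
  (1 / (Z : ℂ)) * ∑ n ∈ Finset.Icc 1 Z, ∏ i, G i (n + h i)

/-- `p` times the indicator of `p ∣ n` -/
noncomputable def dv (p : ℕ) (n : ℤ) : ℝ := if (p : ℤ) ∣ n then (p : ℝ) else 0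

end Pool.Agent.H68.OF
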